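import Pool.Agent.Lib.MP_31f1e8_mp.AL.Defs

/-!
# AL: central branches near every angle

JOB AL-Cent. From `exists_base` (file `Base`), as in the proof of the theorem `result` of
`Pool/Agent/Results/MP_31f1e8_mp/LocalDimension.lean`: for `X ≥ 0` the branch `c` of the last clause
of `exists_base`, for `X < 0` the reflected branch `[-B c, -A c]` with the integer `-k c` of the
branch near `-X` (`F lam (-x) = -F lam x`).
-/

namespace Pool.Agent.MP31f1e8.AL

theorem cen_exists {lam : ℝ} (hlam : 1600 ≤ lam) {X : ℝ} (hX : |X| ≤ Real.pi) :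
    ∃ (a b : ℝ) (k : ℤ), Branch lam a b k ∧ ∀ x ∈ Set.Icc a b, |x - X| ≤ 9 / √lam := by
  obtain ⟨q1, q2, q3, q4, -, -, -⟩ := param hlam
  have hpi := Real.pi_gt_three
  obtain ⟨ι, hι, A, B, k, M, hAB, hk, hM, hder, hcov, hsep, hsum, hden⟩ := exists_base hlam
  have hFneg : ∀ x, F lam (-x) = -F lam x := by
    intro x
    unfold F
    rw [Real.sin_neg]
    ring
  rcases le_total 0 X with h0 | h0
  · rw [abs_of_nonneg h0] at hX
    obtain ⟨c, hc⟩ := hden X h0 hX
    refine ⟨A c, B c, k c, ⟨(hAB c).1, ?_, (hAB c).2.2, fun x hx => (hder c x hx).1, hcov c⟩, hc⟩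
    linarith [(hAB c).2.1, (hAB c).2.2, (hAB c).1]
  · rw [abs_of_nonpos h0] at hX
    obtain ⟨c, hc⟩ := hden (-X) (by linarith) hX
    refine ⟨-B c, -A c, -k c, ⟨?_, ?_, ?_, ?_, ?_⟩, ?_⟩
    · linarith [(hAB c).1]
    · linarith [(hAB c).2.2]
    · linarith [(hAB c).2.1, (hAB c).2.2, (hAB c).1]
    · intro x hx
      have := hder c (-x) ⟨by linarith [hx.2], by linarith [hx.1]⟩
      rw [Real.cos_neg] at this
      exact this.1
    · rw [hFneg, hFneg]
      push_cast
      rcases hcov c with ⟨h1, h2⟩ | ⟨h1, h2⟩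
      · left
        constructor <;> linarith
      · right
        constructor <;> linarith
    · intro x' hx'
      have := hc (-x') ⟨by linarith [hx'.2], by linarith [hx'.1]⟩
      have e : -x' - -X = -(x' - X) := by ring
      rw [e, abs_neg] at this
      exact this

end Pool.Agent.MP31f1e8.AL
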