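import Pool.Agent.Lib.MP_31f1e8_mp.AL.Defs

/-!
# AL: counting eigenvalues of decreasing potentials

JOB AL-Cnt. `cnt V` = the maximal dimension of a subspace `X` of the functions on `[a, b]` with
`⟨M V f, f⟩ ≤ (e + η) ‖f‖ ^ 2` for `f ∈ X`, where `M V` is the operator on `[a, b]`.

If `V' n + ε ≤ V n` on `[a, b]` and `X` is such a subspace for `V`, then
`⟨M V' f, f⟩ ≤ (e + η - ε) ‖f‖ ^ 2` on `X`; for an approximate eigenfunction `g` of `V'` the
subspace `X ⊔ span g` is larger and satisfies the inequality for `V'`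
(`‖η g - r‖ ^ 2 ≤ 2 η ⟨η g - r, g⟩` for the residual `r = (M V' - e) g`).
-/

namespace Pool.Agent.MP31f1e8.AL

open Finset

section abs

variable {E : Type*} [NormedAddCommGroup E] [InnerProductSpace ℝ E]

private theorem Cnt_abs [FiniteDimensional ℝ E] (T : E →ₗ[ℝ] E)
    (hT : ∀ x y, inner ℝ (T x) y = inner ℝ x (T y)) {e η ε : ℝ} (hη : 0 ≤ η) (hε : 2 * η < ε)
    (X : Submodule ℝ E) (hX : ∀ x ∈ X, inner ℝ (T x) x ≤ (e + η - ε) * ‖x‖ ^ 2)
    (g : E) (hg : g ≠ 0) (hr : ‖T g - e • g‖ ^ 2 ≤ η ^ 2 * ‖g‖ ^ 2) :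
    ∃ X' : Submodule ℝ E, Module.finrank ℝ X < Module.finrank ℝ X' ∧
      ∀ x ∈ X', inner ℝ (T x) x ≤ (e + η) * ‖x‖ ^ 2 := by
  have hε0 : 0 < ε := by linarith
  obtain ⟨r, hrdef⟩ : ∃ r, r = T g - e • g := ⟨_, rfl⟩
  rw [← hrdef] at hr
  have hTg : T g = r + e • g := by rw [hrdef]; abel
  have hgn : 0 < ‖g‖ := norm_pos_iff.2 hg
  have hrn : ‖r‖ ≤ η * ‖g‖ := by
    rw [← mul_pow] at hr
    exact (pow_le_pow_iff_left₀ (norm_nonneg r) (by positivity) two_ne_zero).1 hr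
  have hrg : |inner ℝ r g| ≤ η * ‖g‖ ^ 2 := by
    refine (abs_real_inner_le_norm r g).trans ?_
    nlinarith
  have hgg : inner ℝ g g = ‖g‖ ^ 2 := real_inner_self_eq_norm_sq g
  have hgX : g ∉ X := by
    intro h
    have h1 := hX g h
    rw [hTg, inner_add_left, real_inner_smul_left, hgg] at h1
    have h2 := (abs_le.1 hrg).1
    have h3 : (ε - 2 * η) * ‖g‖ ^ 2 ≤ 0 := by nlinarith
    have h4 : 0 < (ε - 2 * η) * ‖g‖ ^ 2 := by
      have : 0 < ε - 2 * η := by linarith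
      positivity
    linarith
  refine ⟨X ⊔ Submodule.span ℝ {g}, ?_, ?_⟩
  · apply Submodule.finrank_lt_finrank_of_lt
    refine lt_of_le_of_ne le_sup_left ?_
    intro h
    apply hgX
    rw [h]
    exact Submodule.mem_sup_right (Submodule.mem_span_singleton_self g)
  · intro f hf
    obtain ⟨x, hx, y, hy, rfl⟩ := Submodule.mem_sup.1 hf
    obtain ⟨t, rfl⟩ := Submodule.mem_span_singleton.1 hy
    have h1 := hX x hx
    have hxg : inner ℝ x g = inner ℝ g x := real_inner_comm _ _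
    have hTxg : inner ℝ (T x) g = inner ℝ r x + e * inner ℝ g x := by
      rw [hT, hTg, inner_add_right, real_inner_smul_right, real_inner_comm, hxg]
    have hTgx : inner ℝ (T g) x = inner ℝ r x + e * inner ℝ g x := by
      rw [hTg, inner_add_left, real_inner_smul_left]
    have hTgg : inner ℝ (T g) g = inner ℝ r g + e * ‖g‖ ^ 2 := by
      rw [hTg, inner_add_left, real_inner_smul_left, hgg]
    have hL : inner ℝ (T (x + t • g)) (x + t • g) =
        inner ℝ (T x) x + 2 * t * (inner ℝ r x + e * inner ℝ g x) +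
          t ^ 2 * (inner ℝ r g + e * ‖g‖ ^ 2) := by
      rw [map_add, map_smul, inner_add_left, inner_add_right, inner_add_right,
        real_inner_smul_left, real_inner_smul_left, real_inner_smul_right, real_inner_smul_right,
        hTxg, hTgx, hTgg]
      ring
    have hN : ‖x + t • g‖ ^ 2 = ‖x‖ ^ 2 + 2 * t * inner ℝ g x + t ^ 2 * ‖g‖ ^ 2 := by
      rw [← real_inner_self_eq_norm_sq, inner_add_left, inner_add_right, inner_add_right,
        real_inner_smul_left, real_inner_smul_left, real_inner_smul_right, real_inner_smul_right,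
        hgg, real_inner_self_eq_norm_sq, hxg]
      ring
    have hsq : 0 ≤ ‖ε • x + t • (η • g - r)‖ ^ 2 := by positivity
    have hexp : ‖ε • x + t • (η • g - r)‖ ^ 2 = ε ^ 2 * ‖x‖ ^ 2 +
        2 * t * ε * (η * inner ℝ g x - inner ℝ r x) +
          t ^ 2 * (η ^ 2 * ‖g‖ ^ 2 - 2 * η * inner ℝ r g + ‖r‖ ^ 2) := by
      have e1 : inner ℝ x r = inner ℝ r x := real_inner_comm _ _
      have e2 : inner ℝ g r = inner ℝ r g := real_inner_comm _ _
      rw [norm_add_sq_real, norm_smul, norm_smul, mul_pow, mul_pow, norm_sub_sq_real, norm_smul,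
        mul_pow, real_inner_smul_left, real_inner_smul_left, real_inner_smul_right,
        inner_sub_right, real_inner_smul_right, hxg, e1, e2]
      simp only [Real.norm_eq_abs, sq_abs]
      ring
    have hc : 0 ≤ η * ‖g‖ ^ 2 - inner ℝ r g := by linarith [(abs_le.1 hrg).2]
    have hw : η ^ 2 * ‖g‖ ^ 2 - 2 * η * inner ℝ r g + ‖r‖ ^ 2 ≤
        ε * (η * ‖g‖ ^ 2 - inner ℝ r g) := by
      nlinarith
    have ht2 : 0 ≤ t ^ 2 := sq_nonneg t
    have hfin : 0 ≤ ε * (ε * ‖x‖ ^ 2 + 2 * t * (η * inner ℝ g x - inner ℝ r x) +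
        t ^ 2 * (η * ‖g‖ ^ 2 - inner ℝ r g)) := by
      have := mul_le_mul_of_nonneg_left hw ht2
      nlinarith
    have hfin' := nonneg_of_mul_nonneg_right hfin hε0
    rw [hL, hN]
    nlinarith

end abs

/-- extension by zero -/
private noncomputable def Cnt_ext (a b : ℤ) (f : EuclideanSpace ℝ (Finset.Icc a b)) (n : ℤ) : ℝ :=
  if h : n ∈ Finset.Icc a b then f ⟨n, h⟩ else 0

private theorem Cnt_ext_coe (a b : ℤ) (f : EuclideanSpace ℝ (Finset.Icc a b))
    (i : Finset.Icc a b) : Cnt_ext a b f i = f i := by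
  simp [Cnt_ext]

private theorem Cnt_ext_out (a b : ℤ) (f : EuclideanSpace ℝ (Finset.Icc a b)) (n : ℤ)
    (h : n ∉ Finset.Icc a b) : Cnt_ext a b f n = 0 := by
  simp only [Cnt_ext, dif_neg h]

private theorem Cnt_ext_add (a b : ℤ) (f g : EuclideanSpace ℝ (Finset.Icc a b)) (n : ℤ) :
    Cnt_ext a b (f + g) n = Cnt_ext a b f n + Cnt_ext a b g n := by
  unfold Cnt_ext
  split_ifs <;> simp

private theorem Cnt_ext_smul (a b : ℤ) (c : ℝ) (f : EuclideanSpace ℝ (Finset.Icc a b)) (n : ℤ) :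
    Cnt_ext a b (c • f) n = c * Cnt_ext a b f n := by
  unfold Cnt_ext
  split_ifs <;> simp

/-- the operator on `[a, b]` -/
private noncomputable def Cnt_T (a b : ℤ) (V : ℤ → ℝ) :
    EuclideanSpace ℝ (Finset.Icc a b) →ₗ[ℝ] EuclideanSpace ℝ (Finset.Icc a b) where
  toFun f := WithLp.toLp 2 fun i =>
    Cnt_ext a b f (i + 1) + Cnt_ext a b f (i - 1) + V i * Cnt_ext a b f i
  map_add' f g := by
    ext i
    simp only [Cnt_ext_add, PiLp.add_apply]
    ring
  map_smul' c f := by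
    ext i
    simp only [Cnt_ext_smul, PiLp.smul_apply, RingHom.id_apply, smul_eq_mul]
    ring

private theorem Cnt_T_apply (a b : ℤ) (V : ℤ → ℝ) (f : EuclideanSpace ℝ (Finset.Icc a b))
    (i : Finset.Icc a b) : Cnt_T a b V f i =
      Cnt_ext a b f (i + 1) + Cnt_ext a b f (i - 1) + V i * Cnt_ext a b f i := rfl

private theorem Cnt_inner (a b : ℤ) (f g : EuclideanSpace ℝ (Finset.Icc a b)) :
    inner ℝ f g = ∑ n ∈ Finset.Icc a b, Cnt_ext a b f n * Cnt_ext a b g n := by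
  rw [PiLp.inner_apply, ← Finset.sum_coe_sort (Finset.Icc a b)
    (fun n => Cnt_ext a b f n * Cnt_ext a b g n)]
  refine Finset.sum_congr rfl fun i _ => ?_
  rw [Cnt_ext_coe, Cnt_ext_coe]
  simp [mul_comm]

private theorem Cnt_ext_T (a b : ℤ) (V : ℤ → ℝ) (f : EuclideanSpace ℝ (Finset.Icc a b)) (n : ℤ)
    (h : n ∈ Finset.Icc a b) : Cnt_ext a b (Cnt_T a b V f) n =
      Cnt_ext a b f (n + 1) + Cnt_ext a b f (n - 1) + V n * Cnt_ext a b f n := by
  have h1 := Cnt_ext_coe a b (Cnt_T a b V f) ⟨n, h⟩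
  rw [Cnt_T_apply] at h1
  exact h1

private theorem Cnt_shift (a b : ℤ) (F G : ℤ → ℝ) (hF : ∀ n, n ∉ Finset.Icc a b → F n = 0)
    (hG : ∀ n, n ∉ Finset.Icc a b → G n = 0) :
    ∑ n ∈ Finset.Icc a b, F (n + 1) * G n = ∑ n ∈ Finset.Icc a b, F n * G (n - 1) := by
  have h1 : ∑ n ∈ Finset.Icc a b, F (n + 1) * G n =
      ∑ n ∈ Finset.Icc (a + 1) (b + 1), F n * G (n - 1) := by
    refine Finset.sum_bij' (fun n _ => n + 1) (fun n _ => n - 1) ?_ ?_ ?_ ?_ ?_
    · intro n hn; rw [Finset.mem_Icc] at hn ⊢; omega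
    · intro n hn; rw [Finset.mem_Icc] at hn ⊢; omega
    · intro n _; ring
    · intro n _; ring
    · intro n _; simp
  rw [h1]
  have h2 : ∑ n ∈ Finset.Icc (a + 1) (b + 1), F n * G (n - 1) =
      ∑ n ∈ Finset.Icc a (b + 1), F n * G (n - 1) := by
    refine Finset.sum_subset ?_ ?_
    · intro n hn; rw [Finset.mem_Icc] at hn ⊢; omega
    · intro n hn hn'
      rw [hG (n - 1), mul_zero]
      rw [Finset.mem_Icc] at hn hn' ⊢; omega
  have h3 : ∑ n ∈ Finset.Icc a b, F n * G (n - 1) =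
      ∑ n ∈ Finset.Icc a (b + 1), F n * G (n - 1) := by
    refine Finset.sum_subset ?_ ?_
    · intro n hn; rw [Finset.mem_Icc] at hn ⊢; omega
    · intro n hn hn'
      rw [hF n, zero_mul]
      exact hn'
  rw [h2, h3]

private theorem Cnt_symm (a b : ℤ) (V : ℤ → ℝ) (f g : EuclideanSpace ℝ (Finset.Icc a b)) :
    inner ℝ (Cnt_T a b V f) g = inner ℝ f (Cnt_T a b V g) := by
  rw [Cnt_inner, Cnt_inner]
  have hf := Cnt_ext_out a b f
  have hg := Cnt_ext_out a b g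
  have e1 : ∑ n ∈ Finset.Icc a b, Cnt_ext a b (Cnt_T a b V f) n * Cnt_ext a b g n =
      ∑ n ∈ Finset.Icc a b, Cnt_ext a b f (n + 1) * Cnt_ext a b g n +
      ∑ n ∈ Finset.Icc a b, Cnt_ext a b f (n - 1) * Cnt_ext a b g n +
      ∑ n ∈ Finset.Icc a b, V n * Cnt_ext a b f n * Cnt_ext a b g n := by
    rw [← Finset.sum_add_distrib, ← Finset.sum_add_distrib]
    refine Finset.sum_congr rfl fun n hn => ?_
    rw [Cnt_ext_T a b V f n hn]
    ring
  have e2 : ∑ n ∈ Finset.Icc a b, Cnt_ext a b f n * Cnt_ext a b (Cnt_T a b V g) n =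
      ∑ n ∈ Finset.Icc a b, Cnt_ext a b f n * Cnt_ext a b g (n - 1) +
      ∑ n ∈ Finset.Icc a b, Cnt_ext a b f n * Cnt_ext a b g (n + 1) +
      ∑ n ∈ Finset.Icc a b, V n * Cnt_ext a b f n * Cnt_ext a b g n := by
    rw [← Finset.sum_add_distrib, ← Finset.sum_add_distrib]
    refine Finset.sum_congr rfl fun n hn => ?_
    rw [Cnt_ext_T a b V g n hn]
    ring
  rw [e1, e2, Cnt_shift a b _ _ hf hg]
  have e3 := Cnt_shift a b _ _ hg hf
  have e4 : ∑ n ∈ Finset.Icc a b, Cnt_ext a b f (n - 1) * Cnt_ext a b g n =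
      ∑ n ∈ Finset.Icc a b, Cnt_ext a b f n * Cnt_ext a b g (n + 1) := by
    rw [Finset.sum_congr rfl fun n _ => mul_comm (Cnt_ext a b f (n - 1)) (Cnt_ext a b g n),
      ← e3]
    exact Finset.sum_congr rfl fun n _ => mul_comm _ _
  rw [e4]

private theorem Cnt_norm (a b : ℤ) (f : EuclideanSpace ℝ (Finset.Icc a b)) :
    ‖f‖ ^ 2 = ∑ n ∈ Finset.Icc a b, Cnt_ext a b f n ^ 2 := by
  rw [← real_inner_self_eq_norm_sq, Cnt_inner]
  exact Finset.sum_congr rfl fun n _ => (sq _).symm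

theorem exists_cnt {a b : ℤ} (hab : a ≤ b) {e η ε : ℝ} (hη : 0 ≤ η) (hε : 2 * η < ε) :
    ∃ cnt : (ℤ → ℝ) → ℕ, (∀ V, cnt V ≤ (b + 1 - a).toNat) ∧
      ∀ V V' : ℤ → ℝ, (∀ n, a ≤ n → n ≤ b → V' n + ε ≤ V n) → Appr V a b e η →
        Appr V' a b e η → cnt V < cnt V' := by
  classical
  have hfr : Module.finrank ℝ (EuclideanSpace ℝ (Finset.Icc a b)) = (b + 1 - a).toNat := by
    rw [finrank_euclideanSpace, Fintype.card_coe, Int.card_Icc]
  let S : (ℤ → ℝ) → Set ℕ := fun V => {d | ∃ X : Submodule ℝ (EuclideanSpace ℝ (Finset.Icc a b)),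
    Module.finrank ℝ X = d ∧ ∀ f ∈ X, inner ℝ (Cnt_T a b V f) f ≤ (e + η) * ‖f‖ ^ 2}
  have hSne : ∀ V, (S V).Nonempty := by
    intro V
    refine ⟨_, ⊥, rfl, ?_⟩
    intro f hf
    rw [Submodule.mem_bot] at hf
    subst hf
    simp
  have hSle : ∀ V, ∀ d ∈ S V, d ≤ (b + 1 - a).toNat := by
    rintro V d ⟨X, rfl, -⟩
    rw [← hfr]
    exact Submodule.finrank_le X
  have hSbdd : ∀ V, BddAbove (S V) := fun V => ⟨_, hSle V⟩
  refine ⟨fun V => sSup (S V), fun V => hSle V _ (Nat.sSup_mem (hSne V) (hSbdd V)), ?_⟩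
  intro V V' hVV' _ hA
  obtain ⟨X, hXd, hX⟩ := Nat.sSup_mem (hSne V) (hSbdd V)
  obtain ⟨F, hF0, ⟨m, hm⟩, hF⟩ := hA
  let g : EuclideanSpace ℝ (Finset.Icc a b) := WithLp.toLp 2 fun i => F i
  have hext : ∀ n, Cnt_ext a b g n = F n := by
    intro n
    by_cases h : n ∈ Finset.Icc a b
    · exact Cnt_ext_coe a b g ⟨n, h⟩
    · rw [Cnt_ext_out a b g n h, hF0 n]
      rw [Finset.mem_Icc] at h
      omega
  have hg : g ≠ 0 := by
    intro h
    apply hm
    rw [← hext m, h]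
    unfold Cnt_ext
    split_ifs <;> simp
  have hr : ‖Cnt_T a b V' g - e • g‖ ^ 2 ≤ η ^ 2 * ‖g‖ ^ 2 := by
    have h1 : ‖Cnt_T a b V' g - e • g‖ ^ 2 = ∑ n ∈ Finset.Icc a b, res V' e F n ^ 2 := by
      rw [Cnt_norm]
      refine Finset.sum_congr rfl fun n hn => ?_
      congr 1
      have h2 : Cnt_T a b V' g - e • g = Cnt_T a b V' g + (-e) • g := by
        rw [neg_smul, sub_eq_add_neg]
      rw [h2, Cnt_ext_add, Cnt_ext_smul, Cnt_ext_T a b V' g n hn]
      simp only [hext, res]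
      ring
    have h2 : ‖g‖ ^ 2 = ∑ n ∈ Finset.Icc a b, F n ^ 2 := by
      rw [Cnt_norm]
      simp only [hext]
    rw [h1, h2]
    exact hF
  have hX' : ∀ x ∈ X, inner ℝ (Cnt_T a b V' x) x ≤ (e + η - ε) * ‖x‖ ^ 2 := by
    intro x hx
    have h1 := hX x hx
    have h2 : inner ℝ (Cnt_T a b V' x) x ≤ inner ℝ (Cnt_T a b V x) x - ε * ‖x‖ ^ 2 := by
      rw [Cnt_inner, Cnt_inner, Cnt_norm, Finset.mul_sum, ← Finset.sum_sub_distrib]
      refine Finset.sum_le_sum fun n hn => ?_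
      rw [Cnt_ext_T a b V' x n hn, Cnt_ext_T a b V x n hn]
      rw [Finset.mem_Icc] at hn
      have h3 := hVV' n hn.1 hn.2
      nlinarith [sq_nonneg (Cnt_ext a b x n)]
    linarith
  obtain ⟨X', hlt, hX''⟩ := Cnt_abs (Cnt_T a b V') (Cnt_symm a b V') hη hε X hX' g hg hr
  have h1 : Module.finrank ℝ X' ≤ sSup (S V') := le_csSup (hSbdd V') ⟨X', rfl, hX''⟩
  change sSup (S V) < sSup (S V')
  rw [← hXd]
  exact lt_of_lt_of_le hlt h1

end Pool.Agent.MP31f1e8.AL
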