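import Pool.Agent.Lib.MP_31f1e8_mp.AL.CompA

/-!
# AL: completeness, from finite volume to `ℤ`

JOB AL-Comp. Take `J0`, `K` and, for each large `J1`, `u^{J1}`, `E^{J1}` from `fin_family`
(`0` for small `J1`). All the values are bounded (`|u| ≤ 1`, `|E| ≤ M + 2`). Take limits along a
nontrivial ultrafilter on `ℕ` (`Filter.hyperfilter ℕ`; a bounded real function has a limit along an
ultrafilter, `isCompact_Icc.ultrafilter_le_nhds` applied to the mapped ultrafilter), for each `l`,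
`n`. The limits `u l n`, `E l` satisfy
`|u l n| ≤ ρ ^ (hat n - 2 ^ (J0 + 5)) ≤ ρ ^ (-2 ^ (J0 + 5)) ρ ^ (hat n)`, the equation at every `n`
(it holds for all large `J1`), and the inequality for every finite set of sites.
-/

namespace Pool.Agent.MP31f1e8.AL

open Finset

theorem complete_seq {V : ℤ → ℝ} {M ρ : ℝ} (hM : ∀ n, |V n| ≤ M) (hρ : 0 < ρ) (hρ' : ρ ≤ 1 / 10)
    (hloc : ∀ J1 ≥ 1, ∀ (e : ℝ) (ψ : ℤ → ℝ),
      EigF V (-2 ^ (J1 + 5)) (2 ^ (J1 + 5) - 1) e ψ → (∀ n, |ψ n| ≤ 1) →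
      ∃ J ≤ J1, (∀ n, |ψ n| ≤ ρ ^ (hat n - 2 ^ (J + 5))) ∧
        (1 ≤ J → ∀ n, hat n ≤ 8 * 2 ^ J → |ψ n| ≤ (1 / 4) ^ (2 ^ J)))
    (m : ℤ) {ε : ℝ} (hε : 0 < ε) :
    ∃ (K : ℕ) (u : Fin K → ℤ → ℝ) (E : Fin K → ℝ) (C : ℝ),
      (∀ l n, u l (n + 1) + u l (n - 1) + V n * u l n = E l * u l n) ∧
      (∀ l n, |u l n| ≤ C * ρ ^ hat n) ∧
      ∀ F : Finset ℤ, ∑ n ∈ F, ((if n = m then 1 else 0) - ∑ l, u l m * u l n) ^ 2 ≤ ε ^ 2 := by
  obtain ⟨J0, K, hfam⟩ := fin_family hM hρ hρ' hloc m hε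
  have hpow : ∀ J : ℕ, J < 2 ^ J := fun J => Nat.lt_two_pow_self
  have h : ∀ J : ℕ, ∃ (u : Fin K → ℤ → ℝ) (E : Fin K → ℝ),
      (∀ l, EigF V (-2 ^ (J + (hat m + 1) + 5)) (2 ^ (J + (hat m + 1) + 5) - 1) (E l) (u l)) ∧
      (∀ l, |E l| ≤ M + 2) ∧ (∀ l n, |u l n| ≤ ρ ^ (hat n - 2 ^ (J0 + 5))) ∧
      ∀ F : Finset ℤ, ∑ n ∈ F, ((if n = m then 1 else 0) - ∑ l, u l m * u l n) ^ 2 ≤ ε ^ 2 := by
    intro J
    refine hfam (J + (hat m + 1)) (by omega) ?_
    have := hpow (J + (hat m + 1) + 5)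
    omega
  choose u E h1 h2 h3 h4 using h
  have hρ1 : ρ ≤ 1 := hρ'.trans (by norm_num)
  have ulim : ∀ (x : ℕ → ℝ) (C : ℝ), (∀ i, |x i| ≤ C) →
      ∃ L, Filter.Tendsto x (Filter.hyperfilter ℕ : Filter ℕ) (nhds L) := by
    intro x C hx
    have hle : ((Filter.hyperfilter ℕ).map x : Filter ℝ) ≤ Filter.principal (Set.Icc (-C) C) := by
      rw [Filter.le_principal_iff, Ultrafilter.coe_map, Filter.mem_map]
      refine Filter.mem_of_superset Filter.univ_mem fun i _ => ?_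
      exact abs_le.mp (hx i)
    obtain ⟨L, -, hL⟩ := isCompact_Icc.ultrafilter_le_nhds _ hle
    exact ⟨L, hL⟩
  have hU0 : ∀ l n, ∃ L, Filter.Tendsto (fun J => u J l n) (Filter.hyperfilter ℕ : Filter ℕ) (nhds L) :=
    fun l n => ulim _ 1 fun J => (h3 J l n).trans (pow_le_one₀ hρ.le hρ1)
  have hE0 : ∀ l, ∃ L, Filter.Tendsto (fun J => E J l) (Filter.hyperfilter ℕ : Filter ℕ) (nhds L) :=
    fun l => ulim _ (M + 2) fun J => h2 J l
  choose U hU using hU0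
  choose EE hEE using hE0
  have hev : ∀ N : ℕ, ∀ᶠ J in (Filter.hyperfilter ℕ : Filter ℕ), N ≤ J := by
    intro N
    refine Filter.Eventually.filter_mono (Filter.hyperfilter_le_cofinite) ?_
    rw [Nat.cofinite_eq_atTop]
    exact Filter.eventually_ge_atTop N
  refine ⟨K, U, EE, (ρ⁻¹) ^ (2 ^ (J0 + 5)), ?_, ?_, ?_⟩
  · intro l n
    have t1 : Filter.Tendsto (fun J => u J l (n + 1) + u J l (n - 1) + V n * u J l n)
        (Filter.hyperfilter ℕ : Filter ℕ) (nhds (U l (n + 1) + U l (n - 1) + V n * U l n)) :=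
      ((hU l (n + 1)).add (hU l (n - 1))).add ((hU l n).const_mul (V n))
    have t2 : Filter.Tendsto (fun J => E J l * u J l n)
        (Filter.hyperfilter ℕ : Filter ℕ) (nhds (EE l * U l n)) := (hEE l).mul (hU l n)
    refine tendsto_nhds_unique (t1.congr' ?_) t2
    filter_upwards [hev n.natAbs] with J hJ
    have hb : (n.natAbs : ℤ) < 2 ^ (J + (hat m + 1) + 5) := by
      have := hpow (J + (hat m + 1) + 5)
      have h5 : n.natAbs < 2 ^ (J + (hat m + 1) + 5) := by omega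
      exact_mod_cast h5
    refine (h1 J l).2 n ?_ ?_
    · omega
    · omega
  · intro l n
    have t1 := (hU l n).abs
    have h5 : |U l n| ≤ ρ ^ (hat n - 2 ^ (J0 + 5)) :=
      le_of_tendsto t1 (Filter.Eventually.of_forall fun J => h3 J l n)
    refine h5.trans ?_
    have hb : (0 : ℝ) < ρ ^ (2 ^ (J0 + 5)) := pow_pos hρ _
    rw [inv_pow, inv_mul_eq_div, le_div_iff₀ hb, ← pow_add]
    exact pow_le_pow_of_le_one hρ.le hρ1 (by omega)
  · intro F
    have t1 : Filter.Tendsto (fun J => ∑ n ∈ F, ((if n = m then (1 : ℝ) else 0) - ∑ l, u J l m * u J l n) ^ 2)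
        (Filter.hyperfilter ℕ : Filter ℕ)
        (nhds (∑ n ∈ F, ((if n = m then (1 : ℝ) else 0) - ∑ l, U l m * U l n) ^ 2)) := by
      refine tendsto_finsetSum _ fun n _ => ?_
      refine Filter.Tendsto.pow ?_ 2
      refine Filter.Tendsto.sub tendsto_const_nhds ?_
      exact tendsto_finsetSum _ fun l _ => (hU l m).mul (hU l n)
    exact le_of_tendsto t1 (Filter.Eventually.of_forall fun J => h4 J F)

end Pool.Agent.MP31f1e8.AL
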