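import Pool.Agent.Lib.MP_31f1e8_mp.AL.Defs

/-!
# AL: the types of the sites

JOB AL-Ty. Elementary facts on `hat`, `typ` and the blocks `[bp j i, bq j i]`.

* for `n ≥ 0`, `hat n = n.toNat`; for `n < 0`, `hat n = (-1 - n).toNat`; `hat (-1 - n) = hat n`;
* `typ n ≤ 16`: for `hat n ≥ 32` put `k = Nat.log 2 (hat n) ≥ 5`, `2 ^ k ≤ hat n < 2 ^ (k + 1)`, so
  `hat n / 2 ^ (k - 4) ∈ [16, 32)`;
* block `(j, i)`: `hat n ∈ [(16 + i) 2 ^ j, (17 + i) 2 ^ j)` has `Nat.log 2 (hat n) = j + 4` and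
  quotient `16 + i`;
* between `bi j i = (17 + i) 2 ^ (j - 1) - 1` and `bp j i = (16 + i) 2 ^ j` the type is not `i`: if
  `hat n < 2 ^ (j + 4)` then either `hat n < 32` (type `16`) or `Nat.log 2 (hat n) = j + 3` and the
  quotient by `2 ^ (j - 1)` is `≥ 17 + i`; otherwise the log is `j + 4` and the quotient by `2 ^ j`
  is `< 16 + i`. Between `bq j i` and `2 * bp j i = bp (j + 1) i`: the same for `j + 1`.
-/

namespace Pool.Agent.MP31f1e8.AL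

theorem hat_of_nonneg {n : ℤ} (h : 0 ≤ n) : (hat n : ℤ) = n := by
  unfold hat; rw [if_pos h]; exact Int.toNat_of_nonneg h

theorem hat_of_neg {n : ℤ} (h : n < 0) : (hat n : ℤ) = -1 - n := by
  unfold hat; rw [if_neg (by omega)]; exact Int.toNat_of_nonneg (by omega)

theorem hat_rf (n : ℤ) : hat (-1 - n) = hat n := by
  unfold hat; split_ifs <;> omega

theorem hat_le_iff {n X : ℤ} : (hat n : ℤ) ≤ X ↔ -1 - X ≤ n ∧ n ≤ X := by
  unfold hat; split_ifs <;> omega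

theorem hat_succ_le (n : ℤ) : hat (n + 1) ≤ hat n + 1 ∧ hat n ≤ hat (n + 1) + 1 := by
  unfold hat; split_ifs <;> omega

theorem typ_rf (n : ℤ) : typ (-1 - n) = typ n := by
  unfold typ; rw [hat_rf]

private theorem ty_small {n : ℤ} (h : hat n < 32) : typ n = 16 := by
  unfold typ; rw [if_pos h]

private theorem ty_core {n : ℤ} (h : 32 ≤ hat n) : ∃ j q : ℕ, 1 ≤ j ∧ q < 16 ∧ (16 + q) * 2 ^ j ≤ hat n ∧
    hat n < (17 + q) * 2 ^ j ∧ typ n = q := by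
  have h0 : hat n ≠ 0 := by omega
  have k1 : 2 ^ Nat.log 2 (hat n) ≤ hat n := Nat.pow_log_le_self 2 h0
  have k2 : hat n < 2 ^ (Nat.log 2 (hat n) + 1) := Nat.lt_pow_succ_log_self (by norm_num) _
  have k3 : 5 ≤ Nat.log 2 (hat n) := by
    by_contra hcon
    have : 2 ^ (Nat.log 2 (hat n) + 1) ≤ 2 ^ 5 := Nat.pow_le_pow_right (by norm_num) (by omega)
    omega
  obtain ⟨j, hj⟩ : ∃ j, Nat.log 2 (hat n) = j + 4 := ⟨Nat.log 2 (hat n) - 4, by omega⟩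
  have ht : typ n = hat n / 2 ^ j - 16 := by
    unfold typ; rw [if_neg (by omega), hj]; simp
  rw [hj] at k1 k2 k3
  have hL : 0 < 2 ^ j := by positivity
  have e1 : 2 ^ (j + 4) = 16 * 2 ^ j := by rw [pow_add]; ring
  have e2 : 2 ^ (j + 4 + 1) = 32 * 2 ^ j := by rw [pow_add, pow_add]; ring
  rw [e1] at k1
  rw [e2] at k2
  have q1 : 16 ≤ hat n / 2 ^ j := (Nat.le_div_iff_mul_le hL).2 k1
  have q2 : hat n / 2 ^ j < 32 := (Nat.div_lt_iff_lt_mul hL).2 k2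
  have q3 : (hat n / 2 ^ j) * 2 ^ j ≤ hat n := Nat.div_mul_le_self _ _
  have q4 : hat n < (hat n / 2 ^ j + 1) * 2 ^ j := by
    have := Nat.lt_div_mul_add hL (a := hat n)
    rw [add_mul, one_mul]; exact this
  refine ⟨j, hat n / 2 ^ j - 16, by omega, by omega, ?_, ?_, ht⟩
  · rw [show 16 + (hat n / 2 ^ j - 16) = hat n / 2 ^ j by omega]; exact q3
  · rw [show 17 + (hat n / 2 ^ j - 16) = hat n / 2 ^ j + 1 by omega]; exact q4

private theorem ty_unique {n : ℤ} {j q : ℕ} (hj : 1 ≤ j) (hq : q < 16) (h1 : (16 + q) * 2 ^ j ≤ hat n)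
    (h2 : hat n < (17 + q) * 2 ^ j) : typ n = q := by
  have hL : 2 ≤ 2 ^ j := by
    calc 2 = 2 ^ 1 := by norm_num
      _ ≤ 2 ^ j := Nat.pow_le_pow_right (by norm_num) hj
  have h32 : 32 ≤ hat n := by nlinarith
  obtain ⟨J, Q, hJ, hQ, g1, g2, g3⟩ := ty_core h32
  have hJj : J = j := by
    rcases lt_trichotomy J j with h | h | h
    · exfalso
      have : 2 ^ (J + 1) ≤ 2 ^ j := Nat.pow_le_pow_right (by norm_num) h
      rw [pow_succ] at this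
      have : (17 + Q) * 2 ^ J ≤ 32 * 2 ^ J := Nat.mul_le_mul_right _ (by omega)
      have : 16 * 2 ^ j ≤ (16 + q) * 2 ^ j := Nat.mul_le_mul_right _ (by omega)
      omega
    · exact h
    · exfalso
      have : 2 ^ (j + 1) ≤ 2 ^ J := Nat.pow_le_pow_right (by norm_num) h
      rw [pow_succ] at this
      have : (17 + q) * 2 ^ j ≤ 32 * 2 ^ j := Nat.mul_le_mul_right _ (by omega)
      have : 16 * 2 ^ J ≤ (16 + Q) * 2 ^ J := Nat.mul_le_mul_right _ (by omega)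
      omega
  subst hJj
  have a : 16 + Q < 17 + q := lt_of_mul_lt_mul_right (lt_of_le_of_lt g1 h2) (Nat.zero_le _)
  have b : 16 + q < 17 + Q := lt_of_mul_lt_mul_right (lt_of_le_of_lt h1 g2) (Nat.zero_le _)
  omega

private theorem ty_bp (j i : ℕ) : bp j i = (((16 + i) * 2 ^ j : ℕ) : ℤ) := by
  unfold bp; push_cast; ring

private theorem ty_bq (j i : ℕ) : bq j i = (((17 + i) * 2 ^ j : ℕ) : ℤ) - 1 := by
  unfold bq bp; push_cast; ring

private theorem ty_bi (j i : ℕ) : bi j i = (((17 + i) * 2 ^ (j - 1) : ℕ) : ℤ) - 1 := by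
  unfold bi; push_cast; ring

theorem typ_le (n : ℤ) : typ n ≤ 16 := by
  by_cases h : hat n < 32
  · rw [ty_small h]
  · obtain ⟨j, q, _, hq, _, _, h3⟩ := ty_core (not_lt.1 h)
    omega

theorem typ_block {j i : ℕ} (hj : 1 ≤ j) (hi : i < 16) {n : ℤ} (h1 : bp j i ≤ hat n)
    (h2 : (hat n : ℤ) ≤ bq j i) : typ n = i := by
  rw [ty_bp] at h1
  rw [ty_bq] at h2
  exact ty_unique hj hi (by omega) (by omega)

theorem typ_inner {j i : ℕ} (hj : 1 ≤ j) (hi : i < 16) {n : ℤ} (h1 : bi j i < hat n)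
    (h2 : (hat n : ℤ) < bp j i) : typ n ≠ i := by
  rw [ty_bi] at h1
  rw [ty_bp] at h2
  have h1' : (17 + i) * 2 ^ (j - 1) ≤ hat n := by omega
  have h2' : hat n < (16 + i) * 2 ^ j := by omega
  intro ht
  by_cases h32 : hat n < 32
  · rw [ty_small h32] at ht; omega
  obtain ⟨J, Q, hJ, hQ, g1, g2, g3⟩ := ty_core (not_lt.1 h32)
  obtain rfl : Q = i := by omega
  have hJj : J < j := by
    have := lt_of_mul_lt_mul_left (lt_of_le_of_lt g1 h2') (Nat.zero_le _)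
    exact (Nat.pow_lt_pow_iff_right (by norm_num)).1 this
  have : (17 + Q) * 2 ^ J ≤ (17 + Q) * 2 ^ (j - 1) :=
    Nat.mul_le_mul_left _ (Nat.pow_le_pow_right (by norm_num) (by omega))
  omega

theorem typ_outer {j i : ℕ} (hj : 1 ≤ j) (hi : i < 16) {n : ℤ} (h1 : bq j i < hat n)
    (h2 : (hat n : ℤ) < 2 * bp j i) : typ n ≠ i := by
  rw [ty_bq] at h1
  rw [ty_bp] at h2
  have h1' : (17 + i) * 2 ^ j ≤ hat n := by omega
  have h2' : hat n < (16 + i) * 2 ^ (j + 1) := by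
    have : (16 + i) * 2 ^ (j + 1) = 2 * ((16 + i) * 2 ^ j) := by rw [pow_succ]; ring
    omega
  intro ht
  by_cases h32 : hat n < 32
  · rw [ty_small h32] at ht; omega
  obtain ⟨J, Q, hJ, hQ, g1, g2, g3⟩ := ty_core (not_lt.1 h32)
  obtain rfl : Q = i := by omega
  have hJj : J < j + 1 := by
    have := lt_of_mul_lt_mul_left (lt_of_le_of_lt g1 h2') (Nat.zero_le _)
    exact (Nat.pow_lt_pow_iff_right (by norm_num)).1 this
  have : (17 + Q) * 2 ^ J ≤ (17 + Q) * 2 ^ j :=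
    Nat.mul_le_mul_left _ (Nat.pow_le_pow_right (by norm_num) (by omega))
  omega

theorem typ_shell {i : ℕ} {n : ℤ} (h : 32 ≤ hat n) (hi : typ n = i) :
    i < 16 ∧ ∃ j ≥ 1, bp j i ≤ hat n ∧ (hat n : ℤ) ≤ bq j i ∧ 2 ^ (j + 4) ≤ hat n ∧
      hat n < 2 ^ (j + 5) := by
  obtain ⟨J, Q, hJ, hQ, g1, g2, g3⟩ := ty_core h
  obtain rfl : Q = i := by omega
  refine ⟨hQ, J, hJ, ?_, ?_, ?_, ?_⟩
  · rw [ty_bp]; omega
  · rw [ty_bq]; omega
  · have : 16 * 2 ^ J ≤ (16 + Q) * 2 ^ J := Nat.mul_le_mul_right _ (by omega)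
    rw [show 2 ^ (J + 4) = 16 * 2 ^ J by rw [pow_add]; ring]; omega
  · have : (17 + Q) * 2 ^ J ≤ 32 * 2 ^ J := Nat.mul_le_mul_right _ (by omega)
    rw [show 2 ^ (J + 5) = 32 * 2 ^ J by rw [pow_add]; ring]; omega

/-- order of the sites of a block -/
theorem block_facts {j i : ℕ} (hj : 1 ≤ j) (hi : i < 16) (s : Bool) :
    2 ^ j ≤ bq j i + 1 - bp j i ∧ bq j i + 1 - bp j i ≤ 2 ^ j ∧
    0 ≤ bi j i ∧ 8 * 2 ^ j ≤ bi j i ∧ bi j i + pad j < bp j i - pad j ∧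
    bi j i + pad j + 4 * 2 ^ j < bp j i ∧
    bq j i ≤ outer j i s ∧ outer j i s ≤ bq j i + pad j ∧ outer j i s < 2 * bp j i ∧
    bq j i + 2 ^ j < 2 ^ (j + 6) ∧ outer j i s + 29 * 2 ^ j ≤ 2 ^ (j + 6) ∧
    32 ≤ bp j i ∧ bq j i < 2 ^ (j + 5) ∧ 2 ^ (j + 4) ≤ bp j i := by
  obtain ⟨k, rfl⟩ : ∃ k, j = k + 1 := ⟨j - 1, by omega⟩
  have hM : (1 : ℤ) ≤ 2 ^ k := by exact_mod_cast Nat.one_le_two_pow
  have hi0 : (0 : ℤ) ≤ (i : ℤ) := Int.natCast_nonneg i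
  have hi1 : (i : ℤ) ≤ 15 := by omega
  have e1 : (2 : ℤ) ^ (k + 1) = 2 * 2 ^ k := by rw [pow_succ]; ring
  have e5 : (2 : ℤ) ^ (k + 1 + 5) = 64 * 2 ^ k := by rw [pow_add, pow_add]; ring
  have e6 : (2 : ℤ) ^ (k + 1 + 6) = 128 * 2 ^ k := by rw [pow_add, pow_add]; ring
  have e4 : (2 : ℤ) ^ (k + 1 + 4) = 32 * 2 ^ k := by rw [pow_add, pow_add]; ring
  have hP : 0 ≤ (i : ℤ) * 2 ^ k := by positivity
  have hP2 : (i : ℤ) * 2 ^ k ≤ 15 * 2 ^ k := mul_le_mul_of_nonneg_right hi1 (by positivity)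
  have f1 : bp (k + 1) i = 32 * 2 ^ k + 2 * ((i : ℤ) * 2 ^ k) := by unfold bp; rw [e1]; ring
  have f2 : bq (k + 1) i = 34 * 2 ^ k + 2 * ((i : ℤ) * 2 ^ k) - 1 := by unfold bq; rw [f1, e1]; ring
  have f3 : bi (k + 1) i = 17 * 2 ^ k + (i : ℤ) * 2 ^ k - 1 := by
    unfold bi; rw [Nat.add_sub_cancel]; ring
  have f4 : pad (k + 1) = 6 * 2 ^ k := by unfold pad; rw [e1]; ring
  have f5 : bq (k + 1) i ≤ outer (k + 1) i s ∧ outer (k + 1) i s ≤ bq (k + 1) i + pad (k + 1) := by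
    unfold outer
    split_ifs
    · rw [f4]; constructor <;> omega
    · refine ⟨le_min ?_ ?_, min_le_left _ _⟩
      · rw [f4]; omega
      · rw [e5, f2]; omega
  obtain ⟨f5a, f5b⟩ := f5
  rw [f2] at f5a
  rw [f2, f4] at f5b
  rw [f1, f2, f3, f4, e1, e4, e5, e6]
  generalize (i : ℤ) * 2 ^ k = y at *
  generalize (2 : ℤ) ^ k = M at *
  generalize outer (k + 1) i s = o at *
  refine ⟨by omega, by omega, by omega, by omega, by omega, by omega, by omega, by omega, by omega, by omega, by omega,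
    by omega, by omega, by omega⟩

end Pool.Agent.MP31f1e8.AL
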