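import Pool.Agent.Lib.MP_31f1e8_mp.AL.Fw
import Pool.Agent.Lib.MP_31f1e8_mp.AL.Ty

/-!
# AL: a finite family in finite volume

JOB AL-CompA. For `J1 ≥ 1` let `a = -2 ^ (J1 + 5)`, `b = 2 ^ (J1 + 5) - 1`, `ψ l`, `e l` the
eigenbasis (`eig_basis`), and `J l ≤ J1` from `hloc` (`|ψ l n| ≤ 1` because `∑ ψ² = 1`).

(1) Number of `l` with `J l ≤ J`: each has `∑_{hat n ≤ 2 ^ (J + 5)} ψ l n ^ 2 ≥ 1 / 2` since the
rest is at most `2 ∑_{k ≥ 1} ρ ^ (2 k) ≤ 1 / 2` (`ρ ≤ 1 / 10`), and `∑_l ψ l n ^ 2 = 1`. So there are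
at most `4 (2 ^ (J + 5) + 1)` such `l` (`tail_mass`, `card_le`).

(2) Choose `J0 ≥ 1` with `hat m ≤ 8 * 2 ^ J0` and
`∑_{J > J0} 4 (2 ^ (J + 5) + 1) ((1 / 4) ^ (2 ^ J)) ^ 2 ≤ ε ^ 2` (for instance by
`4 (2 ^ (J + 5) + 1) (1 / 16) ^ (2 ^ J) ≤ 132 * (1 / 8) ^ J`, because `16 ^ (2 ^ J) ≥ 16 ^ J`). Let
`F = {l : J l ≤ J0}`. On `[a, b]`: `δ_m = ∑_l ψ l m • ψ l`, so
`∑_{n ∈ [a, b]} (δ_m n - ∑_{l ∈ F} ψ l m ψ l n) ^ 2 = ∑_{l ∉ F} ψ l m ^ 2 ≤ ε ^ 2`
(for `l ∉ F`, `|ψ l m| ≤ (1 / 4) ^ (2 ^ (J l))` as `hat m ≤ 8 * 2 ^ (J l)`; group by the value of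
`J l`).

(3) List `F` as `Fin K → ℤ → ℝ`, `K = 4 (2 ^ (J0 + 5) + 1)`, padded with the zero function (energy
`0`). Energies: `spec_near`. Outside of `[a, b]` all the terms of the last sum vanish
(`hat m < 2 ^ (J1 + 5)`).
-/

namespace Pool.Agent.MP31f1e8.AL

open Finset

private theorem compA_hat_sum (g : ℕ → ℝ) (X : ℕ) :
    ∑ n ∈ Icc (-(X : ℤ)) ((X : ℤ) - 1), g (hat n) = 2 * ∑ h ∈ range X, g h := by
  induction X with
  | zero => simp
  | succ X ih =>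
    have e : Icc (-((X + 1 : ℕ) : ℤ)) (((X + 1 : ℕ) : ℤ) - 1) =
        insert (-(X : ℤ) - 1) (insert (X : ℤ) (Icc (-(X : ℤ)) ((X : ℤ) - 1))) := by
      ext n
      simp only [mem_Icc, mem_insert]
      push_cast
      omega
    rw [e, sum_insert, sum_insert, ih, sum_range_succ]
    · have h1 : hat (-(X : ℤ) - 1) = X := by
        have : (hat (-(X : ℤ) - 1) : ℤ) = -1 - (-(X : ℤ) - 1) := hat_of_neg (by omega)
        omega
      have h2 : hat (X : ℤ) = X := by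
        have : (hat (X : ℤ) : ℤ) = (X : ℤ) := hat_of_nonneg (by omega)
        omega
      rw [h1, h2]
      ring
    · simp only [mem_Icc]
      omega
    · simp only [mem_Icc, mem_insert]
      omega

private theorem compA_geo {ρ : ℝ} (h0 : 0 < ρ) (h1 : ρ ≤ 1 / 10) (R X : ℕ) :
    ∑ h ∈ range X, (if R < h then (ρ ^ (h - R)) ^ 2 else 0) ≤ 1 / 4 - 1 / 4 * (1 / 4) ^ (X - R) := by
  induction X with
  | zero => simp
  | succ X ih =>
    rw [sum_range_succ]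
    by_cases h : R < X
    · rw [if_pos h]
      obtain ⟨s, hs, hX⟩ : ∃ s, 1 ≤ s ∧ X = R + s := ⟨X - R, by omega, by omega⟩
      subst hX
      have e1 : R + s - R = s := by omega
      have e2 : R + s + 1 - R = s + 1 := by omega
      rw [e1] at ih ⊢
      rw [e2]
      have h2 : ρ ^ s ≤ (1 / 10) ^ s := pow_le_pow_left₀ h0.le h1 s
      have h3 : (ρ ^ s) ^ 2 ≤ ((1 / 10 : ℝ) ^ s) ^ 2 := pow_le_pow_left₀ (by positivity) h2 2
      have h4 : ((1 / 10 : ℝ) ^ s) ^ 2 = (1 / 4) ^ s * (1 / 25) ^ s := by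
        rw [← pow_mul, mul_comm s 2, pow_mul, ← mul_pow]
        norm_num
      have h5 : (1 / 25 : ℝ) ^ s ≤ 1 / 25 := by
        have := pow_le_pow_of_le_one (by norm_num : (0 : ℝ) ≤ 1 / 25) (by norm_num) hs
        simpa using this
      have h6 : (0 : ℝ) < (1 / 4) ^ s := by positivity
      have h7 : (1 / 4 : ℝ) ^ s * (1 / 25) ^ s ≤ (1 / 4) ^ s * (1 / 25) :=
        mul_le_mul_of_nonneg_left h5 h6.le
      rw [pow_succ (1 / 4 : ℝ) s]
      linarith
    · rw [if_neg h, add_zero]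
      refine ih.trans ?_
      have : (1 / 4 : ℝ) ^ (X + 1 - R) ≤ (1 / 4) ^ (X - R) :=
        pow_le_pow_of_le_one (by norm_num) (by norm_num) (by omega)
      linarith

private theorem compA_fin {N : ℕ} (S : Finset (Fin N)) {K : ℕ} (hK : S.card ≤ K) (f : Fin N → ℝ) :
    ∑ i : Fin K, (if h : (i : ℕ) < S.card then f (S.equivFin.symm ⟨i, h⟩) else 0) =
      ∑ l ∈ S, f l := by
  have h1 := Fin.sum_univ_eq_sum_range
    (fun i => if h : i < S.card then f (S.equivFin.symm ⟨i, h⟩) else 0) K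
  rw [h1]
  have h2 : ∑ i ∈ range K, (if h : i < S.card then f (S.equivFin.symm ⟨i, h⟩) else 0) =
      ∑ i ∈ range S.card, (if h : i < S.card then f (S.equivFin.symm ⟨i, h⟩) else 0) := by
    symm
    refine sum_subset (range_subset_range.2 hK) fun i _ hi => ?_
    rw [mem_range] at hi
    rw [dif_neg hi]
  rw [h2, ← Fin.sum_univ_eq_sum_range
    (fun i => if h : i < S.card then f (S.equivFin.symm ⟨i, h⟩) else 0) S.card]
  have h3 : ∀ i : Fin S.card, (if h : (i : ℕ) < S.card then f (S.equivFin.symm ⟨i, h⟩) else 0) =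
      f (S.equivFin.symm i) := by
    intro i
    rw [dif_pos i.2]
  rw [sum_congr rfl fun i _ => h3 i]
  rw [Equiv.sum_comp S.equivFin.symm (fun l => f l)]
  exact Finset.sum_coe_sort S f

private theorem compA_tail {ε : ℝ} (hε : 0 < ε) (m : ℕ) :
    ∃ J0 : ℕ, m ≤ 8 * 2 ^ J0 ∧ ∀ J1 : ℕ,
      ∑ J ∈ Ioc J0 J1, 4 * (2 ^ (J + 5) + 1 : ℝ) * ((1 / 4) ^ (2 ^ J)) ^ 2 ≤ ε ^ 2 := by
  have hε2 : 0 < ε ^ 2 / 132 := by positivity
  obtain ⟨n, hn⟩ := exists_pow_lt_of_lt_one hε2 (by norm_num : (1 / 8 : ℝ) < 1)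
  refine ⟨n + m, ?_, ?_⟩
  · have h1 : m < 2 ^ m := Nat.lt_two_pow_self
    have h2 : 2 ^ m ≤ 2 ^ (n + m) := Nat.pow_le_pow_right (by norm_num) (by omega)
    omega
  intro J1
  have hterm : ∀ J : ℕ, 4 * (2 ^ (J + 5) + 1 : ℝ) * ((1 / 4) ^ (2 ^ J)) ^ 2 ≤ 132 * (1 / 8) ^ J := by
    intro J
    have h1 : J ≤ 2 ^ J := Nat.lt_two_pow_self.le
    have h2 : ((1 / 4 : ℝ) ^ (2 ^ J)) ^ 2 = (1 / 16) ^ (2 ^ J) := by
      rw [← pow_mul, mul_comm, pow_mul]
      norm_num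
    have h3 : (1 / 16 : ℝ) ^ (2 ^ J) ≤ (1 / 16) ^ J :=
      pow_le_pow_of_le_one (by norm_num) (by norm_num) h1
    have h4 : (1 / 16 : ℝ) ^ J = (1 / 8) ^ J * (1 / 2) ^ J := by
      rw [← mul_pow]
      norm_num
    have h5 : (1 : ℝ) ≤ 2 ^ J := one_le_pow₀ (by norm_num)
    have h6 : (2 : ℝ) ^ J * (1 / 2) ^ J = 1 := by
      rw [← mul_pow]
      norm_num
    have h7 : (0 : ℝ) < (1 / 8) ^ J := by positivity
    have h8 : (0 : ℝ) < (1 / 2) ^ J := by positivity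
    rw [h2]
    calc 4 * (2 ^ (J + 5) + 1 : ℝ) * (1 / 16) ^ (2 ^ J)
        ≤ 4 * (2 ^ (J + 5) + 1 : ℝ) * (1 / 16) ^ J :=
          mul_le_mul_of_nonneg_left h3 (by positivity)
      _ ≤ 4 * (2 ^ J * 33) * (1 / 16) ^ J := by
          refine mul_le_mul_of_nonneg_right ?_ (by positivity)
          rw [pow_add]
          linarith
      _ = 132 * (1 / 8) ^ J * (2 ^ J * (1 / 2) ^ J) := by
          rw [h4]
          ring
      _ = 132 * (1 / 8) ^ J := by rw [h6, mul_one]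
  refine (sum_le_sum fun J _ => hterm J).trans ?_
  have hg : ∀ a b : ℕ, ∑ J ∈ Ioc a b, (132 : ℝ) * (1 / 8) ^ J ≤
      132 * (1 / 8) ^ a - 132 * (1 / 8) ^ (max a b) := by
    intro a b
    induction b with
    | zero => simp
    | succ b ih =>
      by_cases hab : a ≤ b
      · rw [← Finset.insert_Ioc_right_eq_Ioc_add_one hab, sum_insert (by simp)]
        rw [max_eq_right hab] at ih
        rw [max_eq_right (by omega : a ≤ b + 1)]
        have h9 : (0 : ℝ) < (1 / 8) ^ b := by positivity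
        rw [pow_succ]
        linarith
      · rw [Ioc_eq_empty (by omega), max_eq_left (by omega : b + 1 ≤ a)]
        simp
  refine (hg _ _).trans ?_
  have h10 : (0 : ℝ) < (1 / 8) ^ (max (n + m) J1) := by positivity
  have h11 : (1 / 8 : ℝ) ^ (n + m) ≤ (1 / 8) ^ n :=
    pow_le_pow_of_le_one (by norm_num) (by norm_num) (by omega)
  have h12 : (132 : ℝ) * (ε ^ 2 / 132) = ε ^ 2 := by ring
  linarith

theorem fin_family {V : ℤ → ℝ} {M ρ : ℝ} (hM : ∀ n, |V n| ≤ M) (hρ : 0 < ρ) (hρ' : ρ ≤ 1 / 10)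
    (hloc : ∀ J1 ≥ 1, ∀ (e : ℝ) (ψ : ℤ → ℝ),
      EigF V (-2 ^ (J1 + 5)) (2 ^ (J1 + 5) - 1) e ψ → (∀ n, |ψ n| ≤ 1) →
      ∃ J ≤ J1, (∀ n, |ψ n| ≤ ρ ^ (hat n - 2 ^ (J + 5))) ∧
        (1 ≤ J → ∀ n, hat n ≤ 8 * 2 ^ J → |ψ n| ≤ (1 / 4) ^ (2 ^ J)))
    (m : ℤ) {ε : ℝ} (hε : 0 < ε) :
    ∃ J0 K : ℕ, ∀ J1 ≥ 1, hat m < 2 ^ (J1 + 5) →
      ∃ (u : Fin K → ℤ → ℝ) (E : Fin K → ℝ),
        (∀ l, EigF V (-2 ^ (J1 + 5)) (2 ^ (J1 + 5) - 1) (E l) (u l)) ∧
        (∀ l, |E l| ≤ M + 2) ∧ (∀ l n, |u l n| ≤ ρ ^ (hat n - 2 ^ (J0 + 5))) ∧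
        ∀ F : Finset ℤ, ∑ n ∈ F, ((if n = m then 1 else 0) - ∑ l, u l m * u l n) ^ 2 ≤ ε ^ 2 := by
  obtain ⟨J0, hm8, htail⟩ := compA_tail hε (hat m)
  refine ⟨J0, 4 * (2 ^ (J0 + 5) + 1), fun J1 hJ1 hm => ?_⟩
  have hρ1 : ρ ≤ 1 := hρ'.trans (by norm_num)
  obtain ⟨X, hX⟩ : ∃ X : ℕ, X = 2 ^ (J1 + 5) := ⟨_, rfl⟩
  have hXz : (2 : ℤ) ^ (J1 + 5) = (X : ℤ) := by rw [hX]; push_cast; rfl
  rw [hXz]
  rw [← hX] at hm
  have hX0 : 0 < X := by omega
  have hab : -(X : ℤ) ≤ (X : ℤ) - 1 := by omega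
  obtain ⟨ψ, e, h1, h2, h3, h4⟩ := eig_basis V hab
  have hmem : ∀ n : ℤ, n ∈ Icc (-(X : ℤ)) ((X : ℤ) - 1) ↔ hat n < X := by
    intro n
    have := hat_le_iff (n := n) (X := (X : ℤ) - 1)
    rw [mem_Icc]
    constructor
    · rintro ⟨u1, u2⟩
      have := this.2 ⟨by omega, u2⟩
      omega
    · intro hn
      have := this.1 (by omega)
      omega
  have hone : ∀ l n, |ψ l n| ≤ 1 := by
    intro l n
    by_cases hn : n ∈ Icc (-(X : ℤ)) ((X : ℤ) - 1)
    · have h5 : ψ l n ^ 2 ≤ 1 := by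
        rw [← h2 l]
        exact single_le_sum (f := fun n => ψ l n ^ 2) (fun i _ => sq_nonneg _) hn
      exact abs_le_one_iff_mul_self_le_one.2 (by nlinarith)
    · rw [(h1 l).1 n (by rw [mem_Icc] at hn; omega)]
      simp
  have hl : ∀ l, ∃ J ≤ J1, (∀ n, |ψ l n| ≤ ρ ^ (hat n - 2 ^ (J + 5))) ∧
        (1 ≤ J → ∀ n, hat n ≤ 8 * 2 ^ J → |ψ l n| ≤ (1 / 4) ^ (2 ^ J)) := by
    intro l
    refine hloc J1 hJ1 (e l) (ψ l) ?_ (hone l)
    rw [hXz]
    exact h1 l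
  choose J hJ1' hJd hJs using hl
  -- the decay with a larger radius
  have hdec : ∀ l j, J l ≤ j → ∀ n, |ψ l n| ≤ ρ ^ (hat n - 2 ^ (j + 5)) := by
    intro l j hj n
    refine (hJd l n).trans (pow_le_pow_of_le_one hρ.le hρ1 ?_)
    have : 2 ^ (J l + 5) ≤ 2 ^ (j + 5) := Nat.pow_le_pow_right (by norm_num) (by omega)
    omega
  -- counting
  have hcount : ∀ j, ((univ.filter fun l => J l ≤ j).card : ℝ) ≤ 4 * (2 ^ (j + 5) + 1) := by
    intro j
    obtain ⟨R, hR⟩ : ∃ R : ℕ, R = 2 ^ (j + 5) := ⟨_, rfl⟩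
    have hin : ∀ l ∈ univ.filter (fun l => J l ≤ j),
        (1 / 2 : ℝ) ≤ ∑ n ∈ (Icc (-(X : ℤ)) ((X : ℤ) - 1)).filter (fun n => hat n ≤ R),
          ψ l n ^ 2 := by
      intro l hlj
      rw [mem_filter] at hlj
      have h5 := h2 l
      rw [← sum_filter_add_sum_filter_not _ (fun n => hat n ≤ R)] at h5
      have h6 : ∑ n ∈ (Icc (-(X : ℤ)) ((X : ℤ) - 1)).filter (fun n => ¬ hat n ≤ R), ψ l n ^ 2 ≤
          ∑ n ∈ Icc (-(X : ℤ)) ((X : ℤ) - 1),
            (fun h => if R < h then (ρ ^ (h - R)) ^ 2 else 0) (hat n) := by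
        rw [sum_filter]
        refine sum_le_sum fun n _ => ?_
        by_cases hn : hat n ≤ R
        · rw [if_neg (not_not.2 hn)]
          simp only
          rw [if_neg (by omega)]
        · rw [if_pos hn]
          simp only
          rw [if_pos (by omega)]
          have h7 := hdec l j hlj.2 n
          rw [← hR] at h7
          rw [← sq_abs]
          exact pow_le_pow_left₀ (abs_nonneg _) h7 2
      have h6' := compA_hat_sum (fun h => if R < h then (ρ ^ (h - R)) ^ 2 else 0) X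
      rw [h6'] at h6
      have h8 := compA_geo hρ hρ' R X
      have h9 : (0 : ℝ) < 1 / 4 * (1 / 4) ^ (X - R) := by positivity
      linarith
    have h5 := sum_le_sum hin
    rw [sum_const, nsmul_eq_mul] at h5
    have h6 : ∑ l ∈ univ.filter (fun l => J l ≤ j),
        ∑ n ∈ (Icc (-(X : ℤ)) ((X : ℤ) - 1)).filter (fun n => hat n ≤ R), ψ l n ^ 2 ≤
        ∑ n ∈ (Icc (-(X : ℤ)) ((X : ℤ) - 1)).filter (fun n => hat n ≤ R), (1 : ℝ) := by
      rw [sum_comm]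
      refine sum_le_sum fun n hn => ?_
      rw [mem_filter] at hn
      have h7 := h4 n hn.1 n hn.1
      rw [if_pos rfl] at h7
      rw [← h7]
      refine (sum_le_univ_sum_of_nonneg fun l => sq_nonneg _).trans (le_of_eq ?_)
      exact sum_congr rfl fun l _ => sq (ψ l n)
    have h7 : ∑ n ∈ (Icc (-(X : ℤ)) ((X : ℤ) - 1)).filter (fun n => hat n ≤ R), (1 : ℝ) ≤
        2 * (R + 1) := by
      have h8 : (Icc (-(X : ℤ)) ((X : ℤ) - 1)).filter (fun n => hat n ≤ R) ⊆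
          Icc (-1 - (R : ℤ)) (R : ℤ) := by
        intro n hn
        rw [mem_filter] at hn
        rw [mem_Icc]
        exact hat_le_iff.1 (by exact_mod_cast hn.2)
      have h9 := card_le_card h8
      rw [Int.card_Icc] at h9
      rw [sum_const, nsmul_eq_mul, mul_one]
      have h10 : ((R : ℤ) + 1 - (-1 - (R : ℤ))).toNat = 2 * (R + 1) := by omega
      rw [h10] at h9
      exact_mod_cast h9
    have hRr : (R : ℝ) = 2 ^ (j + 5) := by rw [hR]; push_cast; rfl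
    rw [← hRr]
    linarith
  set S := univ.filter fun l => J l ≤ J0 with hS
  have hSK : S.card ≤ 4 * (2 ^ (J0 + 5) + 1) := by
    have := hcount J0
    rw [← hS] at this
    exact_mod_cast this
  -- the mass of the others at `m`
  have hmass : ∑ l ∈ Sᶜ, ψ l m ^ 2 ≤ ε ^ 2 := by
    refine le_trans ?_ (htail J1)
    have e1 : ∑ l ∈ Sᶜ, ψ l m ^ 2 =
        ∑ j ∈ Ioc J0 J1, ∑ l ∈ Sᶜ.filter (fun l => J l = j), ψ l m ^ 2 := by
      refine (sum_fiberwise_of_maps_to (fun l hl => ?_) _).symm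
      rw [hS, mem_compl, mem_filter] at hl
      rw [mem_Ioc]
      refine ⟨?_, hJ1' l⟩
      by_contra hc
      exact hl ⟨mem_univ _, by omega⟩
    rw [e1]
    refine sum_le_sum fun j hj => ?_
    rw [mem_Ioc] at hj
    have h5 : ∀ l ∈ Sᶜ.filter (fun l => J l = j), ψ l m ^ 2 ≤ ((1 / 4) ^ (2 ^ j)) ^ 2 := by
      intro l hl
      rw [mem_filter] at hl
      have h6 := hJs l (by omega) m (by
        rw [hl.2]
        have : 2 ^ J0 ≤ 2 ^ j := Nat.pow_le_pow_right (by norm_num) (by omega)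
        omega)
      rw [hl.2] at h6
      rw [← sq_abs]
      exact pow_le_pow_left₀ (abs_nonneg _) h6 2
    refine (sum_le_sum h5).trans ?_
    rw [sum_const, nsmul_eq_mul]
    refine mul_le_mul_of_nonneg_right ?_ (by positivity)
    refine le_trans ?_ (hcount j)
    have h7 : Sᶜ.filter (fun l => J l = j) ⊆ univ.filter fun l => J l ≤ j := by
      intro l hl
      rw [mem_filter] at hl ⊢
      exact ⟨mem_univ _, hl.2.le⟩
    exact_mod_cast card_le_card h7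
  have hM0 : 0 ≤ M := (abs_nonneg _).trans (hM 0)
  refine ⟨fun i n => if h : (i : ℕ) < S.card then ψ (S.equivFin.symm ⟨i, h⟩) n else 0,
    fun i => if h : (i : ℕ) < S.card then e (S.equivFin.symm ⟨i, h⟩) else 0, ?_, ?_, ?_, ?_⟩
  · intro i
    by_cases h : (i : ℕ) < S.card
    · simp only [dif_pos h]
      exact h1 _
    · simp only [dif_neg h]
      exact ⟨fun n _ => rfl, fun n _ _ => by simp⟩
  · intro i
    by_cases h : (i : ℕ) < S.card
    · simp only [dif_pos h]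
      have hsp : Spec V (-(X : ℤ)) ((X : ℤ) - 1) (e (S.equivFin.symm ⟨i, h⟩)) := by
        refine ⟨_, h1 _, ?_⟩
        by_contra hc
        push Not at hc
        have := h2 (S.equivFin.symm ⟨i, h⟩)
        simp [hc] at this
      obtain ⟨n, -, -, hn⟩ := spec_near hsp
      have h5 := hM n
      rw [abs_le] at *
      constructor <;> linarith
    · simp only [dif_neg h]
      rw [abs_zero]
      linarith
  · intro i n
    by_cases h : (i : ℕ) < S.card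
    · simp only [dif_pos h]
      refine hdec _ J0 ?_ n
      have h5 : ∀ l ∈ S, J l ≤ J0 := fun l hl => by
        rw [hS, mem_filter] at hl
        exact hl.2
      exact h5 _ (S.equivFin.symm ⟨i, h⟩).2
    · simp only [dif_neg h]
      rw [abs_zero]
      exact pow_nonneg hρ.le _
  · intro F
    have hu : ∀ n, ∑ i : Fin (4 * (2 ^ (J0 + 5) + 1)),
        (if h : (i : ℕ) < S.card then ψ (S.equivFin.symm ⟨i, h⟩) m else 0) *
          (if h : (i : ℕ) < S.card then ψ (S.equivFin.symm ⟨i, h⟩) n else 0) =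
        ∑ l ∈ S, ψ l m * ψ l n := by
      intro n
      rw [← compA_fin S hSK (fun l => ψ l m * ψ l n)]
      refine sum_congr rfl fun i _ => ?_
      by_cases h : (i : ℕ) < S.card
      · simp only [dif_pos h]
      · simp only [dif_neg h, mul_zero]
    simp only [hu]
    have hmI : m ∈ Icc (-(X : ℤ)) ((X : ℤ) - 1) := (hmem m).2 hm
    have hterm : ∀ n, ((if n = m then (1 : ℝ) else 0) - ∑ l ∈ S, ψ l m * ψ l n) ^ 2 =
        if n ∈ Icc (-(X : ℤ)) ((X : ℤ) - 1) then (∑ l ∈ Sᶜ, ψ l m * ψ l n) ^ 2 else 0 := by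
      intro n
      by_cases hn : n ∈ Icc (-(X : ℤ)) ((X : ℤ) - 1)
      · rw [if_pos hn]
        have h5 := h4 m hmI n hn
        rw [← sum_add_sum_compl S] at h5
        have h6 : (if n = m then (1 : ℝ) else 0) = if m = n then 1 else 0 := by
          by_cases hnm : n = m
          · rw [if_pos hnm, if_pos hnm.symm]
          · rw [if_neg hnm, if_neg fun h => hnm h.symm]
        rw [h6, ← h5]
        ring
      · rw [if_neg hn]
        have h5 : n ≠ m := by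
          rintro rfl
          exact hn hmI
        have h6 : ∀ l, ψ l n = 0 := by
          intro l
          exact (h1 l).1 n (by rw [mem_Icc] at hn; omega)
        rw [if_neg h5]
        simp [h6]
    simp only [hterm]
    have hle : ∑ n ∈ F, (if n ∈ Icc (-(X : ℤ)) ((X : ℤ) - 1) then
        (∑ l ∈ Sᶜ, ψ l m * ψ l n) ^ 2 else 0) ≤
        ∑ n ∈ Icc (-(X : ℤ)) ((X : ℤ) - 1), (∑ l ∈ Sᶜ, ψ l m * ψ l n) ^ 2 := by
      rw [← sum_filter]
      refine sum_le_sum_of_subset_of_nonneg (fun n hn => ?_) fun n _ _ => sq_nonneg _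
      rw [mem_filter] at hn
      exact hn.2
    refine hle.trans (le_trans (le_of_eq ?_) hmass)
    have hsq : ∀ n, (∑ l ∈ Sᶜ, ψ l m * ψ l n) ^ 2 =
        ∑ l ∈ Sᶜ, ∑ l' ∈ Sᶜ, (ψ l m * ψ l' m) * (ψ l n * ψ l' n) := by
      intro n
      rw [sq, sum_mul_sum]
      refine sum_congr rfl fun l _ => sum_congr rfl fun l' _ => ?_
      ring
    simp only [hsq]
    rw [sum_comm]
    refine sum_congr rfl fun l hl => ?_
    rw [sum_comm, sum_eq_single l]
    · rw [← mul_sum]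
      have h5 : ∑ n ∈ Icc (-(X : ℤ)) ((X : ℤ) - 1), ψ l n * ψ l n = 1 := by
        rw [← h2 l]
        exact sum_congr rfl fun n _ => (sq _).symm
      rw [h5]
      ring
    · intro l' _ hne
      rw [← mul_sum, h3 l l' hne.symm, mul_zero]
    · intro h
      exact absurd hl h

end Pool.Agent.MP31f1e8.AL
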