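import Pool.Agent.Lib.MP_31f1e8_mp.AL.Fw

/-!
# AL: solutions on an interval with barrier pads

JOB AL-Core. `[s, t] ⊇ [p, q]`, `B ≤ |e - V n|` on the pads `[s, p)` and `(q, t]`.

Proof of `core_bound`. Left pad: let `u (s - 1) = 0`, `u s = 1`,
`u (n + 1) = (e - V n) u n - u (n - 1)`; by induction `|u (n + 1)| ≥ (B - 1) |u n|`, so `u n ≠ 0` for
`s ≤ n ≤ p`. Put `φ n = ψ p / u p * u n` on `[s, p)` (so that `φ` solves the equation on `[s, p)`
with `φ (s - 1) = 0` and the value `ψ p` at `p`) and `χ = ψ - φ` on `[s - 1, p]`; `χ` solves the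
equation on `[s, p)`, `χ p = 0`, `χ (s - 1) = ψ (s - 1)`. By downward induction from `p`:
`|χ n| ≤ |χ (n - 1)| / (B - 1)` for `s ≤ n < p` (`B |χ n| ≤ |χ (n + 1)| + |χ (n - 1)|` and
`|χ (n + 1)| ≤ |χ n|`), so `|χ (p - 1)| ≤ (1 / (B - 1)) ^ (p - s) * |ψ (s - 1)|` (also true for
`p = s`). The same on the right. Let `φ = ψ` on `[p, q]`, as above on the pads, `0` outside of
`[s, t]`. Its residual vanishes except at `p` and `q`, where it is `- χ (p - 1)` and `- χ' (q + 1)`
(their sum if `p = q`). `inv_bound` (file `Fv`) gives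
`δ |ψ n| ≤ √(∑ res²) ≤ |χ (p - 1)| + |χ' (q + 1)|` for `n ∈ [p, q]`.
-/

namespace Pool.Agent.MP31f1e8.AL

open Finset

/-- the left pad -/
private theorem core_pad {V ψ : ℤ → ℝ} {s : ℤ} {e B : ℝ} (hB : 3 ≤ B) (m : ℕ)
    (hL : ∀ n, s ≤ n → n < s + m → B ≤ |e - V n|)
    (hψ : ∀ n, s ≤ n → n < s + m → ψ (n + 1) + ψ (n - 1) + V n * ψ n = e * ψ n) :
    ∃ ρ : ℝ, |ρ| ≤ 1 / (B - 1) ∧
      (∀ c : ℝ, ∃ φ : ℤ → ℝ, φ (s + m) = c ∧ φ (s + m - 1) = ρ * c ∧ (∀ n, n < s → φ n = 0) ∧
        ∀ n, s ≤ n → n < s + m → φ (n + 1) + φ (n - 1) + V n * φ n = e * φ n) ∧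
      |ψ (s + m - 1) - ρ * ψ (s + m)| ≤ (1 / (B - 1)) ^ m * |ψ (s - 1)| := by
  have hB1 : 0 < B - 1 := by linarith
  have hB2 : 1 / (B - 1) ≤ 1 / 2 := one_div_le_one_div_of_le (by norm_num) (by linarith)
  induction m with
  | zero =>
    refine ⟨0, by rw [abs_zero]; positivity, fun c => ⟨fun n => if n = s then c else 0, ?_, ?_, ?_, ?_⟩, ?_⟩
    · simp
    · simp
    · intro n hn
      beta_reduce
      rw [if_neg (by omega)]
    · intro n hn hn'
      push_cast at hn'
      omega
    · simp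
  | succ m ih =>
    obtain ⟨ρ, hρ, hφ, hd⟩ := ih (fun n h1 h2 => hL n h1 (by push_cast; omega))
      (fun n h1 h2 => hψ n h1 (by push_cast; omega))
    have hVp := hL (s + m) (by omega) (by push_cast; omega)
    have hψp := hψ (s + m) (by omega) (by push_cast; omega)
    set D := e - V (s + m) - ρ with hD
    have hDabs : B - 1 ≤ |D| := by
      have h1 : |e - V (s + m)| ≤ |D| + |ρ| := by
        have : e - V (s + m) = D + ρ := by rw [hD]; ring
        rw [this]; exact abs_add_le _ _
      linarith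
    have hD0 : D ≠ 0 := by
      intro h
      rw [h, abs_zero] at hDabs
      linarith
    have hinv : |1 / D| ≤ 1 / (B - 1) := by
      rw [abs_div, abs_one]
      exact one_div_le_one_div_of_le hB1 hDabs
    have e1 : s + ((m + 1 : ℕ) : ℤ) = s + m + 1 := by push_cast; ring
    have e2 : s + ((m + 1 : ℕ) : ℤ) - 1 = s + m := by push_cast; ring
    refine ⟨1 / D, hinv, fun c => ?_, ?_⟩
    · obtain ⟨φ, h1, h2, h3, h4⟩ := hφ (1 / D * c)
      refine ⟨fun n => if n = s + m + 1 then c else φ n, ?_, ?_, ?_, ?_⟩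
      · rw [e1]; beta_reduce; rw [if_pos rfl]
      · rw [e2]; beta_reduce; rw [if_neg (by omega), h1]
      · intro n hn
        beta_reduce
        rw [if_neg (by omega)]
        exact h3 n hn
      · intro n hn hn'
        rw [e1] at hn'
        by_cases hnp : n = s + m
        · subst hnp
          beta_reduce
          rw [if_pos rfl, if_neg (by omega), if_neg (by omega), h1, h2]
          have : e - V (s + m) = D + ρ := by rw [hD]; ring
          have h5 : D * (1 / D) = 1 := by field_simp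
          have h6 : c + ρ * (1 / D * c) + V (s + m) * (1 / D * c) - e * (1 / D * c)
              = c - (e - V (s + m) - ρ) * (1 / D * c) := by ring
          have h7 : (e - V (s + m) - ρ) * (1 / D * c) = c := by
            rw [← hD, ← mul_assoc, h5, one_mul]
          rw [h7] at h6
          linarith
        · beta_reduce
          rw [if_neg (by omega), if_neg (by omega), if_neg (by omega)]
          exact h4 n hn (by omega)
    · rw [e2, e1]
      have h8 : ψ (s + m) - 1 / D * ψ (s + m + 1) = 1 / D * (ψ (s + m - 1) - ρ * ψ (s + m)) := by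
        have h9 : ψ (s + m + 1) = D * ψ (s + m) - (ψ (s + m - 1) - ρ * ψ (s + m)) := by
          rw [hD]; linarith
        rw [h9]
        field_simp
        ring
      rw [h8, abs_mul]
      calc |1 / D| * |ψ (s + m - 1) - ρ * ψ (s + m)|
          ≤ 1 / (B - 1) * ((1 / (B - 1)) ^ m * |ψ (s - 1)|) :=
            mul_le_mul hinv hd (abs_nonneg _) (by positivity)
        _ = (1 / (B - 1)) ^ (m + 1) * |ψ (s - 1)| := by ring

private theorem core_sum {s t p q : ℤ} (a b : ℝ) :
    ∑ n ∈ Icc s t, ((if n = p then a else 0) + (if n = q then b else 0)) ^ 2 ≤ (|a| + |b|) ^ 2 := by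
  have h1 : ∀ n ∈ Icc s t, ((if n = p then a else 0) + (if n = q then b else 0)) ^ 2
      ≤ (|a| + |b|) * ((if n = p then |a| else 0) + (if n = q then |b| else 0)) := by
    intro n _
    have ha := abs_nonneg a
    have hb := abs_nonneg b
    have sa : a ^ 2 = |a| ^ 2 := (sq_abs a).symm
    have sb : b ^ 2 = |b| ^ 2 := (sq_abs b).symm
    split_ifs
    · have hab : a * b ≤ |a| * |b| := by rw [← abs_mul]; exact le_abs_self _
      nlinarith
    · nlinarith
    · nlinarith
    · simp
  refine (sum_le_sum h1).trans ?_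
  rw [← mul_sum, sum_add_distrib, sum_ite_eq', sum_ite_eq', sq]
  refine mul_le_mul_of_nonneg_left (add_le_add ?_ ?_) (by positivity)
  · split_ifs
    · exact le_rfl
    · exact abs_nonneg _
  · split_ifs
    · exact le_rfl
    · exact abs_nonneg _

theorem core_bound {V ψ : ℤ → ℝ} {s p q t : ℤ} {e B δ : ℝ} (hB : 3 ≤ B) (hsp : s ≤ p)
    (hpq : p ≤ q) (hqt : q ≤ t) (hL : ∀ n, s ≤ n → n < p → B ≤ |e - V n|)
    (hR : ∀ n, q < n → n ≤ t → B ≤ |e - V n|) (hδ : 0 < δ)
    (hspec : ∀ e', Spec V s t e' → δ ≤ |e - e'|)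
    (hψ : ∀ n, s ≤ n → n ≤ t → ψ (n + 1) + ψ (n - 1) + V n * ψ n = e * ψ n) (n : ℤ)
    (hn : p ≤ n) (hn' : n ≤ q) :
    δ * |ψ n| ≤ (1 / (B - 1)) ^ (p - s).toNat * |ψ (s - 1)| +
      (1 / (B - 1)) ^ (t - q).toNat * |ψ (t + 1)| := by
  have ep : s + ((p - s).toNat : ℤ) = p := by rw [Int.toNat_of_nonneg (by omega)]; ring
  have eq : -t + ((t - q).toNat : ℤ) = -q := by rw [Int.toNat_of_nonneg (by omega)]; ring
  obtain ⟨ρ, -, hφ, hd⟩ := core_pad (V := V) (ψ := ψ) (s := s) (e := e) hB (p - s).toNat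
    (fun n h1 h2 => hL n h1 (by omega)) (fun n h1 h2 => hψ n h1 (by omega))
  rw [ep] at hφ hd
  obtain ⟨ρ', -, hφ', hd'⟩ := core_pad (V := fun n => V (-n)) (ψ := fun n => ψ (-n)) (s := -t) (e := e) hB
    (t - q).toNat (fun n h1 h2 => hR (-n) (by omega) (by omega)) (fun n h1 h2 => by
      have h3 := hψ (-n) (by omega) (by omega)
      have e3 : -(n + 1) = -n - 1 := by ring
      have e4 : -(n - 1) = -n + 1 := by ring
      simp only [e3, e4]
      linarith)
  rw [eq] at hφ' hd'
  obtain ⟨L, hL1, hL2, hL3, hL4⟩ := hφ (ψ p)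
  obtain ⟨R, hR1, hR2, hR3, hR4⟩ := hφ' (ψ q)
  have e5 : - -q = q := by ring
  have e6 : -(-q - 1) = q + 1 := by ring
  have e7 : -(-t - 1) = t + 1 := by ring
  simp only [e5, e6, e7] at hd'
  set a := ρ * ψ p - ψ (p - 1) with ha
  set b := ρ' * ψ q - ψ (q + 1) with hb
  have hda : |a| ≤ (1 / (B - 1)) ^ (p - s).toNat * |ψ (s - 1)| := by
    rw [ha, abs_sub_comm]; exact hd
  have hdb : |b| ≤ (1 / (B - 1)) ^ (t - q).toNat * |ψ (t + 1)| := by
    rw [hb, abs_sub_comm]; exact hd'
  -- the test function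
  set f : ℤ → ℝ := fun n => if n < p then L n else if n ≤ q then ψ n else R (-n) with hf
  have f1 : ∀ n, n < p → f n = L n := fun n h => by simp only [hf]; rw [if_pos h]
  have f2 : ∀ n, p ≤ n → n ≤ q → f n = ψ n := fun n h h' => by
    simp only [hf]; rw [if_neg (by omega), if_pos h']
  have f3 : ∀ n, q < n → f n = R (-n) := fun n h => by
    simp only [hf]; rw [if_neg (by omega), if_neg (by omega)]
  have f1' : ∀ n, n ≤ p → f n = L n := fun n h => by
    rcases lt_or_eq_of_le h with h | h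
    · exact f1 n h
    · rw [h, f2 p le_rfl hpq, hL1]
  have f3' : ∀ n, q ≤ n → f n = R (-n) := fun n h => by
    rcases lt_or_eq_of_le h with h | h
    · exact f3 n h
    · rw [← h, f2 q hpq le_rfl, hR1]
  have hf0 : ∀ n, n < s ∨ t < n → f n = 0 := by
    intro n h
    rcases h with h | h
    · rw [f1 n (by omega), hL3 n h]
    · rw [f3 n (by omega), hR3 (-n) (by omega)]
  have hres : ∀ n ∈ Icc s t, res V e f n = (if n = p then a else 0) + (if n = q then b else 0) := by
    intro n hn
    rw [mem_Icc] at hn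
    unfold res
    rcases lt_trichotomy n p with h | h | h
    · rw [if_neg (by omega), if_neg (by omega), f1' (n + 1) (by omega), f1' (n - 1) (by omega), f1' n (by omega)]
      have := hL4 n hn.1 h
      linarith
    · subst h
      have hψn := hψ n (by omega) (by omega)
      rw [if_pos rfl]
      rcases lt_or_eq_of_le hpq with h' | h'
      · rw [if_neg (by omega), f2 (n + 1) (by omega) (by omega), f1' (n - 1) (by omega), f2 n le_rfl hpq, hL2, ha]
        linarith
      · subst h'
        rw [if_pos rfl, f3' (n + 1) (by omega), f1' (n - 1) (by omega), f2 n le_rfl le_rfl, hL2]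
        have : -(n + 1) = -n - 1 := by ring
        rw [this, hR2, ha, hb]
        linarith
    · rw [if_neg (by omega)]
      rcases lt_trichotomy n q with h' | h' | h'
      · rw [if_neg (by omega), f2 (n + 1) (by omega) (by omega), f2 (n - 1) (by omega) (by omega),
          f2 n (by omega) (by omega)]
        have := hψ n (by omega) (by omega)
        linarith
      · subst h'
        have hψn := hψ n (by omega) (by omega)
        rw [if_pos rfl, f3' (n + 1) (by omega), f2 (n - 1) (by omega) (by omega), f2 n (by omega) le_rfl]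
        have : -(n + 1) = -n - 1 := by ring
        rw [this, hR2, hb]
        linarith
      · rw [if_neg (by omega), f3' (n + 1) (by omega), f3' (n - 1) (by omega), f3' n (by omega)]
        have h5 := hR4 (-n) (by omega) (by omega)
        have e8 : -n + 1 = -(n - 1) := by ring
        have e9 : -n - 1 = -(n + 1) := by ring
        rw [e8, e9] at h5
        simp only [neg_neg] at h5
        linarith
  have hst : s ≤ t := by omega
  have hinv := inv_bound (V := V) hst hδ hspec hf0
  have hsum : ∑ n ∈ Icc s t, res V e f n ^ 2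
      = ∑ n ∈ Icc s t, ((if n = p then a else 0) + (if n = q then b else 0)) ^ 2 :=
    sum_congr rfl fun n hn => by rw [hres n hn]
  have h1 : δ ^ 2 * ∑ n ∈ Icc s t, f n ^ 2 ≤ (|a| + |b|) ^ 2 := hinv.trans (hsum ▸ core_sum a b)
  have hmem : n ∈ Icc s t := mem_Icc.2 ⟨by omega, by omega⟩
  have h2 : ψ n ^ 2 ≤ ∑ n ∈ Icc s t, f n ^ 2 := by
    have := single_le_sum (f := fun n => f n ^ 2) (fun i _ => sq_nonneg (f i)) hmem
    rw [f2 n hn hn'] at this
    exact this
  have h3 : (δ * |ψ n|) ^ 2 ≤ (|a| + |b|) ^ 2 := by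
    rw [mul_pow, sq_abs]
    exact (mul_le_mul_of_nonneg_left h2 (by positivity)).trans h1
  have h4 : δ * |ψ n| ≤ |a| + |b| := (le_abs_self _).trans (abs_le_of_sq_le_sq h3 (by positivity))
  linarith

end Pool.Agent.MP31f1e8.AL
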