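import Pool.Agent.Lib.MP_31f1e8_mp.Base

/-!
# MP_31f1e8, complete localisation: definitions

Coded orbits of the Standard map, the types of the sites, the energy windows, finite volume
eigenfunctions.
-/

namespace Pool.Agent.MP31f1e8.AL

open Pool.Agent.MP31f1e8

/-- the distance of the site `n` to the centre (the centre is between `-1` and `0`) -/
def hat (n : ℤ) : ℕ := if 0 ≤ n then n.toNat else (-1 - n).toNat

/-- The type of a site: `16` for `hat n < 32`; the sites with `2 ^ (j + 4) ≤ hat n < 2 ^ (j + 5)`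
(`j ≥ 1`) form `16` blocks of length `2 ^ j` of the types `0, ..., 15`. -/
def typ (n : ℤ) : ℕ := if hat n < 32 then 16 else hat n / 2 ^ (Nat.log 2 (hat n) - 4) - 16

/-- the number of digits -/
noncomputable def NN (lam : ℝ) : ℕ := ⌊lam / 1000⌋₊

/-- The branches used at the two central sites `0` and `-1`. -/
structure Cen where
  a0 : ℝ
  b0 : ℝ
  k0 : ℤ
  a1 : ℝ
  b1 : ℝ
  k1 : ℤ

/-- an admissible branch -/
def Branch (lam a b : ℝ) (k : ℤ) : Prop :=
  a ≤ b ∧ -(Real.pi - 4 / √lam) ≤ a ∧ b ≤ Real.pi - 4 / √lam ∧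
  (∀ x ∈ Set.Icc a b, 3 ≤ |2 + lam * Real.cos x|) ∧
  ((F lam a ≤ 2 * Real.pi * k - 2 * Real.pi ∧ 2 * Real.pi * k + 2 * Real.pi ≤ F lam b) ∨
    (F lam b ≤ 2 * Real.pi * k - 2 * Real.pi ∧ 2 * Real.pi * k + 2 * Real.pi ≤ F lam a))

/-- both central branches are admissible -/
def Cen.Good (lam : ℝ) (z : Cen) : Prop := Branch lam z.a0 z.b0 z.k0 ∧ Branch lam z.a1 z.b1 z.k1

/-- the reflected central branches -/
def Cen.refl (z : Cen) : Cen := ⟨z.a1, z.b1, z.k1, z.a0, z.b0, z.k0⟩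

/-- the integer that codes the branch at the site `n`, given the digits `c` -/
noncomputable def mm (lam : ℝ) (z : Cen) (c : ℤ → ℕ) (n : ℤ) : ℤ :=
  if n = 0 then z.k0 else if n = -1 then z.k1 else ((80 + 3 * typ n) * NN lam + c n : ℕ)

/-- lower end of the non-central branches -/
noncomputable def xlo : ℝ := Real.arcsin 0.48

/-- upper end of the non-central branches -/
noncomputable def xhi : ℝ := Real.arcsin 0.82

/-- `x` is the coded orbit with the central branches `z` and the digits `c`. -/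
structure Orb (lam : ℝ) (z : Cen) (c : ℤ → ℕ) (x : ℤ → ℝ) : Prop where
  win : ∀ n, n ≠ 0 → n ≠ -1 → x n ∈ Set.Icc xlo xhi
  cen0 : x 0 ∈ Set.Icc z.a0 z.b0
  cen1 : x (-1) ∈ Set.Icc z.a1 z.b1
  eq : ∀ n, x (n + 1) + x (n - 1) =
    2 * x n + lam * Real.sin (x n) - 2 * Real.pi * mm lam z c n

/-- the potential of an orbit -/
noncomputable def pot (lam : ℝ) (x : ℤ → ℝ) (n : ℤ) : ℝ := lam * Real.cos (x n)

/-- lower bound for `lam * sin (x n)` at the sites of type `i` -/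
noncomputable def slo (lam : ℝ) (i : ℕ) : ℝ := 2 * Real.pi * ((80 + 3 * i) * NN lam) - 8

/-- upper bound for `lam * sin (x n)` at the sites of type `i` -/
noncomputable def shi (lam : ℝ) (i : ℕ) : ℝ := 2 * Real.pi * ((81 + 3 * i) * NN lam) + 8

/-- lower end of the energy window of type `i` -/
noncomputable def wlo (lam : ℝ) (i : ℕ) : ℝ := lam * √(1 - (shi lam i / lam) ^ 2)

/-- upper end of the energy window of type `i` -/
noncomputable def whi (lam : ℝ) (i : ℕ) : ℝ := lam * √(1 - (slo lam i / lam) ^ 2)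

/-- The sites of the types different from `i` are barriers for the energy `e`. -/
def Bar (lam B : ℝ) (i : ℕ) (e : ℝ) : Prop :=
  ∀ i' ≤ 16, i' ≠ i → ∀ v ∈ Set.Icc (wlo lam i') (whi lam i'), B ≤ |e - v|

/-- `ψ` solves the eigenvalue equation on `[a, b]` with zero boundary conditions. -/
def EigF (V : ℤ → ℝ) (a b : ℤ) (e : ℝ) (ψ : ℤ → ℝ) : Prop :=
  (∀ n, n < a ∨ b < n → ψ n = 0) ∧
    ∀ n, a ≤ n → n ≤ b → ψ (n + 1) + ψ (n - 1) + V n * ψ n = e * ψ n

/-- `e` is an eigenvalue of the operator on `[a, b]`. -/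
def Spec (V : ℤ → ℝ) (a b : ℤ) (e : ℝ) : Prop := ∃ ψ, EigF V a b e ψ ∧ ∃ n, ψ n ≠ 0

/-- the residual of the eigenvalue equation -/
def res (V : ℤ → ℝ) (e : ℝ) (f : ℤ → ℝ) (n : ℤ) : ℝ := f (n + 1) + f (n - 1) + V n * f n - e * f n

/-- The operator on `[a, b]` has an approximate eigenfunction with error `η`. -/
def Appr (V : ℤ → ℝ) (a b : ℤ) (e η : ℝ) : Prop :=
  ∃ f : ℤ → ℝ, (∀ n, n < a ∨ b < n → f n = 0) ∧ (∃ n, f n ≠ 0) ∧
    ∑ n ∈ Finset.Icc a b, res V e f n ^ 2 ≤ η ^ 2 * ∑ n ∈ Finset.Icc a b, f n ^ 2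

/-- first site of the block `(j, i)` on the right -/
def bp (j i : ℕ) : ℤ := (16 + i) * 2 ^ j

/-- last site of the block `(j, i)` -/
def bq (j i : ℕ) : ℤ := bp j i + 2 ^ j - 1

/-- last site of the block of type `i` inside of the block `(j, i)` -/
def bi (j i : ℕ) : ℤ := (17 + i) * 2 ^ (j - 1) - 1

/-- the length of the pads -/
def pad (j : ℕ) : ℤ := 3 * 2 ^ j

/-- the two possible outer ends -/
def outer (j i : ℕ) (s : Bool) : ℤ :=
  if s then bq j i + pad j else min (bq j i + pad j) (2 ^ (j + 5) - 1)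

/-- the resonance threshold at the scale `j` -/
noncomputable def dlt (lam : ℝ) (j : ℕ) : ℝ := lam / (10 * (lam + 3) ^ (2 * 2 ^ j))

/-- A resonance (with the tolerances `B`, `η`) between the block `(j, i)` on the right and
everything on its left. -/
def Reso (lam : ℝ) (V : ℤ → ℝ) (j i : ℕ) (s : Bool) (B η : ℝ) : Prop :=
  ∃ eY eb, Spec V (-1 - outer j i s) (bi j i + pad j) eY ∧
    Spec V (bp j i - pad j) (outer j i s) eb ∧ Bar lam B i eb ∧ |eY - eb| < η

/-- the reflected potential -/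
def rf {α : Type*} (V : ℤ → α) : ℤ → α := fun n => V (-1 - n)

/-- no resonances at any scale -/
def NR (lam : ℝ) (V : ℤ → ℝ) : Prop :=
  ∀ j ≥ 1, ∀ i < 16, ∀ s : Bool, ¬ Reso lam V j i s (lam / 400 - 1) (2 * dlt lam j) ∧
    ¬ Reso lam (rf V) j i s (lam / 400 - 1) (2 * dlt lam j)

/-- The exponentially decaying eigenvectors (rate `(1/5) * log lam`) of the operator along the
orbit of the point `p` of the torus. -/
def expEig (lam : ℝ) (p : Real.Angle × Real.Angle) : Set (lp (fun _ : ℤ => ℂ) 2) :=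
  {u | (∃ E : ℝ, ∀ n : ℤ, u (n + 1) - 2 * u n + u (n - 1) +
      ((lam * ((stdMap lam ^ n) p).1.cos : ℝ) : ℂ) * u n = (E : ℂ) * u n) ∧
    ∃ C : ℝ, ∀ n : ℤ, ‖u n‖ ≤ C * lam ^ (-(|(n : ℝ)| / 5))}

end Pool.Agent.MP31f1e8.AL
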