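import Pool.Agent.Lib.MP_31f1e8_mp.AL.Defs

/-!
# AL: numerical inequalities

JOB AL-Num. `lam ≥ 10 ^ 60`, `L = 2 ^ j ≥ 2`, `dlt lam j = lam / (10 (lam + 3) ^ (2 L))`. Use
`lam + 3 ≤ 2 lam`, so `10 (lam + 3) ^ (2 L) ≤ 10 * 4 ^ L * lam ^ (2 L)`.

* `num_far`: `lam * (4 / lam) ^ (5 L) ≤ dlt`, because
  `(4 / lam) ^ (5 L) * 10 * 4 ^ L * lam ^ (2 L) = 10 * (4096 / lam ^ 3) ^ L ≤ 1`.
* `num_cut`: the same with the exponent `29 L` and `dlt / 2`.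
* `num_cross`: `(1 / (B - 1)) ^ (3 L) ≤ (500 / lam) ^ (3 L)` for `B ≥ lam / 450`, and
  `(500 / lam) ^ (3 L) * 2 * τ ^ (4 L + 1) ≤ dlt / 2` with `τ = lam ^ (1 / 5)`: it is enough that
  `40 * (4 * 500 ^ 3) ^ L * lam ^ (2 L - 3 L - 1 + (4 L + 1) / 5) ≤ 1`, the exponent of `lam` is
  `-L / 5 - 4 / 5`, and `lam ^ (L / 5) ≥ (10 ^ 12) ^ L ≥ 40 * (4 * 500 ^ 3) ^ L`.
* `num_small`: `2 * (500 / lam) ^ (3 L) ≤ dlt * (1 / 4) ^ L`.
-/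

namespace Pool.Agent.MP31f1e8.AL

private theorem num_big {lam : ℝ} (hlam : 10 ^ 60 ≤ lam) : (10 : ℝ) ^ 12 ≤ lam := by
  refine le_trans ?_ hlam
  norm_num

private theorem num_Lpos (j : ℕ) : 1 ≤ 2 ^ j := Nat.one_le_two_pow

private theorem num_den {lam : ℝ} (hlam : 10 ^ 60 ≤ lam) (n : ℕ) :
    0 < (lam + 3) ^ n ∧ (lam + 3) ^ n ≤ (2 * lam) ^ n := by
  have h := num_big hlam
  have h0 : (0 : ℝ) < lam + 3 := by
    have : (0 : ℝ) < 10 ^ 12 := by norm_num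
    linarith
  refine ⟨pow_pos h0 n, pow_le_pow_left₀ h0.le ?_ n⟩
  have : (3 : ℝ) ≤ 10 ^ 12 := by norm_num
  linarith

theorem dlt_pos {lam : ℝ} (hlam : 10 ^ 60 ≤ lam) (j : ℕ) : 0 < dlt lam j ∧ dlt lam j ≤ 1 / 10 := by
  have h := num_big hlam
  have h0 : (0 : ℝ) < lam := lt_of_lt_of_le (by norm_num) h
  have hd := (num_den hlam (2 * 2 ^ j)).1
  unfold dlt
  refine ⟨by positivity, ?_⟩
  rw [div_le_div_iff₀ (by positivity) (by norm_num)]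
  have h1 : (lam + 3) ^ 1 ≤ (lam + 3) ^ (2 * 2 ^ j) :=
    pow_le_pow_right₀ (by linarith) (by have := num_Lpos j; omega)
  rw [pow_one] at h1
  linarith

private theorem num_q {q : ℝ} (h0 : 0 ≤ q) (h1 : q ≤ 1 / 10)
    (j : ℕ) : 10 * q ^ (2 ^ j) ≤ 1 := by
  have h2 : q ^ (2 ^ j) ≤ q ^ 1 := pow_le_pow_of_le_one h0 (by linarith) (num_Lpos j)
  rw [pow_one] at h2
  linarith

theorem num_far {lam : ℝ} (hlam : 10 ^ 60 ≤ lam) {j k : ℕ} (hk : 5 * 2 ^ j ≤ k) :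
    lam * (4 / lam) ^ k ≤ dlt lam j := by
  have h := num_big hlam
  have h0 : (0 : ℝ) < lam := lt_of_lt_of_le (by norm_num) h
  have hd := num_den hlam (2 * 2 ^ j)
  have h4 : (4 : ℝ) / lam ≤ 1 := by
    rw [div_le_one h0]
    exact le_trans (by norm_num) h
  have h5 : (0 : ℝ) ≤ 4 / lam := by positivity
  have h6 : (4 / lam) ^ k ≤ (4 / lam) ^ (5 * 2 ^ j) := pow_le_pow_of_le_one h5 h4 hk
  unfold dlt
  rw [le_div_iff₀ (by have := hd.1; positivity)]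
  have hq : (4 / lam) ^ 5 * (2 * lam) ^ 2 ≤ 1 / 10 := by
    have e : (4 / lam) ^ 5 * (2 * lam) ^ 2 = 4096 / lam ^ 3 := by
      field_simp
      norm_num
    rw [e, div_le_div_iff₀ (by positivity) (by norm_num)]
    have h7 : ((10 : ℝ) ^ 12) ^ 3 ≤ lam ^ 3 := pow_le_pow_left₀ (by norm_num) h 3
    have h8 : (4096 : ℝ) * 10 ≤ (10 ^ 12) ^ 3 := by norm_num
    linarith
  have hq0 : 0 ≤ (4 / lam) ^ 5 * (2 * lam) ^ 2 := by positivity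
  have h9 := num_q hq0 hq j
  rw [mul_pow, ← pow_mul, ← pow_mul] at h9
  have h10 : (4 / lam) ^ k * (lam + 3) ^ (2 * 2 ^ j) ≤
      (4 / lam) ^ (5 * 2 ^ j) * (2 * lam) ^ (2 * 2 ^ j) :=
    mul_le_mul h6 hd.2 hd.1.le (by positivity)
  have h11 : 10 * ((4 / lam) ^ k * (lam + 3) ^ (2 * 2 ^ j)) ≤ 1 := by linarith
  calc lam * (4 / lam) ^ k * (10 * (lam + 3) ^ (2 * 2 ^ j))
      = lam * (10 * ((4 / lam) ^ k * (lam + 3) ^ (2 * 2 ^ j))) := by ring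
    _ ≤ lam * 1 := mul_le_mul_of_nonneg_left h11 h0.le
    _ = lam := mul_one _

theorem num_cut {lam : ℝ} (hlam : 10 ^ 60 ≤ lam) {j k : ℕ} (hk : 29 * 2 ^ j ≤ k) :
    lam * (4 / lam) ^ k ≤ dlt lam j / 2 := by
  have h := num_big hlam
  have h0 : (0 : ℝ) < lam := lt_of_lt_of_le (by norm_num) h
  have hL := num_Lpos j
  obtain ⟨m, rfl⟩ : ∃ m, k = m + 1 := ⟨k - 1, by omega⟩
  have h1 := num_far hlam (j := j) (k := m) (by omega)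
  have h4 : (4 : ℝ) / lam ≤ 1 / 2 := by
    rw [div_le_div_iff₀ h0 (by norm_num)]
    have : (4 * 2 : ℝ) ≤ 10 ^ 12 := by norm_num
    linarith
  have h2 : 0 ≤ lam * (4 / lam) ^ m := by positivity
  calc lam * (4 / lam) ^ (m + 1) = (lam * (4 / lam) ^ m) * (4 / lam) := by ring
    _ ≤ (lam * (4 / lam) ^ m) * (1 / 2) := mul_le_mul_of_nonneg_left h4 h2
    _ ≤ dlt lam j / 2 := by linarith

theorem num_gap {lam : ℝ} (hlam : 10 ^ 60 ≤ lam) {j k : ℕ} (hk : k ≤ 2 * 2 ^ j) :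
    20 * dlt lam j ≤ 2.4 * lam / (lam + 3) ^ k := by
  have h := num_big hlam
  have h0 : (0 : ℝ) < lam := lt_of_lt_of_le (by norm_num) h
  have h1 : (lam + 3) ^ k ≤ (lam + 3) ^ (2 * 2 ^ j) := pow_le_pow_right₀ (by linarith) hk
  have h2 := (num_den hlam k).1
  have h3 := (num_den hlam (2 * 2 ^ j)).1
  have e : 20 * dlt lam j = 2 * lam / (lam + 3) ^ (2 * 2 ^ j) := by
    unfold dlt
    field_simp
    norm_num
  rw [e]
  calc 2 * lam / (lam + 3) ^ (2 * 2 ^ j) ≤ 2 * lam / (lam + 3) ^ k :=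
        div_le_div_of_nonneg_left (by positivity) h2 h1
    _ ≤ 2.4 * lam / (lam + 3) ^ k := by
        apply div_le_div_of_nonneg_right _ h2.le
        linarith

private theorem num_t {lam : ℝ} (hlam : 10 ^ 60 ≤ lam) :
    ∃ t : ℝ, 10 ^ 12 ≤ t ∧ t ^ 5 = lam ∧ lam ^ (-(1 / 5 : ℝ)) = 1 / t := by
  have h := num_big hlam
  have h0 : (0 : ℝ) < lam := lt_of_lt_of_le (by norm_num) h
  refine ⟨lam ^ (1 / 5 : ℝ), ?_, ?_, ?_⟩
  · have e : (10 : ℝ) ^ 12 = ((10 : ℝ) ^ 60) ^ (1 / 5 : ℝ) := by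
      have e2 : ((10 : ℝ) ^ 60) = ((10 : ℝ) ^ 12) ^ (5 : ℕ) := by norm_num
      rw [e2, ← Real.rpow_natCast (((10 : ℝ) ^ 12)) 5, ← Real.rpow_mul (by norm_num)]
      norm_num
    rw [e]
    exact Real.rpow_le_rpow (by norm_num) hlam (by norm_num)
  · rw [← Real.rpow_natCast, ← Real.rpow_mul h0.le]
    norm_num
  · rw [Real.rpow_neg h0.le, one_div (lam ^ (1 / 5 : ℝ))]

theorem num_tau {lam : ℝ} (hlam : 10 ^ 60 ≤ lam) : 0 < lam ^ (-(1 / 5 : ℝ)) ∧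
    lam ^ (-(1 / 5 : ℝ)) ≤ 1 / 10 ∧
    ∀ B : ℝ, lam / 450 ≤ B → 4 ≤ B * lam ^ (-(1 / 5 : ℝ)) := by
  obtain ⟨t, ht, ht5, e⟩ := num_t hlam
  have ht0 : 0 < t := lt_of_lt_of_le (by norm_num) ht
  rw [e]
  refine ⟨by positivity, ?_, ?_⟩
  · apply one_div_le_one_div_of_le (by norm_num)
    exact le_trans (by norm_num) ht
  · intro B hB
    rw [mul_one_div, le_div_iff₀ ht0]
    have h1 : (10 ^ 12 : ℝ) ^ 4 ≤ t ^ 4 := pow_le_pow_left₀ (by norm_num) ht 4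
    have h2 : (1800 : ℝ) ≤ (10 ^ 12 : ℝ) ^ 4 := by norm_num
    have h3 : 1800 * t ≤ t ^ 4 * t := mul_le_mul_of_nonneg_right (h2.trans h1) ht0.le
    have h4 : t ^ 4 * t = lam := by rw [← ht5]; ring
    rw [h4] at h3
    linarith

private theorem num_B {lam : ℝ} (hlam : 10 ^ 60 ≤ lam) {B : ℝ} (hB : lam / 450 ≤ B) :
    0 ≤ 1 / (B - 1) ∧ 1 / (B - 1) ≤ 500 / lam := by
  have h := num_big hlam
  have h0 : (0 : ℝ) < lam := lt_of_lt_of_le (by norm_num) h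
  have h1 : lam / 500 ≤ B - 1 := by
    have : (4500 : ℝ) ≤ 10 ^ 12 := by norm_num
    linarith
  have h2 : 0 < lam / 500 := by positivity
  have h3 : 0 < B - 1 := lt_of_lt_of_le h2 h1
  refine ⟨by positivity, ?_⟩
  have h4 := one_div_le_one_div_of_le h2 h1
  rwa [one_div_div] at h4

/-- common form of the last two inequalities -/
private theorem num_core {lam : ℝ} (hlam : 10 ^ 60 ≤ lam) {B : ℝ} (hB : lam / 450 ≤ B) (j : ℕ)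
    {u : ℝ} (hu : 0 < u) (hq : (500 / lam) ^ 3 * (2 * lam) ^ 2 * u ≤ 1) :
    (1 / (B - 1)) ^ (3 * 2 ^ j) * ((lam + 3) ^ (2 * 2 ^ j) * u ^ (2 ^ j)) ≤ 1 := by
  have h := num_big hlam
  have h0 : (0 : ℝ) < lam := lt_of_lt_of_le (by norm_num) h
  obtain ⟨b1, b2⟩ := num_B hlam hB
  have hd := num_den hlam (2 * 2 ^ j)
  have h1 : (1 / (B - 1)) ^ (3 * 2 ^ j) ≤ (500 / lam) ^ (3 * 2 ^ j) := pow_le_pow_left₀ b1 b2 _
  have h2 : (lam + 3) ^ (2 * 2 ^ j) * u ^ (2 ^ j) ≤ (2 * lam) ^ (2 * 2 ^ j) * u ^ (2 ^ j) :=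
    mul_le_mul_of_nonneg_right hd.2 (by positivity)
  have h3 : (1 / (B - 1)) ^ (3 * 2 ^ j) * ((lam + 3) ^ (2 * 2 ^ j) * u ^ (2 ^ j)) ≤
      (500 / lam) ^ (3 * 2 ^ j) * ((2 * lam) ^ (2 * 2 ^ j) * u ^ (2 ^ j)) := by
    have := hd.1
    exact mul_le_mul h1 h2 (by positivity) (by positivity)
  refine h3.trans ?_
  have e : (500 / lam) ^ (3 * 2 ^ j) * ((2 * lam) ^ (2 * 2 ^ j) * u ^ (2 ^ j)) =
      ((500 / lam) ^ 3 * (2 * lam) ^ 2 * u) ^ (2 ^ j) := by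
    rw [mul_pow ((500 / lam) ^ 3 * (2 * lam) ^ 2) u, mul_pow ((500 / lam) ^ 3) ((2 * lam) ^ 2),
      ← pow_mul (500 / lam), ← pow_mul (2 * lam)]
    ring
  rw [e]
  exact pow_le_one₀ (by positivity) hq

theorem num_cross {lam : ℝ} (hlam : 10 ^ 60 ≤ lam) {B : ℝ} (hB : lam / 450 ≤ B) {j : ℕ}
    (hj : 1 ≤ j) :
    2 * (1 / (B - 1)) ^ (3 * 2 ^ j) ≤
      dlt lam j / 2 * (lam ^ (-(1 / 5 : ℝ))) ^ (4 * 2 ^ j + 1) := by
  obtain ⟨t, ht, ht5, e⟩ := num_t hlam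
  have ht0 : 0 < t := lt_of_lt_of_le (by norm_num) ht
  have h0 : (0 : ℝ) < lam := by rw [← ht5]; positivity
  have hq : (500 / lam) ^ 3 * (2 * lam) ^ 2 * t ^ 4 ≤ 1 := by
    have e1 : (500 / lam) ^ 3 * (2 * lam) ^ 2 * t ^ 4 = 5 * 10 ^ 8 / t := by
      rw [← ht5]
      field_simp
      norm_num
    rw [e1, div_le_one ht0]
    refine le_trans ?_ ht
    norm_num
  have h1 := num_core hlam hB j (u := t ^ 4) (by positivity) hq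
  have hd := (num_den hlam (2 * 2 ^ j)).1
  rw [e, div_pow (1 : ℝ) t, one_pow]
  unfold dlt
  have e2 : lam / (10 * (lam + 3) ^ (2 * 2 ^ j)) / 2 * (1 / t ^ (4 * 2 ^ j + 1)) =
      lam / (20 * (lam + 3) ^ (2 * 2 ^ j) * t ^ (4 * 2 ^ j + 1)) := by
    field_simp
    norm_num
  rw [e2, le_div_iff₀ (by positivity)]
  have e3 : t ^ (4 * 2 ^ j + 1) = (t ^ 4) ^ (2 ^ j) * t := by
    rw [pow_succ, pow_mul]
  rw [e3]
  have h2 : 40 * t ≤ lam := by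
    rw [← ht5]
    have h3 : (10 ^ 12 : ℝ) ^ 4 ≤ t ^ 4 := pow_le_pow_left₀ (by norm_num) ht 4
    have h4 : (40 : ℝ) ≤ (10 ^ 12 : ℝ) ^ 4 := by norm_num
    have h5 : 40 * t ≤ t ^ 4 * t := mul_le_mul_of_nonneg_right (h4.trans h3) ht0.le
    calc 40 * t ≤ t ^ 4 * t := h5
      _ = t ^ 5 := by ring
  calc 2 * (1 / (B - 1)) ^ (3 * 2 ^ j) *
      (20 * (lam + 3) ^ (2 * 2 ^ j) * ((t ^ 4) ^ (2 ^ j) * t))
      = 40 * t * ((1 / (B - 1)) ^ (3 * 2 ^ j) *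
        ((lam + 3) ^ (2 * 2 ^ j) * (t ^ 4) ^ (2 ^ j))) := by ring
    _ ≤ 40 * t * 1 := mul_le_mul_of_nonneg_left h1 (by positivity)
    _ ≤ lam := by linarith

theorem num_small {lam : ℝ} (hlam : 10 ^ 60 ≤ lam) {B : ℝ} (hB : lam / 450 ≤ B) {j : ℕ}
    (hj : 1 ≤ j) :
    2 * (1 / (B - 1)) ^ (3 * 2 ^ j) ≤ dlt lam j * (1 / 4) ^ (2 ^ j) := by
  have h := num_big hlam
  have h0 : (0 : ℝ) < lam := lt_of_lt_of_le (by norm_num) h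
  have hq : (500 / lam) ^ 3 * (2 * lam) ^ 2 * 4 ≤ 1 := by
    have e1 : (500 / lam) ^ 3 * (2 * lam) ^ 2 * 4 = 2 * 10 ^ 9 / lam := by
      field_simp
      norm_num
    rw [e1, div_le_one h0]
    refine le_trans ?_ h
    norm_num
  have h1 := num_core hlam hB j (u := 4) (by norm_num) hq
  have hd := (num_den hlam (2 * 2 ^ j)).1
  rw [div_pow (1 : ℝ) 4, one_pow]
  unfold dlt
  have e2 : lam / (10 * (lam + 3) ^ (2 * 2 ^ j)) * (1 / 4 ^ (2 ^ j)) =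
      lam / (10 * (lam + 3) ^ (2 * 2 ^ j) * 4 ^ (2 ^ j)) := by
    field_simp
  rw [e2, le_div_iff₀ (by positivity)]
  have h2 : (20 : ℝ) ≤ lam := le_trans (by norm_num) h
  calc 2 * (1 / (B - 1)) ^ (3 * 2 ^ j) * (10 * (lam + 3) ^ (2 * 2 ^ j) * 4 ^ (2 ^ j))
      = 20 * ((1 / (B - 1)) ^ (3 * 2 ^ j) * ((lam + 3) ^ (2 * 2 ^ j) * 4 ^ (2 ^ j))) := by ring
    _ ≤ 20 * 1 := mul_le_mul_of_nonneg_left h1 (by norm_num)
    _ ≤ lam := by linarith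

end Pool.Agent.MP31f1e8.AL
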