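import Pool.Agent.Lib.MP_31f1e8_mp.AL.Comp
import Pool.Agent.Lib.MP_31f1e8_mp.AL.Num

/-!
# AL: density of the span of the eigenvectors in `ℓ²(ℤ)`

JOB AL-Dense. The closed span contains `lp.single 2 m 1` for every `m`: given `ε > 0` take `K`, `u`,
`E`, `C` from `hcomp m ε`. The sequences `n ↦ (u l n : ℂ)` are in `ℓ²` (`C ρ ^ (hat n)`, `ρ ≤ 1/10`)
and in `expEig lam p` (eigenvalue `E l - 2`; `ρ ^ (hat n) ≤ ρ ^ (|n| - 1) = ρ⁻¹ lam ^ (-|n| / 5)`
since `hat n ≥ |n| - 1`). `∑_l (u l m) • u l` is in the span and its distance to `δ_m` is `≤ ε`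
(`lp.norm_le_of_forall_sum_le` / `lp.norm_rpow_eq_tsum` and the bound of the finite sums).
Then the closed span contains all `lp.single 2 m a` and by `lp.hasSum_single` everything.
-/

namespace Pool.Agent.MP31f1e8.AL

open Finset

private theorem hat_nat (n : ℕ) : hat (n : ℤ) = n := by
  simp [hat]

private theorem hat_neg (n : ℕ) : hat (-((n : ℤ) + 1)) = n := by
  unfold hat
  rw [if_neg (by omega)]
  omega

private theorem rho_bounds {lam : ℝ} (hlam : 10 ^ 60 ≤ lam) :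
    0 < lam ^ (-(1 / 5 : ℝ)) ∧ lam ^ (-(1 / 5 : ℝ)) < 1 := by
  have h1 : (1 : ℝ) < lam := lt_of_lt_of_le (by norm_num) hlam
  exact ⟨Real.rpow_pos_of_pos (by linarith) _, Real.rpow_lt_one_of_one_lt_of_neg h1 (by norm_num)⟩

private theorem memlp_aux {v : ℤ → ℝ} {C ρ : ℝ} (h0 : 0 < ρ) (h1 : ρ < 1)
    (hv : ∀ n, |v n| ≤ C * ρ ^ hat n) : Memℓp (fun n : ℤ => ((v n : ℝ) : ℂ)) 2 := by
  refine memℓp_gen ?_
  have hsum : Summable fun n : ℤ => C ^ 2 * (ρ ^ hat n) ^ 2 := by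
    have hg : Summable fun n : ℕ => C ^ 2 * (ρ ^ n) ^ 2 := by
      refine Summable.mul_left _ ?_
      have : (fun n : ℕ => (ρ ^ n) ^ 2) = fun n : ℕ => (ρ ^ 2) ^ n := by
        funext n
        rw [← pow_mul, ← pow_mul, mul_comm]
      rw [this]
      exact summable_geometric_of_lt_one (by positivity) (by nlinarith)
    refine Summable.of_nat_of_neg_add_one ?_ ?_
    · simpa only [hat_nat] using hg
    · simpa only [hat_neg] using hg
  refine Summable.of_nonneg_of_le (fun n => by positivity) (fun n => ?_) hsum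
  have h2 : ‖((v n : ℝ) : ℂ)‖ ≤ C * ρ ^ hat n := by
    rw [Complex.norm_real, Real.norm_eq_abs]
    exact hv n
  have h3 : (2 : ENNReal).toReal = ((2 : ℕ) : ℝ) := by norm_num
  rw [h3, Real.rpow_natCast, ← mul_pow]
  exact pow_le_pow_left₀ (norm_nonneg _) h2 2

private theorem exp_bound {lam : ℝ} (hlam : 10 ^ 60 ≤ lam) (n : ℤ) :
    (lam ^ (-(1 / 5 : ℝ))) ^ hat n ≤ lam ^ ((1 : ℝ) / 5) * lam ^ (-(|(n : ℝ)| / 5)) := by
  have h1 : (1 : ℝ) < lam := lt_of_lt_of_le (by norm_num) hlam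
  have h0 : (0 : ℝ) < lam := by linarith
  rw [← Real.rpow_natCast, ← Real.rpow_mul h0.le, ← Real.rpow_add h0]
  refine Real.rpow_le_rpow_of_exponent_le h1.le ?_
  have h2 : |(n : ℝ)| ≤ (hat n : ℝ) + 1 := by
    unfold hat
    split_ifs with h
    · have h3 : ((n.toNat : ℕ) : ℝ) = (n : ℝ) := by
        have : ((n.toNat : ℕ) : ℤ) = n := Int.toNat_of_nonneg h
        exact_mod_cast congrArg (fun z : ℤ => (z : ℝ)) this
      rw [h3, abs_of_nonneg (by exact_mod_cast h)]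
      linarith
    · have h3 : (((-1 - n).toNat : ℕ) : ℝ) = -1 - (n : ℝ) := by
        have : (((-1 - n).toNat : ℕ) : ℤ) = -1 - n := Int.toNat_of_nonneg (by omega)
        have h4 := congrArg (fun z : ℤ => (z : ℝ)) this
        push_cast at h4
        exact_mod_cast h4
      rw [h3, abs_of_neg (by exact_mod_cast (not_le.1 h))]
      linarith
  nlinarith

theorem dense_of_complete {lam : ℝ} (hlam : 10 ^ 60 ≤ lam) {p : Real.Angle × Real.Angle}
    {x : ℤ → ℝ} (hx : ∀ n : ℤ, ((stdMap lam ^ n) p).1.cos = Real.cos (x n))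
    (hcomp : ∀ m : ℤ, ∀ ε > 0, ∃ (K : ℕ) (u : Fin K → ℤ → ℝ) (E : Fin K → ℝ) (C : ℝ),
      (∀ l n, u l (n + 1) + u l (n - 1) + pot lam x n * u l n = E l * u l n) ∧
      (∀ l n, |u l n| ≤ C * (lam ^ (-(1 / 5 : ℝ))) ^ hat n) ∧
      ∀ F : Finset ℤ, ∑ n ∈ F, ((if n = m then 1 else 0) - ∑ l, u l m * u l n) ^ 2 ≤ ε ^ 2) :
    (Submodule.span ℂ (expEig lam p)).topologicalClosure = ⊤ := by
  have hp2 : 0 < (2 : ENNReal).toReal := by norm_num
  have hp3 : (2 : ENNReal).toReal = ((2 : ℕ) : ℝ) := by norm_num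
  obtain ⟨hr0, hr1⟩ := rho_bounds hlam
  have hlam0 : (0 : ℝ) < lam := lt_of_lt_of_le (by norm_num) hlam
  -- approximation of the unit vectors
  have key : ∀ m : ℤ, ∀ ε > 0, ∃ w ∈ Submodule.span ℂ (expEig lam p),
      ‖(lp.single 2 m (1 : ℂ) : lp (fun _ : ℤ => ℂ) 2) - w‖ ≤ ε := by
    intro m ε hε
    obtain ⟨K, u, E, C, h1, h2, h3⟩ := hcomp m ε hε
    set e : Fin K → lp (fun _ : ℤ => ℂ) 2 := fun l => ⟨fun n => ((u l n : ℝ) : ℂ), memlp_aux hr0 hr1 (h2 l)⟩ with he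
    have hen : ∀ l n, (e l : ℤ → ℂ) n = ((u l n : ℝ) : ℂ) := fun l n => rfl
    have hmem : ∀ l, e l ∈ expEig lam p := by
      intro l
      refine ⟨⟨E l - 2, fun n => ?_⟩, ⟨|C| * lam ^ ((1 : ℝ) / 5), fun n => ?_⟩⟩
      · rw [hen, hen, hen, hx n]
        have h4 := h1 l n
        unfold pot at h4
        have h5 : (((u l (n + 1) + u l (n - 1) + lam * Real.cos (x n) * u l n : ℝ)) : ℂ)
            = ((E l * u l n : ℝ) : ℂ) := congrArg _ h4
        push_cast at h5 ⊢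
        linear_combination h5
      · rw [hen, Complex.norm_real, Real.norm_eq_abs]
        calc |u l n| ≤ C * (lam ^ (-(1 / 5 : ℝ))) ^ hat n := h2 l n
          _ ≤ |C| * (lam ^ (-(1 / 5 : ℝ))) ^ hat n :=
            mul_le_mul_of_nonneg_right (le_abs_self C) (by positivity)
          _ ≤ |C| * (lam ^ ((1 : ℝ) / 5) * lam ^ (-(|(n : ℝ)| / 5))) :=
            mul_le_mul_of_nonneg_left (exp_bound hlam n) (abs_nonneg C)
          _ = |C| * lam ^ ((1 : ℝ) / 5) * lam ^ (-(|(n : ℝ)| / 5)) := by ring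
    refine ⟨∑ l, ((u l m : ℝ) : ℂ) • e l, ?_, ?_⟩
    · exact Submodule.sum_mem _ fun l _ => Submodule.smul_mem _ _ (Submodule.subset_span (hmem l))
    · refine lp.norm_le_of_forall_sum_le hp2 hε.le fun F => ?_
      have hval : ∀ n : ℤ, ((lp.single 2 m (1 : ℂ) : lp (fun _ : ℤ => ℂ) 2) - ∑ l, ((u l m : ℝ) : ℂ) • e l : lp (fun _ : ℤ => ℂ) 2) n
          = (((if n = m then 1 else 0) - ∑ l, u l m * u l n : ℝ) : ℂ) := by
        intro n
        rw [lp.coeFn_sub, Pi.sub_apply, lp.coeFn_sum, Finset.sum_apply, lp.single_apply]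
        push_cast
        congr 1
        · by_cases hnm : n = m
          · subst hnm
            simp
          · rw [Pi.single_eq_of_ne hnm, if_neg hnm, Complex.ofReal_zero]
      rw [hp3, Real.rpow_natCast]
      refine le_trans (le_of_eq ?_) (h3 F)
      refine Finset.sum_congr rfl fun n _ => ?_
      rw [hval n, Complex.norm_real, Real.norm_eq_abs, Real.rpow_natCast, sq_abs]
  have hsingle : ∀ m : ℤ, (lp.single 2 m (1 : ℂ) : lp (fun _ : ℤ => ℂ) 2) ∈
      (Submodule.span ℂ (expEig lam p)).topologicalClosure := by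
    intro m
    rw [← SetLike.mem_coe, Submodule.topologicalClosure_coe, Metric.mem_closure_iff]
    intro ε hε
    obtain ⟨w, hw, hw2⟩ := key m (ε / 2) (by linarith)
    exact ⟨w, hw, by rw [dist_eq_norm]; linarith⟩
  rw [eq_top_iff]
  intro f _
  have hf := lp.hasSum_single (E := fun _ : ℤ => ℂ) (p := 2) (by norm_num) f
  have hcl : IsClosed ((Submodule.span ℂ (expEig lam p)).topologicalClosure : Set (lp (fun _ : ℤ => ℂ) 2)) :=
    Submodule.isClosed_topologicalClosure _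
  refine hcl.mem_of_tendsto hf (Filter.Eventually.of_forall fun F => ?_)
  refine Submodule.sum_mem _ fun m _ => ?_
  have h5 : (lp.single 2 m (f m) : lp (fun _ : ℤ => ℂ) 2) = f m • lp.single 2 m (1 : ℂ) := by
    rw [← lp.single_smul, smul_eq_mul, mul_one]
  rw [h5]
  exact Submodule.smul_mem _ _ (hsingle m)

end Pool.Agent.MP31f1e8.AL
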