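import Pool.Agent.Lib.MP_31f1e8_mp.AL.Defs

/-!
# AL: digits of real numbers

JOB AL-Dig. `dg N y k` is the `k`-th digit of `y ∈ [0, 1)` in base `N`. With
`F k = ⌊y * N ^ k⌋₊` one has `F (k + 1) / N = F k` (`Nat.floor_div_natCast`), so
`F (k + 1) = N * F k + dg N y k`, and numbers whose first `X` digits agree have the same `F X`
(`F 0 = 0`), so `|y - y'| ≤ 1 / N ^ X`. A set of pairs in `[0, 1)²` whose digits are prescribed
(first `X` digits of both coordinates) lies in a product of two sets of diameter `≤ 1 / N ^ X`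
(`Real.volume_le_diam`, `Measure.prod_prod`, `Measure.volume_eq_prod`), or in a square
`Icc (F / N ^ X) ((F + 1) / N ^ X) ×ˢ ...`.
-/

namespace Pool.Agent.MP31f1e8.AL

open Finset MeasureTheory

/-- the digit number `k` of `y` in base `N` -/
noncomputable def dg (N : ℕ) (y : ℝ) (k : ℕ) : ℕ := ⌊y * (N : ℝ) ^ (k + 1)⌋₊ % N

theorem dg_lt {N : ℕ} (hN : 0 < N) (y : ℝ) (k : ℕ) : dg N y k < N := Nat.mod_lt _ hN

private theorem fl_succ {N : ℕ} (hN : 0 < N) (y : ℝ) (k : ℕ) :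
    ⌊y * (N : ℝ) ^ (k + 1)⌋₊ = N * ⌊y * (N : ℝ) ^ k⌋₊ + dg N y k := by
  have hN' : (N : ℝ) ≠ 0 := by positivity
  have h1 : y * (N : ℝ) ^ k = y * (N : ℝ) ^ (k + 1) / N := by
    rw [pow_succ]; field_simp
  have h2 : ⌊y * (N : ℝ) ^ k⌋₊ = ⌊y * (N : ℝ) ^ (k + 1)⌋₊ / N := by
    rw [h1, Nat.floor_div_natCast]
  rw [h2]
  unfold dg
  exact (Nat.div_add_mod _ _).symm

private theorem fl_eq {N : ℕ} (hN : 0 < N) {y y' : ℝ} (hy : y ∈ Set.Ico (0 : ℝ) 1)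
    (hy' : y' ∈ Set.Ico (0 : ℝ) 1) : ∀ {X : ℕ}, (∀ k < X, dg N y k = dg N y' k) →
    ⌊y * (N : ℝ) ^ X⌋₊ = ⌊y' * (N : ℝ) ^ X⌋₊
  | 0, _ => by
      simp only [pow_zero, mul_one]
      rw [Nat.floor_eq_zero.2 hy.2, Nat.floor_eq_zero.2 hy'.2]
  | X + 1, h => by
      rw [fl_succ hN y X, fl_succ hN y' X, h X (Nat.lt_succ_self X),
        fl_eq hN hy hy' (fun k hk => h k (Nat.lt_succ_of_lt hk))]

theorem dg_close {N : ℕ} (hN : 0 < N) {y y' : ℝ} (hy : y ∈ Set.Ico (0 : ℝ) 1)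
    (hy' : y' ∈ Set.Ico (0 : ℝ) 1) {X : ℕ} (h : ∀ k < X, dg N y k = dg N y' k) :
    |y - y'| ≤ 1 / (N : ℝ) ^ X := by
  have hNX : (0 : ℝ) < (N : ℝ) ^ X := by positivity
  have h1 := fl_eq hN hy hy' h
  have a1 := Nat.floor_le (mul_nonneg hy.1 hNX.le)
  have a2 := Nat.lt_floor_add_one (y * (N : ℝ) ^ X)
  have b1 := Nat.floor_le (mul_nonneg hy'.1 hNX.le)
  have b2 := Nat.lt_floor_add_one (y' * (N : ℝ) ^ X)
  rw [← h1] at b1 b2
  rw [le_div_iff₀ hNX]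
  have e : |y - y'| * (N : ℝ) ^ X = |y * (N : ℝ) ^ X - y' * (N : ℝ) ^ X| := by
    rw [← sub_mul, abs_mul, abs_of_pos hNX]
  rw [e, abs_le]
  constructor <;> linarith

theorem dg_eq {N : ℕ} (hN : 1 < N) {y y' : ℝ} (hy : y ∈ Set.Ico (0 : ℝ) 1)
    (hy' : y' ∈ Set.Ico (0 : ℝ) 1) (h : ∀ k, dg N y k = dg N y' k) : y = y' := by
  have h0 : Filter.Tendsto (fun X : ℕ => 1 / (N : ℝ) ^ X) Filter.atTop (nhds 0) := by
    simp only [one_div]
    exact (tendsto_pow_atTop_atTop_of_one_lt (by exact_mod_cast hN)).inv_tendsto_atTop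
  have h1 : |y - y'| ≤ 0 := ge_of_tendsto' h0
    (fun X => dg_close (by omega) hy hy' (fun k _ => h k))
  exact sub_eq_zero.1 (abs_nonpos_iff.1 h1)

theorem vol_words {N X : ℕ} (hN : 0 < N) (S : Finset ((Fin X → Fin N) × (Fin X → Fin N))) :
    volume {y : ℝ × ℝ | y ∈ Set.Ico (0 : ℝ) 1 ×ˢ Set.Ico (0 : ℝ) 1 ∧
      ∃ p ∈ S, ∀ k : Fin X, (p.1 k : ℕ) = dg N y.1 k ∧ (p.2 k : ℕ) = dg N y.2 k} ≤
      ENNReal.ofReal (S.card / (N : ℝ) ^ (2 * X)) := by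
  have hNX : (0 : ℝ) < (N : ℝ) ^ X := by positivity
  have key : ∀ w : Fin X → Fin N, volume {t : ℝ | t ∈ Set.Ico (0 : ℝ) 1 ∧
      ∀ k : Fin X, (w k : ℕ) = dg N t k} ≤ ENNReal.ofReal (1 / (N : ℝ) ^ X) := by
    intro w
    refine le_trans (Real.volume_le_diam _) ?_
    apply Metric.ediam_le
    intro a ha b hb
    rw [edist_dist, Real.dist_eq]
    apply ENNReal.ofReal_le_ofReal
    refine dg_close hN ha.1 hb.1 ?_
    intro k hk
    rw [← ha.2 ⟨k, hk⟩, ← hb.2 ⟨k, hk⟩]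
  have hsub : {y : ℝ × ℝ | y ∈ Set.Ico (0 : ℝ) 1 ×ˢ Set.Ico (0 : ℝ) 1 ∧
      ∃ p ∈ S, ∀ k : Fin X, (p.1 k : ℕ) = dg N y.1 k ∧ (p.2 k : ℕ) = dg N y.2 k} ⊆
      ⋃ p ∈ S, ({t : ℝ | t ∈ Set.Ico (0 : ℝ) 1 ∧ ∀ k : Fin X, (p.1 k : ℕ) = dg N t k} ×ˢ
        {t : ℝ | t ∈ Set.Ico (0 : ℝ) 1 ∧ ∀ k : Fin X, (p.2 k : ℕ) = dg N t k}) := by
    rintro y ⟨hy, p, hp, hk⟩
    simp only [Set.mem_iUnion]
    exact ⟨p, hp, ⟨hy.1, fun k => (hk k).1⟩, ⟨hy.2, fun k => (hk k).2⟩⟩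
  refine le_trans (measure_mono hsub) ?_
  refine le_trans (measure_biUnion_finset_le _ _) ?_
  refine le_trans (Finset.sum_le_sum (g := fun _ => ENNReal.ofReal (1 / (N : ℝ) ^ (2 * X))) ?_) ?_
  · intro p _
    rw [Measure.volume_eq_prod, Measure.prod_prod]
    refine le_trans (mul_le_mul' (key p.1) (key p.2)) ?_
    rw [← ENNReal.ofReal_mul (by positivity)]
    apply ENNReal.ofReal_le_ofReal
    rw [two_mul, pow_add, one_div, one_div, mul_inv]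
  · rw [Finset.sum_const, nsmul_eq_mul]
    rw [div_eq_mul_one_div (S.card : ℝ), ENNReal.ofReal_mul (by positivity),
      ENNReal.ofReal_natCast]

/-- the digits of the code of a pair of numbers -/
noncomputable def cod (N : ℕ) (y1 y2 : ℝ) (n : ℤ) : ℕ :=
  if 1 ≤ n then dg N y1 (n - 1).toNat else if n ≤ -2 then dg N y2 (-2 - n).toNat else 0

theorem cod_lt {N : ℕ} (hN : 0 < N) (y1 y2 : ℝ) (n : ℤ) : cod N y1 y2 n < N := by
  unfold cod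
  split_ifs
  · exact dg_lt hN _ _
  · exact dg_lt hN _ _
  · exact hN

theorem cod_rf (N : ℕ) (y1 y2 : ℝ) : rf (cod N y1 y2) = cod N y2 y1 := by
  funext n
  unfold rf cod
  by_cases h1 : 1 ≤ n
  · have e1 : ¬ (1 ≤ -1 - n) := by omega
    have e2 : -1 - n ≤ -2 := by omega
    have e3 : -2 - (-1 - n) = n - 1 := by omega
    simp only [e1, e2, h1, if_true, if_false, e3]
  · by_cases h2 : n ≤ -2
    · have e1 : 1 ≤ -1 - n := by omega
      have e3 : -1 - n - 1 = -2 - n := by omega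
      simp only [e1, h1, h2, if_true, if_false, e3]
    · have e1 : ¬ (1 ≤ -1 - n) := by omega
      have e2 : ¬ (-1 - n ≤ -2) := by omega
      simp only [e1, e2, h1, h2, if_false]

end Pool.Agent.MP31f1e8.AL
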