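import Pool.Agent.Lib.MP_31f1e8_mp.AL.Sep
import Pool.Agent.Lib.MP_31f1e8_mp.AL.Dig

/-!
# AL: the Hausdorff dimension

JOB AL-Dimh. `N = NN lam`, `s = log N / log (lam + 3) ∈ (0, 1]`, so `(lam + 3) ^ s = N`.

For `y, y' ∈ G` let `D = max |d 0| |d (-1)|`, `d = x y' - x y`. If `y.1 ≠ y'.1`, let `k` be the
first index with different digits (`dg_eq`), `n0 = k + 1`; by `sep`
`5 ≤ D (lam + 3) ^ (k + 2)`, so
`|y.1 - y'.1| ≤ N ^ (-k) = (lam + 3) ^ (-s k) = ((lam + 3) ^ (-(k + 2))) ^ s * N ^ 2 ≤ N ^ 2 D ^ s`.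
The same for `y.2` by `orb_rf`, `cod_rf` (the reflection exchanges the sites `0` and `-1`).
The torus distance: `|x 0 - x' 0| ≤ 2 π - 2 h` with `h = 4 / √lam` (`orb_abs`), and `abs_le_angle`
(file `Defs`): `h * |t| ≤ π * ‖t‖`. So `D ≤ (π / h) dist`.

`dim_orb`: the map from the image `A` of `G` to `ℝ × ℝ` that sends the point of `y` to `y` is well
defined and Hölder with exponent `s` (`HolderOnWith.dimH_image_le`), its image is `G`, and
`dimH G ≥ 2` because `μH[2] = volume` on `ℝ × ℝ` (`MeasureTheory.hausdorffMeasure_prod_real`) and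
`le_dimH_of_hausdorffMeasure_ne_zero`. See the theorem `dim_bound` in the file
`Pool/Agent/Lib/MP_31f1e8_mp/Dim.lean` (helper89) for a similar proof.
-/

namespace Pool.Agent.MP31f1e8.AL

open MeasureTheory
open scoped NNReal ENNReal

private theorem dimh_exp {lam : ℝ} (hlam : 10 ^ 60 ≤ lam) :
    0 < Real.log (NN lam) / Real.log (lam + 3) ∧
      (lam + 3) ^ (Real.log (NN lam) / Real.log (lam + 3)) = (NN lam : ℝ) := by
  obtain ⟨-, -, -, h4⟩ := NN_le hlam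
  have hl : (1 : ℝ) < lam + 3 := by
    have : (1 : ℝ) ≤ lam := le_trans (by norm_num) hlam
    linarith
  have hN : (1000 : ℝ) ≤ NN lam := by exact_mod_cast h4
  have hlog : 0 < Real.log (lam + 3) := Real.log_pos hl
  have hlogN : 0 < Real.log (NN lam) := Real.log_pos (by linarith)
  refine ⟨div_pos hlogN hlog, ?_⟩
  rw [Real.rpow_def_of_pos (by linarith), mul_div_cancel₀ _ hlog.ne', Real.exp_log (by linarith)]

private theorem dimh_one {lam : ℝ} (hlam : 10 ^ 60 ≤ lam) {z : Cen} (hz : z.Good lam)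
    {u v u' v' : ℝ} (hu : u ∈ Set.Ico (0 : ℝ) 1) (hu' : u' ∈ Set.Ico (0 : ℝ) 1)
    {x x' : ℤ → ℝ} (hx : Orb lam z (cod (NN lam) u v) x)
    (hx' : Orb lam z (cod (NN lam) u' v') x') :
    |u - u'| ≤ (NN lam : ℝ) ^ 2 * (max |x' 0 - x 0| |x' (-1) - x (-1)|) ^
      (Real.log (NN lam) / Real.log (lam + 3)) := by
  obtain ⟨-, -, -, h4⟩ := NN_le hlam
  obtain ⟨hs, hsN⟩ := dimh_exp hlam
  have h4' : 1000 ≤ NN lam := by exact_mod_cast h4
  have hN : (1000 : ℝ) ≤ NN lam := by exact_mod_cast h4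
  obtain ⟨s, hsd⟩ : ∃ s : ℝ, s = Real.log (NN lam) / Real.log (lam + 3) := ⟨_, rfl⟩
  rw [← hsd] at hs hsN ⊢
  obtain ⟨D, hD⟩ : ∃ D : ℝ, D = max |x' 0 - x 0| |x' (-1) - x (-1)| := ⟨_, rfl⟩
  have hD0 : 0 ≤ D := by rw [hD]; exact le_trans (abs_nonneg _) (le_max_left _ _)
  have hl : (1 : ℝ) ≤ lam := le_trans (by norm_num) hlam
  rw [← hD]
  by_cases huu : u = u'
  · rw [huu, sub_self, abs_zero]
    positivity
  · have hex : ∃ k, dg (NN lam) u k ≠ dg (NN lam) u' k := by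
      by_contra hcon
      push Not at hcon
      exact huu (dg_eq (by omega) hu hu' hcon)
    classical
    obtain ⟨k, hk⟩ : ∃ k, k = Nat.find hex := ⟨_, rfl⟩
    have hk1 : dg (NN lam) u k ≠ dg (NN lam) u' k := by rw [hk]; exact Nat.find_spec hex
    have hk2 : ∀ m < k, dg (NN lam) u m = dg (NN lam) u' m := by
      intro m hm
      have := Nat.find_min hex (m := m) (by omega)
      exact not_not.1 this
    have h5 := sep hlam hz hx hx' (n0 := (k : ℤ) + 1) (by omega) (by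
      intro n h1 h2
      unfold cod
      rw [if_pos h1, if_pos h1]
      exact hk2 _ (by omega)) (by
      unfold cod
      rw [if_pos (by omega), if_pos (by omega)]
      have : ((k : ℤ) + 1 - 1).toNat = k := by omega
      rw [this]
      exact hk1)
    have e1 : ((k : ℤ) + 1 + 1).toNat = k + 2 := by omega
    rw [e1, ← hD] at h5
    have h6 := dg_close (by omega) hu hu' hk2
    have hL : (0 : ℝ) < (lam + 3) ^ (k + 2) := by positivity
    have h7 : 1 / (lam + 3) ^ (k + 2) ≤ D := by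
      rw [div_le_iff₀ hL]
      linarith
    have h8 : (1 / (lam + 3) ^ (k + 2)) ^ s ≤ D ^ s :=
      Real.rpow_le_rpow (by positivity) h7 hs.le
    have h9 : (1 / (lam + 3) ^ (k + 2)) ^ s = 1 / (NN lam : ℝ) ^ (k + 2) := by
      rw [Real.div_rpow (by norm_num) hL.le, Real.one_rpow, ← Real.rpow_natCast (lam + 3),
        ← Real.rpow_mul (by linarith), mul_comm, Real.rpow_mul (by linarith), hsN,
        Real.rpow_natCast]
    rw [h9] at h8
    refine h6.trans (le_trans ?_ (mul_le_mul_of_nonneg_left h8 (by positivity)))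
    have hN0 : (NN lam : ℝ) ≠ 0 := by linarith
    apply le_of_eq
    rw [pow_add]
    field_simp

theorem dim_orb {lam : ℝ} (hlam : 10 ^ 60 ≤ lam) {z : Cen} (hz : z.Good lam) {G : Set (ℝ × ℝ)}
    (hG : G ⊆ Set.Ico (0 : ℝ) 1 ×ˢ Set.Ico (0 : ℝ) 1) (hpos : volume G ≠ 0)
    (x : ℝ × ℝ → ℤ → ℝ) (hx : ∀ y ∈ G, Orb lam z (cod (NN lam) y.1 y.2) (x y)) :
    ENNReal.ofReal (2 * (Real.log (NN lam) / Real.log (lam + 3))) ≤
      dimH ((fun y => ((x y 0 : Real.Angle), (x y (-1) : Real.Angle))) '' G) := by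
  classical
  obtain ⟨hs, hsN⟩ := dimh_exp hlam
  have hd := fun (u v u' v' : ℝ) (hu : u ∈ Set.Ico (0 : ℝ) 1) (hu' : u' ∈ Set.Ico (0 : ℝ) 1)
    (z : Cen) (hz : z.Good lam) (x x' : ℤ → ℝ) (hx : Orb lam z (cod (NN lam) u v) x)
    (hx' : Orb lam z (cod (NN lam) u' v') x') => dimh_one hlam hz hu hu' hx hx'
  obtain ⟨s, hsd⟩ : ∃ s : ℝ, s = Real.log (NN lam) / Real.log (lam + 3) := ⟨_, rfl⟩
  rw [← hsd] at hs hsN hd ⊢
  have hl : (1600 : ℝ) ≤ lam := le_trans (by norm_num) hlam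
  obtain ⟨q1, q2, q3, q4, -, -, -⟩ := param hl
  have hpi := Real.pi_gt_three
  obtain ⟨h, hhd⟩ : ∃ h : ℝ, h = 4 / √lam := ⟨_, rfl⟩
  rw [← hhd] at q3 q4
  obtain ⟨P, hP⟩ : ∃ P : ℝ × ℝ → Real.Angle × Real.Angle,
    P = fun y => ((x y 0 : Real.Angle), (x y (-1) : Real.Angle)) := ⟨_, rfl⟩
  rw [← hP]
  obtain ⟨C, hC⟩ : ∃ C : ℝ, C = (NN lam : ℝ) ^ 2 * (Real.pi / h) ^ s := ⟨_, rfl⟩
  have hC0 : 0 ≤ C := by
    rw [hC]
    positivity
  -- the main estimate
  have hmain : ∀ y ∈ G, ∀ y' ∈ G, dist y y' ≤ C * dist (P y) (P y') ^ s := by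
    intro y hy y' hy'
    have g1 := hG hy
    have g2 := hG hy'
    obtain ⟨D, hD⟩ : ∃ D : ℝ, D = dist (P y) (P y') := ⟨_, rfl⟩
    rw [← hD]
    have hD0 : 0 ≤ D := by rw [hD]; exact dist_nonneg
    have hang : ∀ n : ℤ, ‖((x y' n - x y n : ℝ) : Real.Angle)‖ ≤ D →
        |x y' n - x y n| ≤ Real.pi / h * D := by
      intro n hn
      have h0 := (orb_abs hlam hz (hx y hy) n).1
      have h0' := (orb_abs hlam hz (hx y' hy') n).1
      rw [← hhd] at h0 h0'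
      have h1 : |x y' n - x y n| ≤ 2 * Real.pi - 2 * h := by
        refine (abs_sub _ _).trans ?_
        linarith
      have h2 := abs_le_angle q3 (by linarith) h1
      rw [div_mul_eq_mul_div, le_div_iff₀ q3]
      nlinarith
    have hd0 : |x y' 0 - x y 0| ≤ Real.pi / h * D := by
      apply hang
      rw [Real.Angle.coe_sub, ← dist_eq_norm, dist_comm, hD, hP]
      exact le_max_left _ _
    have hd1 : |x y' (-1) - x y (-1)| ≤ Real.pi / h * D := by
      apply hang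
      rw [Real.Angle.coe_sub, ← dist_eq_norm, dist_comm, hD, hP]
      exact le_max_right _ _
    have hmx : (max |x y' 0 - x y 0| |x y' (-1) - x y (-1)|) ^ s ≤
        (Real.pi / h) ^ s * D ^ s := by
      rw [← Real.mul_rpow (by positivity) hD0]
      exact Real.rpow_le_rpow (le_trans (abs_nonneg _) (le_max_left _ _)) (max_le hd0 hd1) hs.le
    have hf := hd _ _ _ _ g1.1 g2.1 z hz _ _ (hx y hy) (hx y' hy')
    have hr := orb_rf (hx y hy)
    have hr' := orb_rf (hx y' hy')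
    rw [cod_rf] at hr hr'
    have hb := hd _ _ _ _ g1.2 g2.2 z.refl (good_rf hz) _ _ hr hr'
    have er : ∀ w : ℤ → ℝ, rf w 0 = w (-1) ∧ rf w (-1) = w 0 := by
      intro w
      constructor
      · show w (-1 - 0) = w (-1)
        rw [sub_zero]
      · show w (-1 - -1) = w 0
        rw [sub_self]
    rw [(er _).1, (er _).2, (er _).1, (er _).2, max_comm] at hb
    have hmul := mul_le_mul_of_nonneg_left hmx (by positivity : (0 : ℝ) ≤ (NN lam : ℝ) ^ 2)
    have e : C * D ^ s = (NN lam : ℝ) ^ 2 * ((Real.pi / h) ^ s * D ^ s) := by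
      rw [hC]
      ring
    rw [e]
    exact max_le (hf.trans hmul) (hb.trans hmul)
  -- the inverse of the coding map
  obtain ⟨Q, hQ⟩ : ∃ Q : Real.Angle × Real.Angle → ℝ × ℝ, Q = Function.invFunOn P G := ⟨_, rfl⟩
  have hQ1 : ∀ w ∈ P '' G, Q w ∈ G ∧ P (Q w) = w := by
    rintro w ⟨y, hy, rfl⟩
    rw [hQ]
    exact ⟨Function.invFunOn_mem ⟨y, hy, rfl⟩, Function.invFunOn_eq ⟨y, hy, rfl⟩⟩
  have hQ2 : G ⊆ Q '' (P '' G) := by
    intro y hy
    refine ⟨P y, ⟨y, hy, rfl⟩, ?_⟩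
    obtain ⟨h1, h2⟩ := hQ1 (P y) ⟨y, hy, rfl⟩
    have h3 := hmain _ h1 _ hy
    rw [h2, dist_self, Real.zero_rpow hs.ne', mul_zero] at h3
    exact dist_le_zero.1 h3
  obtain ⟨s', hs'⟩ : ∃ s' : ℝ≥0, (s' : ℝ) = s := ⟨⟨s, hs.le⟩, rfl⟩
  obtain ⟨C', hC'⟩ : ∃ C' : ℝ≥0, (C' : ℝ) = C := ⟨⟨C, hC0⟩, rfl⟩
  have hs0' : 0 < s' := by
    have : (0 : ℝ) < (s' : ℝ) := by rw [hs']; exact hs
    exact_mod_cast this
  have hhol : HolderOnWith C' s' Q (P '' G) := by
    intro w hw w' hw'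
    obtain ⟨h1, h2⟩ := hQ1 w hw
    obtain ⟨h3, h4⟩ := hQ1 w' hw'
    have h5 := hmain _ h1 _ h3
    rw [h2, h4] at h5
    rw [edist_dist, edist_dist, hs']
    calc ENNReal.ofReal (dist (Q w) (Q w')) ≤ ENNReal.ofReal (C * dist w w' ^ s) :=
          ENNReal.ofReal_le_ofReal h5
      _ = ENNReal.ofReal C * ENNReal.ofReal (dist w w') ^ s := by
          rw [ENNReal.ofReal_mul hC0, ENNReal.ofReal_rpow_of_nonneg dist_nonneg hs.le]
      _ = _ := by
          rw [← hC', ENNReal.ofReal_coe_nnreal]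
  have hdG : (2 : ℝ≥0∞) ≤ dimH G := by
    have h1 : Measure.hausdorffMeasure (X := ℝ × ℝ) ((2 : ℝ≥0) : ℝ) G ≠ 0 := by
      have e : ((2 : ℝ≥0) : ℝ) = 2 := by norm_num
      rw [e, hausdorffMeasure_prod_real]
      exact hpos
    have h2 := le_dimH_of_hausdorffMeasure_ne_zero h1
    simpa using h2
  have h1 : dimH (Q '' (P '' G)) ≤ dimH (P '' G) / (s' : ℝ≥0∞) :=
    hhol.dimH_image_le hs0'
  have h2 : (2 : ℝ≥0∞) ≤ dimH (P '' G) / (s' : ℝ≥0∞) :=
    hdG.trans ((dimH_mono hQ2).trans h1)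
  have h3 : 2 * (s' : ℝ≥0∞) ≤ dimH (P '' G) :=
    ENNReal.mul_le_of_le_div h2
  refine le_trans (le_of_eq ?_) h3
  rw [ENNReal.ofReal_mul (by norm_num), ← hs', ENNReal.ofReal_coe_nnreal]
  simp

end Pool.Agent.MP31f1e8.AL
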