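import Pool.Agent.Lib.MP_31f1e8_mp.AL.Win

/-!
# AL: the value of the dimension

JOB AL-Dimn. `N ≥ lam / 1001` (`NN_le`), so `log N ≥ log lam - 7` (`e ^ 7 ≥ 1001`), and
`log (lam + 3) ≤ log lam + 3 / lam ≤ log lam + 1 / 2`. With `l = log lam ≥ 100`:
`2 (l - 7) / (l + 1 / 2) ≥ 2 - 16 / l` because `2 (l - 7) l ≥ (2 l - 16) (l + 1 / 2)`, that is
`-14 l ≥ -15 l - 8`.
-/

namespace Pool.Agent.MP31f1e8.AL

private theorem Dimn_exp7 : (1001 : ℝ) ≤ Real.exp 7 := by
  have h1 : Real.exp 7 = Real.exp 1 ^ 7 := by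
    rw [← Real.exp_nat_mul]
    norm_num
  rw [h1]
  have h2 := Real.exp_one_gt_d9
  calc (1001 : ℝ) ≤ 2.718 ^ 7 := by norm_num
    _ ≤ Real.exp 1 ^ 7 := pow_le_pow_left₀ (by norm_num) (by linarith) 7

private theorem Dimn_log {lam : ℝ} (hlam : 10 ^ 60 ≤ lam) : 100 ≤ Real.log lam := by
  have h0 : (0 : ℝ) < lam := lt_of_lt_of_le (by norm_num) hlam
  rw [Real.le_log_iff_exp_le h0]
  have h1 : Real.exp 100 = Real.exp 1 ^ 100 := by
    rw [← Real.exp_nat_mul]
    norm_num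
  rw [h1]
  have h2 := Real.exp_one_lt_d9
  calc Real.exp 1 ^ 100 ≤ 3 ^ 100 := pow_le_pow_left₀ (Real.exp_pos 1).le (by linarith) 100
    _ ≤ 10 ^ 60 := by norm_num
    _ ≤ lam := hlam

theorem dim_num {lam : ℝ} (hlam : 10 ^ 60 ≤ lam) :
    2 - 16 / Real.log lam ≤ 2 * (Real.log (NN lam) / Real.log (lam + 3)) := by
  have h0 : (0 : ℝ) < lam := lt_of_lt_of_le (by norm_num) hlam
  have h6 : (6 : ℝ) ≤ lam := le_trans (by norm_num) hlam
  obtain ⟨-, -, hN, -⟩ := NN_le hlam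
  have hl := Dimn_log hlam
  obtain ⟨l, hl'⟩ : ∃ l, l = Real.log lam := ⟨_, rfl⟩
  rw [← hl'] at hl ⊢
  have a1 : l - 7 ≤ Real.log (NN lam) := by
    have h1 : Real.log (lam / 1001) ≤ Real.log (NN lam) := Real.log_le_log (by positivity) hN
    rw [Real.log_div h0.ne' (by norm_num), ← hl'] at h1
    have h2 : Real.log 1001 ≤ 7 := by
      rw [Real.log_le_iff_le_exp (by norm_num)]
      exact Dimn_exp7
    linarith
  have a2 : Real.log (lam + 3) ≤ l + 1 / 2 := by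
    have e : lam + 3 = lam * (1 + 3 / lam) := by
      field_simp
    rw [e, Real.log_mul h0.ne' (by positivity), ← hl']
    have h1 : Real.log (1 + 3 / lam) ≤ 3 / lam := by
      have := Real.log_le_sub_one_of_pos (show (0 : ℝ) < 1 + 3 / lam by positivity)
      linarith
    have h2 : 3 / lam ≤ 1 / 2 := by
      rw [div_le_div_iff₀ h0 (by norm_num)]
      linarith
    linarith
  have a3 : 0 < Real.log (lam + 3) := Real.log_pos (by linarith)
  have b1 : (l - 7) / (l + 1 / 2) ≤ Real.log (NN lam) / Real.log (lam + 3) :=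
    div_le_div₀ (by linarith) a1 a3 a2
  have b2 : 2 - 16 / l ≤ 2 * ((l - 7) / (l + 1 / 2)) := by
    have hl0 : 0 < l := by linarith
    have e1 : 2 - 16 / l = (2 * l - 16) / l := by
      field_simp
    have e2 : 2 * ((l - 7) / (l + 1 / 2)) = (2 * (l - 7)) / (l + 1 / 2) := by
      rw [mul_div_assoc]
    rw [e1, e2, div_le_div_iff₀ hl0 (by linarith)]
    nlinarith
  linarith

end Pool.Agent.MP31f1e8.AL
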