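import Pool.Agent.Lib.MP_31f1e8_mp.AL.Defs

/-!
# AL: finite volume eigenfunctions

JOB AL-Fv. The operator on `[a, b]` is the real symmetric matrix indexed by `Fin K`,
`K = (b + 1 - a).toNat`, with entries `V (a + l)` on the diagonal, `1` for neighbours. Everything
follows from the spectral theorem for real symmetric matrices (`Matrix.IsHermitian.eigenvectorBasis`
and `eigenvalues`); extend the eigenvectors by `0` to functions on `ℤ`.

* `eig_basis`: the orthonormal eigenbasis; the last statement says that the matrix of the basis is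
  orthogonal also in the other order (`∑ l, ψ l m * ψ l n = δ`).
* `inv_bound`: expand `f = ∑ a l • ψ l`; then `res V e f = ∑ (e l - e) a l • ψ l` on `[a, b]` (where
  `res` uses that `f` and the `ψ l` vanish outside of `[a, b]`), so
  `∑ res ^ 2 = ∑ (e l - e) ^ 2 (a l) ^ 2 ≥ δ ^ 2 ∑ (a l) ^ 2`. Without expansion: with
  `r n = res V e f n` and `a l = ∑ f n ψ l n`, `∑ r n ψ l n = (e l - e) a l` (symmetry).
-/

namespace Pool.Agent.MP31f1e8.AL

open Finset

/-- sums over intervals as sums over `Fin` -/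
private theorem fv_sum (a b : ℤ) (g : ℤ → ℝ) :
    ∑ n ∈ Icc a b, g n = ∑ i : Fin (b + 1 - a).toNat, g (a + ((i : ℕ) : ℤ)) := by
  have h : Icc a b = (Finset.range (b + 1 - a).toNat).map
      (Nat.castEmbedding.trans (addLeftEmbedding a)) := rfl
  rw [h, Finset.sum_map, Finset.sum_range]
  rfl

/-- extension by zero -/
private noncomputable def fvExt (a : ℤ) {K : ℕ} (u : Fin K → ℝ) (m : ℤ) : ℝ :=
  ∑ j : Fin K, if (a + ((j : ℕ) : ℤ)) = m then u j else 0

private theorem fvExt_at (a : ℤ) {K : ℕ} (u : Fin K → ℝ) (i : Fin K) :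
    fvExt a u (a + ((i : ℕ) : ℤ)) = u i := by
  unfold fvExt
  rw [Finset.sum_eq_single i]
  · simp
  · intro j _ hj
    rw [if_neg]
    intro h
    apply hj
    apply Fin.ext
    omega
  · intro h
    exact absurd (Finset.mem_univ i) h

private theorem fvExt_out {a b : ℤ} (u : Fin (b + 1 - a).toNat → ℝ) {m : ℤ} (h : m < a ∨ b < m) :
    fvExt a u m = 0 := by
  unfold fvExt
  apply Finset.sum_eq_zero
  intro j _
  rw [if_neg]
  have := j.2
  omega

/-- the index of a site -/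
private theorem fv_idx {a b n : ℤ} (h1 : a ≤ n) (h2 : n ≤ b) :
    ∃ i : Fin (b + 1 - a).toNat, n = a + ((i : ℕ) : ℤ) :=
  ⟨⟨(n - a).toNat, by omega⟩, by simp only; omega⟩

private theorem fvExt_self {a b : ℤ} {f : ℤ → ℝ} (hf : ∀ n, n < a ∨ b < n → f n = 0) :
    fvExt a (fun i : Fin (b + 1 - a).toNat => f (a + ((i : ℕ) : ℤ))) = f := by
  funext m
  by_cases h : m < a ∨ b < m
  · rw [fvExt_out _ h, hf m h]
  · obtain ⟨i, rfl⟩ := fv_idx (a := a) (b := b) (n := m) (by omega) (by omega)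
    rw [fvExt_at]

/-- the matrix of the operator -/
private noncomputable def fvT (V : ℤ → ℝ) (a : ℤ) (K : ℕ) : Matrix (Fin K) (Fin K) ℝ := fun i j =>
  (if (a + ((j : ℕ) : ℤ)) = a + ((i : ℕ) : ℤ) then V (a + ((i : ℕ) : ℤ)) else 0) +
    (if (a + ((j : ℕ) : ℤ)) = a + ((i : ℕ) : ℤ) + 1 then 1 else 0) +
    (if (a + ((j : ℕ) : ℤ)) = a + ((i : ℕ) : ℤ) - 1 then 1 else 0)

private theorem fvT_symm (V : ℤ → ℝ) (a : ℤ) (K : ℕ) (i j : Fin K) :
    fvT V a K i j = fvT V a K j i := by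
  unfold fvT
  by_cases h : i = j
  · subst h; rfl
  · have h' : (i : ℕ) ≠ (j : ℕ) := fun e => h (Fin.ext e)
    have e1 : ¬ (a + ((j : ℕ) : ℤ)) = a + ((i : ℕ) : ℤ) := by omega
    have e2 : ¬ (a + ((i : ℕ) : ℤ)) = a + ((j : ℕ) : ℤ) := by omega
    have e3 : ((a + ((j : ℕ) : ℤ)) = a + ((i : ℕ) : ℤ) + 1) ↔
        ((a + ((i : ℕ) : ℤ)) = a + ((j : ℕ) : ℤ) - 1) := by omega
    have e4 : ((a + ((j : ℕ) : ℤ)) = a + ((i : ℕ) : ℤ) - 1) ↔
        ((a + ((i : ℕ) : ℤ)) = a + ((j : ℕ) : ℤ) + 1) := by omega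
    rw [if_neg e1, if_neg e2]
    simp only [e3, e4]
    ring

private theorem fvT_herm (V : ℤ → ℝ) (a : ℤ) (K : ℕ) : (fvT V a K).IsHermitian := by
  ext i j
  rw [Matrix.conjTranspose_apply, star_trivial]
  exact fvT_symm V a K j i

private theorem fvT_mulVec (V : ℤ → ℝ) (a : ℤ) {K : ℕ} (u : Fin K → ℝ) (i : Fin K) :
    (fvT V a K).mulVec u i = fvExt a u (a + ((i : ℕ) : ℤ) + 1) + fvExt a u (a + ((i : ℕ) : ℤ) - 1) +
      V (a + ((i : ℕ) : ℤ)) * fvExt a u (a + ((i : ℕ) : ℤ)) := by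
  unfold fvExt
  rw [Finset.mul_sum, ← Finset.sum_add_distrib, ← Finset.sum_add_distrib]
  show ∑ j, fvT V a K i j * u j = _
  apply Finset.sum_congr rfl
  intro j _
  unfold fvT
  split_ifs <;> ring

private theorem fvT_fun {V : ℤ → ℝ} {a b : ℤ} {f : ℤ → ℝ} (hf : ∀ n, n < a ∨ b < n → f n = 0)
    (i : Fin (b + 1 - a).toNat) :
    f (a + ((i : ℕ) : ℤ) + 1) + f (a + ((i : ℕ) : ℤ) - 1) + V (a + ((i : ℕ) : ℤ)) * f (a + ((i : ℕ) : ℤ)) =
      (fvT V a (b + 1 - a).toNat).mulVec (fun i => f (a + ((i : ℕ) : ℤ))) i := by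
  rw [fvT_mulVec, fvExt_self hf]

private theorem fvT_dot (V : ℤ → ℝ) (a : ℤ) {K : ℕ} (u w : Fin K → ℝ) :
    ∑ i, (fvT V a K).mulVec u i * w i = ∑ i, u i * (fvT V a K).mulVec w i := by
  have h1 : ∀ i, (fvT V a K).mulVec u i * w i = ∑ j, fvT V a K i j * u j * w i := by
    intro i
    show (∑ j, fvT V a K i j * u j) * w i = _
    rw [Finset.sum_mul]
  have h2 : ∀ i, u i * (fvT V a K).mulVec w i = ∑ j, fvT V a K j i * u i * w j := by
    intro i
    show u i * (∑ j, fvT V a K i j * w j) = _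
    rw [Finset.mul_sum]
    apply Finset.sum_congr rfl
    intro j _
    rw [fvT_symm V a K j i]
    ring
  simp only [h1, h2]
  rw [Finset.sum_comm]

theorem eig_basis (V : ℤ → ℝ) {a b : ℤ} (hab : a ≤ b) :
    ∃ (ψ : Fin (b + 1 - a).toNat → ℤ → ℝ) (e : Fin (b + 1 - a).toNat → ℝ),
      (∀ l, EigF V a b (e l) (ψ l)) ∧ (∀ l, ∑ n ∈ Icc a b, ψ l n ^ 2 = 1) ∧
      (∀ l l', l ≠ l' → ∑ n ∈ Icc a b, ψ l n * ψ l' n = 0) ∧
      ∀ m ∈ Icc a b, ∀ n ∈ Icc a b, ∑ l, ψ l m * ψ l n = if m = n then 1 else 0 := by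
  have hT := fvT_herm V a (b + 1 - a).toNat
  set U : Matrix (Fin (b + 1 - a).toNat) (Fin (b + 1 - a).toNat) ℝ :=
    (hT.eigenvectorUnitary : Matrix (Fin (b + 1 - a).toNat) (Fin (b + 1 - a).toNat) ℝ) with hU
  have hU1 : star U * U = 1 := Unitary.coe_star_mul_self hT.eigenvectorUnitary
  have hU2 : U * star U = 1 := Unitary.coe_mul_star_self hT.eigenvectorUnitary
  have hUa : ∀ i l, U i l = (hT.eigenvectorBasis l) i := fun i l => hT.eigenvectorUnitary_apply i l
  have o1 : ∀ l l', ∑ i, U i l * U i l' = if l = l' then 1 else 0 := by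
    intro l l'
    have := congrFun (congrFun hU1 l) l'
    rw [Matrix.mul_apply, Matrix.one_apply] at this
    rw [← this]
    apply Finset.sum_congr rfl
    intro i _
    rw [Matrix.star_apply, star_trivial]
  have o2 : ∀ i j, ∑ l, U i l * U j l = if i = j then 1 else 0 := by
    intro i j
    have := congrFun (congrFun hU2 i) j
    rw [Matrix.mul_apply, Matrix.one_apply] at this
    rw [← this]
    apply Finset.sum_congr rfl
    intro l _
    rw [Matrix.star_apply, star_trivial]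
  refine ⟨fun l => fvExt a (fun i => U i l), fun l => hT.eigenvalues l, ?_, ?_, ?_, ?_⟩
  · intro l
    refine ⟨fun n hn => fvExt_out (b := b) _ hn, ?_⟩
    intro n h1 h2
    obtain ⟨i, rfl⟩ := fv_idx h1 h2
    show fvExt a (fun i => U i l) (a + ((i : ℕ) : ℤ) + 1) + fvExt a (fun i => U i l) (a + ((i : ℕ) : ℤ) - 1) +
      V (a + ((i : ℕ) : ℤ)) * fvExt a (fun i => U i l) (a + ((i : ℕ) : ℤ)) =
      hT.eigenvalues l * fvExt a (fun i => U i l) (a + ((i : ℕ) : ℤ))
    rw [← fvT_mulVec V a (fun i => U i l) i, fvExt_at]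
    have h3 := hT.mulVec_eigenvectorBasis l
    have h4 : (fun i => U i l) = ⇑(hT.eigenvectorBasis l) := by
      funext i
      exact hUa i l
    rw [h4]
    have h5 := congrFun h3 i
    rw [h5]
    rfl
  · intro l
    rw [fv_sum a b (fun n => fvExt a (fun i => U i l) n ^ 2)]
    have := o1 l l
    rw [if_pos rfl] at this
    rw [← this]
    apply Finset.sum_congr rfl
    intro i _
    show fvExt a (fun i => U i l) (a + ((i : ℕ) : ℤ)) ^ 2 = _
    rw [fvExt_at]
    ring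
  · intro l l' hl
    rw [fv_sum a b (fun n => fvExt a (fun i => U i l) n * fvExt a (fun i => U i l') n)]
    have := o1 l l'
    rw [if_neg hl] at this
    rw [← this]
    apply Finset.sum_congr rfl
    intro i _
    show fvExt a (fun i => U i l) (a + ((i : ℕ) : ℤ)) * fvExt a (fun i => U i l') (a + ((i : ℕ) : ℤ)) = _
    rw [fvExt_at, fvExt_at]
  · intro m hm n hn
    rw [Finset.mem_Icc] at hm hn
    obtain ⟨i, rfl⟩ := fv_idx hm.1 hm.2
    obtain ⟨j, rfl⟩ := fv_idx hn.1 hn.2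
    have h6 : ∀ l, fvExt a (fun i => U i l) (a + ((i : ℕ) : ℤ)) *
        fvExt a (fun i => U i l) (a + ((j : ℕ) : ℤ)) = U i l * U j l := by
      intro l
      rw [fvExt_at, fvExt_at]
    simp only [h6]
    rw [o2 i j]
    by_cases hij : i = j
    · subst hij
      simp
    · rw [if_neg hij, if_neg]
      intro h
      apply hij
      apply Fin.ext
      omega

private theorem fv_parseval {a b : ℤ} {ι : Type} [Fintype ι] {ψ : ι → ℤ → ℝ}
    (h : ∀ m ∈ Icc a b, ∀ n ∈ Icc a b, ∑ l, ψ l m * ψ l n = if m = n then 1 else 0) (g : ℤ → ℝ) :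
    ∑ n ∈ Icc a b, g n ^ 2 = ∑ l, (∑ n ∈ Icc a b, g n * ψ l n) ^ 2 := by
  have h1 : ∀ l, (∑ n ∈ Icc a b, g n * ψ l n) ^ 2 =
      ∑ m ∈ Icc a b, ∑ n ∈ Icc a b, g m * g n * (ψ l m * ψ l n) := by
    intro l
    rw [sq, Finset.sum_mul_sum]
    apply Finset.sum_congr rfl
    intro m _
    apply Finset.sum_congr rfl
    intro n _
    ring
  simp only [h1]
  rw [Finset.sum_comm]
  apply Finset.sum_congr rfl
  intro m hm
  rw [Finset.sum_comm]
  have h2 : ∀ n ∈ Icc a b, ∑ l, g m * g n * (ψ l m * ψ l n) = if m = n then g m * g n else 0 := by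
    intro n hn
    rw [← Finset.mul_sum, h m hm n hn]
    split_ifs <;> ring
  rw [Finset.sum_congr rfl h2, Finset.sum_ite_eq, if_pos hm, sq]

theorem inv_bound {V : ℤ → ℝ} {a b : ℤ} (hab : a ≤ b) {e δ : ℝ} (hδ : 0 < δ)
    (h : ∀ e', Spec V a b e' → δ ≤ |e - e'|) {f : ℤ → ℝ} (hf : ∀ n, n < a ∨ b < n → f n = 0) :
    δ ^ 2 * ∑ n ∈ Icc a b, f n ^ 2 ≤ ∑ n ∈ Icc a b, res V e f n ^ 2 := by
  obtain ⟨ψ, e', h1, h2, _, h4⟩ := eig_basis V hab
  rw [fv_parseval h4 f, fv_parseval h4 (res V e f), Finset.mul_sum]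
  apply Finset.sum_le_sum
  intro l _
  have hsp : Spec V a b (e' l) := by
    refine ⟨ψ l, h1 l, ?_⟩
    by_contra hc
    push Not at hc
    have := h2 l
    simp only [hc] at this
    norm_num at this
  have hd := h (e' l) hsp
  have key : ∑ n ∈ Icc a b, res V e f n * ψ l n = (e' l - e) * ∑ n ∈ Icc a b, f n * ψ l n := by
    rw [fv_sum a b (fun n => res V e f n * ψ l n), fv_sum a b (fun n => f n * ψ l n)]
    obtain ⟨u, hu⟩ : ∃ u : Fin (b + 1 - a).toNat → ℝ, u = fun (i : Fin (b + 1 - a).toNat) => f (a + ((i : ℕ) : ℤ)) := ⟨_, rfl⟩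
    obtain ⟨w, hw⟩ : ∃ w : Fin (b + 1 - a).toNat → ℝ, w = fun (i : Fin (b + 1 - a).toNat) => ψ l (a + ((i : ℕ) : ℤ)) := ⟨_, rfl⟩
    have k1 : ∀ i : Fin (b + 1 - a).toNat, res V e f (a + ((i : ℕ) : ℤ)) * ψ l (a + ((i : ℕ) : ℤ)) =
        (fvT V a (b + 1 - a).toNat).mulVec u i * w i - e * (u i * w i) := by
      intro i
      unfold res
      rw [fvT_fun hf i, hu, hw]
      ring
    have k2 : ∀ i : Fin (b + 1 - a).toNat, (fvT V a (b + 1 - a).toNat).mulVec w i = e' l * w i := by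
      intro i
      rw [hw, ← fvT_fun (V := V) (h1 l).1 i]
      have := i.2
      exact (h1 l).2 _ (by omega) (by omega)
    have k5 : ∀ i : Fin (b + 1 - a).toNat, f (a + ((i : ℕ) : ℤ)) * ψ l (a + ((i : ℕ) : ℤ)) = u i * w i := by
      intro i
      rw [hu, hw]
    have k3 := fvT_dot V a u w
    simp only [k1, k5]
    rw [Finset.sum_sub_distrib, k3, ← Finset.mul_sum]
    simp only [k2]
    have k4 : ∀ i : Fin (b + 1 - a).toNat, u i * (e' l * w i) = e' l * (u i * w i) := fun i => by ring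
    simp only [k4]
    rw [← Finset.mul_sum]
    ring
  rw [key, mul_pow]
  apply mul_le_mul_of_nonneg_right _ (sq_nonneg _)
  rw [← sq_abs (e' l - e), abs_sub_comm]
  exact pow_le_pow_left₀ hδ.le hd 2

end Pool.Agent.MP31f1e8.AL
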