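import Pool.Agent.Lib.MP_31f1e8_mp.AL.Fv

/-!
# AL: finite volume eigenvalues

JOB AL-Fw. From `eig_basis` and `inv_bound` (file `Fv`).

* `spec_finite`: every `e` with `Spec V a b e` is one of the `e l` of `eig_basis` (otherwise the
  eigenfunction is orthogonal to all `ψ l`, hence `0`).
* `spec_perturb`: if all the eigenvalues `e l` of `V` had `|e' - e l| > ε`, then `inv_bound` (with
  `δ = min |e' - e l| > ε`) applied to the eigenfunction `f` of `V'`, `res V e' f = (V - V') f` on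
  `[a, b]`, gives `δ ^ 2 ∑ f ^ 2 ≤ ε ^ 2 * ∑ f ^ 2 < δ ^ 2 ∑ f ^ 2`.
* `spec_near`: take the site where `|ψ|` is maximal.
-/

namespace Pool.Agent.MP31f1e8.AL

open Finset

/-- summation by parts -/
private theorem fw_shift (f g : ℤ → ℝ) {a b : ℤ} (hf : f (b + 1) = 0) (hg : g (a - 1) = 0)
    (hab : a ≤ b) :
    ∑ n ∈ Icc a b, f (n + 1) * g n = ∑ n ∈ Icc a b, f n * g (n - 1) := by
  have h1 : ∑ n ∈ Icc a b, f (n + 1) * g n = ∑ n ∈ Icc (a + 1) (b + 1), f n * g (n - 1) := by
    rw [← Finset.map_add_right_Icc, Finset.sum_map]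
    refine Finset.sum_congr rfl fun n _ => ?_
    simp [addRightEmbedding]
  rw [h1]
  have h2 : ∑ n ∈ Icc (a + 1) (b + 1), f n * g (n - 1) =
      ∑ n ∈ Icc a (b + 1), f n * g (n - 1) := by
    refine Finset.sum_subset (Finset.Icc_subset_Icc (by omega) le_rfl) fun n hn hn' => ?_
    have : n = a := by
      simp only [mem_Icc] at hn hn'
      omega
    rw [this, hg, mul_zero]
  have h3 : ∑ n ∈ Icc a b, f n * g (n - 1) =
      ∑ n ∈ Icc a (b + 1), f n * g (n - 1) := by
    refine Finset.sum_subset (Finset.Icc_subset_Icc le_rfl (by omega)) fun n hn hn' => ?_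
    have : n = b + 1 := by
      simp only [mem_Icc] at hn hn'
      omega
    rw [this, hf, zero_mul]
  rw [h2, h3]

private theorem fw_symm (f g : ℤ → ℝ) {a b : ℤ} (hab : a ≤ b)
    (hf : ∀ n, n < a ∨ b < n → f n = 0) (hg : ∀ n, n < a ∨ b < n → g n = 0) :
    ∑ n ∈ Icc a b, (f (n + 1) + f (n - 1)) * g n =
      ∑ n ∈ Icc a b, f n * (g (n + 1) + g (n - 1)) := by
  have h1 := fw_shift f g (a := a) (b := b) (hf _ (by omega)) (hg _ (by omega)) hab
  have h2 := fw_shift g f (a := a) (b := b) (hg _ (by omega)) (hf _ (by omega)) hab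
  have e1 : ∑ n ∈ Icc a b, (f (n + 1) + f (n - 1)) * g n =
      ∑ n ∈ Icc a b, f (n + 1) * g n + ∑ n ∈ Icc a b, g n * f (n - 1) := by
    rw [← Finset.sum_add_distrib]
    exact Finset.sum_congr rfl fun n _ => by ring
  have e2 : ∑ n ∈ Icc a b, f n * (g (n + 1) + g (n - 1)) =
      ∑ n ∈ Icc a b, g (n + 1) * f n + ∑ n ∈ Icc a b, f n * g (n - 1) := by
    rw [← Finset.sum_add_distrib]
    exact Finset.sum_congr rfl fun n _ => by ring
  rw [e1, e2, h1, ← h2]
  ring

/-- eigenfunctions of different eigenvalues are orthogonal -/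
private theorem fw_orth {V : ℤ → ℝ} {a b : ℤ} (hab : a ≤ b) {e e' : ℝ} {f g : ℤ → ℝ}
    (hf : EigF V a b e f) (hg : EigF V a b e' g) (hne : e ≠ e') :
    ∑ n ∈ Icc a b, f n * g n = 0 := by
  have h := fw_symm f g hab hf.1 hg.1
  have h1 : ∑ n ∈ Icc a b, (f (n + 1) + f (n - 1)) * g n =
      ∑ n ∈ Icc a b, (e - V n) * (f n * g n) := by
    refine Finset.sum_congr rfl fun n hn => ?_
    rw [mem_Icc] at hn
    have := hf.2 n hn.1 hn.2
    have h' : f (n + 1) + f (n - 1) = (e - V n) * f n := by linarith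
    rw [h']; ring
  have h2 : ∑ n ∈ Icc a b, f n * (g (n + 1) + g (n - 1)) =
      ∑ n ∈ Icc a b, (e' - V n) * (f n * g n) := by
    refine Finset.sum_congr rfl fun n hn => ?_
    rw [mem_Icc] at hn
    have := hg.2 n hn.1 hn.2
    have h' : g (n + 1) + g (n - 1) = (e' - V n) * g n := by linarith
    rw [h']; ring
  rw [h1, h2, ← sub_eq_zero, ← Finset.sum_sub_distrib] at h
  have h3 : (e - e') * ∑ n ∈ Icc a b, f n * g n = 0 := by
    rw [Finset.mul_sum, ← h]
    exact Finset.sum_congr rfl fun n _ => by ring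
  rcases mul_eq_zero.1 h3 with h4 | h4
  · exact absurd (sub_eq_zero.1 h4) hne
  · exact h4

/-- the eigenvalues lie in a finite set with at most `b + 1 - a` elements -/
theorem spec_finite (V : ℤ → ℝ) {a b : ℤ} (hab : a ≤ b) :
    ∃ S : Finset ℝ, S.card ≤ (b + 1 - a).toNat ∧ ∀ e, Spec V a b e ↔ e ∈ S := by
  obtain ⟨ψ, e, h1, h2, -, h4⟩ := eig_basis V hab
  refine ⟨Finset.univ.image e, ?_, ?_⟩
  · refine le_trans Finset.card_image_le ?_
    simp
  · intro e'
    constructor
    · rintro ⟨f, hf, m, hm⟩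
      by_contra hne
      have hne' : ∀ l, e' ≠ e l := by
        intro l hl
        exact hne (Finset.mem_image.2 ⟨l, Finset.mem_univ _, hl.symm⟩)
      have horth : ∀ l, ∑ n ∈ Icc a b, f n * ψ l n = 0 := fun l =>
        fw_orth hab hf (h1 l) (hne' l)
      have hmI : m ∈ Icc a b := by
        rw [mem_Icc]
        by_contra hc
        exact hm (hf.1 m (by omega))
      have hz : f m = ∑ n ∈ Icc a b, f n * (if m = n then (1 : ℝ) else 0) := by
        simp only [mul_ite, mul_one, mul_zero]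
        rw [Finset.sum_ite_eq (Icc a b) m f, if_pos hmI]
      have hz2 : f m = 0 := by
        rw [hz]
        have : ∀ n ∈ Icc a b, f n * (if m = n then (1 : ℝ) else 0) =
            ∑ l, ψ l m * (f n * ψ l n) := by
          intro n hn
          rw [← h4 m hmI n hn, Finset.mul_sum]
          exact Finset.sum_congr rfl fun l _ => by ring
        rw [Finset.sum_congr rfl this, Finset.sum_comm]
        refine Finset.sum_eq_zero fun l _ => ?_
        rw [← Finset.mul_sum, horth l, mul_zero]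
      exact hm hz2
    · intro he
      obtain ⟨l, -, rfl⟩ := Finset.mem_image.1 he
      refine ⟨ψ l, h1 l, ?_⟩
      by_contra hc
      push Not at hc
      have := h2 l
      simp [hc] at this

theorem spec_perturb {V V' : ℤ → ℝ} {a b : ℤ} (hab : a ≤ b) {ε e' : ℝ}
    (hV : ∀ n, a ≤ n → n ≤ b → |V n - V' n| ≤ ε) (h : Spec V' a b e') :
    ∃ e, Spec V a b e ∧ |e' - e| ≤ ε := by
  have hε : 0 ≤ ε := le_trans (abs_nonneg _) (hV a le_rfl hab)
  obtain ⟨S, -, hS⟩ := spec_finite V hab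
  by_contra hcon
  push Not at hcon
  have hδ : ∃ δ, ε < δ ∧ ∀ e, Spec V a b e → δ ≤ |e' - e| := by
    by_cases hne : S.Nonempty
    · obtain ⟨s, hs, hmin⟩ := Finset.exists_min_image S (fun e => |e' - e|) hne
      refine ⟨|e' - s|, hcon s ((hS s).2 hs), fun e he => hmin e ((hS e).1 he)⟩
    · refine ⟨ε + 1, by linarith, fun e he => ?_⟩
      exact absurd ⟨e, (hS e).1 he⟩ hne
  obtain ⟨δ, hδ1, hδ2⟩ := hδ
  obtain ⟨f, hf, m, hm⟩ := h
  have hmI : m ∈ Icc a b := by
    rw [mem_Icc]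
    by_contra hc
    exact hm (hf.1 m (by omega))
  have h1 := inv_bound (V := V) hab (e := e') (δ := δ) (by linarith) hδ2 hf.1
  have h2 : ∑ n ∈ Icc a b, res V e' f n ^ 2 ≤ ε ^ 2 * ∑ n ∈ Icc a b, f n ^ 2 := by
    rw [Finset.mul_sum]
    refine Finset.sum_le_sum fun n hn => ?_
    rw [mem_Icc] at hn
    have h3 := hf.2 n hn.1 hn.2
    have h4 : res V e' f n = (V n - V' n) * f n := by
      unfold res
      linarith
    rw [h4, mul_pow]
    refine mul_le_mul_of_nonneg_right ?_ (sq_nonneg _)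
    rw [← sq_abs (V n - V' n)]
    exact pow_le_pow_left₀ (abs_nonneg _) (hV n hn.1 hn.2) 2
  have h5 : 0 < ∑ n ∈ Icc a b, f n ^ 2 := by
    refine Finset.sum_pos' (fun n _ => sq_nonneg _) ⟨m, hmI, ?_⟩
    positivity
  have h6 : ε ^ 2 < δ ^ 2 := pow_lt_pow_left₀ hδ1 hε (by norm_num)
  nlinarith [mul_lt_mul_of_pos_right h6 h5]

/-- an eigenvalue is within `2` of some value of the potential -/
theorem spec_near {V : ℤ → ℝ} {a b : ℤ} {e : ℝ} (h : Spec V a b e) :
    ∃ n, a ≤ n ∧ n ≤ b ∧ |e - V n| ≤ 2 := by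
  obtain ⟨f, hf, m, hm⟩ := h
  have hmI : m ∈ Icc a b := by
    rw [mem_Icc]
    by_contra hc
    exact hm (hf.1 m (by omega))
  obtain ⟨s, hs, hmax⟩ := Finset.exists_max_image (Icc a b) (fun n => |f n|) ⟨m, hmI⟩
  have hs' := hs
  rw [mem_Icc] at hs'
  have hall : ∀ n, |f n| ≤ |f s| := by
    intro n
    by_cases hn : n ∈ Icc a b
    · exact hmax n hn
    · have : f n = 0 := hf.1 n (by
        rw [mem_Icc] at hn
        omega)
      rw [this, abs_zero]
      exact abs_nonneg _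
  have hpos : 0 < |f s| := lt_of_lt_of_le (abs_pos.2 hm) (hall m)
  refine ⟨s, hs'.1, hs'.2, ?_⟩
  have h1 := hf.2 s hs'.1 hs'.2
  have h2 : (e - V s) * f s = f (s + 1) + f (s - 1) := by linarith
  have h3 : |e - V s| * |f s| ≤ 2 * |f s| := by
    rw [← abs_mul, h2]
    refine le_trans (abs_add_le _ _) ?_
    linarith [hall (s + 1), hall (s - 1)]
  exact le_of_mul_le_mul_right h3 hpos

end Pool.Agent.MP31f1e8.AL
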