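import Pool.Agent.Lib.MP_31f1e8_mp.AL.Vol

/-!
# AL: the set of the good codes has positive measure

JOB AL-GoodSet. `G` = the square `[0, 1)²` minus the union over `j ≥ 1`, `i < 16`, `s` of the sets
of `reso_volume` for `z` and of the sets `{y | swap y ∈ (set for z.refl)}`. If `y ∈ G` and
`Orb lam z (cod y.1 y.2) x` then `Orb lam z.refl (cod y.2 y.1) (rf x)` (`orb_rf`, `cod_rf`,
`good_rf`) and `pot lam (rf x) = rf (pot lam x)`, so `NR lam (pot lam x)`. The volume of the union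
is at most `∑_{j ≥ 1} 64 * (64 * 2 ^ j * (2 ^ j + 1) / N ^ (2 ^ j))` and `N ≥ 1000`, `2 ^ j ≥ 2 j`,
so it is at most `∑_{j ≥ 1} 8192 * (4 / 10 ^ 6) ^ j < 1 = volume (Ico 0 1 ×ˢ Ico 0 1)`. (The swap
preserves the volume: `Measure.prod_swap`; for arbitrary sets use the equivalence
`MeasurableEquiv.prodComm` and `MeasurePreserving.measure_preimage_equiv`.)
-/

namespace Pool.Agent.MP31f1e8.AL

open Finset MeasureTheory

private theorem gs_N {lam : ℝ} (hlam : 10 ^ 60 ≤ lam) : (1000 : ℝ) ≤ (NN lam : ℝ) := by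
  have h : 1000 ≤ NN lam := by
    unfold NN
    refine Nat.le_floor ?_
    rw [Nat.cast_ofNat, le_div_iff₀ (by norm_num)]
    exact le_trans (by norm_num) hlam
  exact_mod_cast h

/-- the exceptional set of one resonance -/
private def gsA (lam : ℝ) (z : Cen) (j i : ℕ) (s : Bool) : Set (ℝ × ℝ) :=
  {y : ℝ × ℝ | y ∈ Set.Ico (0 : ℝ) 1 ×ˢ Set.Ico (0 : ℝ) 1 ∧
      ∃ x, Orb lam z (cod (NN lam) y.1 y.2) x ∧
        Reso lam (pot lam x) j i s (lam / 400 - 1) (2 * dlt lam j)}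

private theorem gs_num {N : ℝ} (hN : 1000 ≤ N) {J : ℕ} (hJ : 1 ≤ J) :
    64 * 2 ^ J * (2 ^ J + 1) / N ^ (2 ^ J) ≤ 128 * (4 / 10 ^ 6) ^ J := by
  have hN0 : (0 : ℝ) < N := by linarith
  have h1 : (2 : ℝ) ^ J + 1 ≤ 2 * 2 ^ J := by
    have := one_le_pow₀ (M₀ := ℝ) (a := 2) (n := J) (by norm_num)
    linarith
  have h2 : 2 * J ≤ 2 ^ J := by
    obtain ⟨m, rfl⟩ : ∃ m, J = m + 1 := ⟨J - 1, by omega⟩
    have : m + 1 ≤ 2 ^ m := Nat.lt_two_pow_self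
    rw [pow_succ]
    omega
  have h3 : ((10 : ℝ) ^ 6) ^ J ≤ N ^ (2 ^ J) := by
    calc ((10 : ℝ) ^ 6) ^ J ≤ (N ^ 2) ^ J := by
          refine pow_le_pow_left₀ (by positivity) ?_ J
          nlinarith
      _ = N ^ (2 * J) := by rw [pow_mul]
      _ ≤ N ^ (2 ^ J) := pow_le_pow_right₀ (by linarith) h2
  have h4 : (64 : ℝ) * 2 ^ J * (2 ^ J + 1) ≤ 128 * 4 ^ J := by
    have h5 : (4 : ℝ) ^ J = 2 ^ J * 2 ^ J := by
      rw [← mul_pow]
      norm_num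
    rw [h5]
    have h6 : (0 : ℝ) < 2 ^ J := by positivity
    nlinarith
  rw [div_pow, mul_div_assoc', div_le_div_iff₀ (by positivity) (by positivity)]
  have h7 : (0 : ℝ) ≤ 128 * 4 ^ J := by positivity
  have h8 : (0 : ℝ) ≤ ((10 : ℝ) ^ 6) ^ J := by positivity
  calc (64 : ℝ) * 2 ^ J * (2 ^ J + 1) * (10 ^ 6) ^ J ≤ 128 * 4 ^ J * (10 ^ 6) ^ J :=
        mul_le_mul_of_nonneg_right h4 h8
    _ ≤ 128 * 4 ^ J * N ^ (2 ^ J) := mul_le_mul_of_nonneg_left h3 h7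

private theorem gs_vol {lam : ℝ} (hlam : 10 ^ 60 ≤ lam) {z : Cen} (hz : z.Good lam) {J i : ℕ} (hJ : 1 ≤ J)
    (hi : i < 16) (s : Bool) : volume (gsA lam z J i s) ≤ ENNReal.ofReal (128 * (4 / 10 ^ 6) ^ J) :=
  (reso_volume hlam hz hJ hi s).trans (ENNReal.ofReal_le_ofReal (gs_num (gs_N hlam) hJ))

private theorem gs_swap (A : Set (ℝ × ℝ)) : volume {y : ℝ × ℝ | (y.2, y.1) ∈ A} = volume A := by
  have h : MeasurePreserving (MeasurableEquiv.prodComm : ℝ × ℝ ≃ᵐ ℝ × ℝ) volume volume :=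
    Measure.measurePreserving_swap
  have := h.measure_preimage_equiv A
  exact this

/-- the exceptional set of one scale -/
private def gsB (lam : ℝ) (z : Cen) (j : ℕ) : Set (ℝ × ℝ) :=
  ⋃ i ∈ Finset.range 16, ⋃ s ∈ (Finset.univ : Finset Bool),
    (gsA lam z (j + 1) i s ∪ {y : ℝ × ℝ | (y.2, y.1) ∈ gsA lam z.refl (j + 1) i s})

private theorem gs_volB {lam : ℝ} (hlam : 10 ^ 60 ≤ lam) {z : Cen} (hz : z.Good lam) (j : ℕ) :
    volume (gsB lam z j) ≤ ENNReal.ofReal (8192 * (4 / 10 ^ 6) ^ (j + 1)) := by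
  have h0 : (0 : ℝ) ≤ 128 * (4 / 10 ^ 6) ^ (j + 1) := by positivity
  have h1 : ∀ i ∈ Finset.range 16, ∀ s : Bool,
      volume (gsA lam z (j + 1) i s ∪ {y : ℝ × ℝ | (y.2, y.1) ∈ gsA lam z.refl (j + 1) i s}) ≤
        ENNReal.ofReal (2 * (128 * (4 / 10 ^ 6) ^ (j + 1))) := by
    intro i hi s
    have hi' := Finset.mem_range.1 hi
    refine (measure_union_le _ _).trans ?_
    rw [two_mul, ENNReal.ofReal_add h0 h0]
    refine add_le_add (gs_vol hlam hz (by omega) hi' s) ?_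
    rw [gs_swap]
    exact gs_vol hlam (good_rf hz) (by omega) hi' s
  have h2 : volume (gsB lam z j) ≤ ∑ i ∈ Finset.range 16, ∑ s ∈ (Finset.univ : Finset Bool),
      ENNReal.ofReal (2 * (128 * (4 / 10 ^ 6) ^ (j + 1))) := by
    refine (measure_biUnion_finset_le _ _).trans (Finset.sum_le_sum fun i hi => ?_)
    exact (measure_biUnion_finset_le _ _).trans (Finset.sum_le_sum fun s _ => h1 i hi s)
  refine h2.trans (le_of_eq ?_)
  rw [Finset.sum_const, Finset.sum_const, Finset.card_range, Finset.card_univ, Fintype.card_bool, smul_smul,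
    nsmul_eq_mul]
  rw [← ENNReal.ofReal_natCast, ← ENNReal.ofReal_mul (by positivity)]
  congr 1
  push_cast
  ring

private theorem gs_total {lam : ℝ} (hlam : 10 ^ 60 ≤ lam) {z : Cen} (hz : z.Good lam) :
    volume (⋃ j, gsB lam z j) < 1 := by
  have h1 : volume (⋃ j, gsB lam z j) ≤ ∑' j : ℕ, ENNReal.ofReal (8192 * (4 / 10 ^ 6) ^ (j + 1)) :=
    (measure_iUnion_le _).trans (ENNReal.tsum_le_tsum fun j => gs_volB hlam hz j)
  have hs : Summable fun j : ℕ => (8192 : ℝ) * (4 / 10 ^ 6) ^ (j + 1) := by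
    have : Summable fun j : ℕ => ((4 : ℝ) / 10 ^ 6) ^ j := summable_geometric_of_lt_one (by norm_num) (by norm_num)
    exact ((summable_nat_add_iff 1).2 this).mul_left _
  have h2 : ∑' j : ℕ, (8192 : ℝ) * (4 / 10 ^ 6) ^ (j + 1) = 8192 * (4 / 10 ^ 6) * (1 - 4 / 10 ^ 6)⁻¹ := by
    have e : (fun j : ℕ => (8192 : ℝ) * (4 / 10 ^ 6) ^ (j + 1)) = fun j : ℕ => 8192 * (4 / 10 ^ 6) * (4 / 10 ^ 6) ^ j := by
      funext j
      rw [pow_succ]
      ring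
    rw [e, tsum_mul_left, tsum_geometric_of_lt_one (by norm_num) (by norm_num)]
  rw [← ENNReal.ofReal_tsum_of_nonneg (fun j => by positivity) hs, h2] at h1
  refine h1.trans_lt ?_
  rw [← ENNReal.ofReal_one]
  exact (ENNReal.ofReal_lt_ofReal_iff (by norm_num)).2 (by norm_num)

theorem good_set {lam : ℝ} (hlam : 10 ^ 60 ≤ lam) {z : Cen} (hz : z.Good lam) :
    ∃ G : Set (ℝ × ℝ), G ⊆ Set.Ico (0 : ℝ) 1 ×ˢ Set.Ico (0 : ℝ) 1 ∧ volume G ≠ 0 ∧
      ∀ y ∈ G, ∀ x, Orb lam z (cod (NN lam) y.1 y.2) x → NR lam (pot lam x) := by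
  refine ⟨(Set.Ico (0 : ℝ) 1 ×ˢ Set.Ico (0 : ℝ) 1) \ ⋃ j, gsB lam z j, Set.sdiff_subset, ?_, ?_⟩
  · intro h0
    have h1 : volume (Set.Ico (0 : ℝ) 1 ×ˢ Set.Ico (0 : ℝ) 1) = 1 := by
      rw [Measure.volume_eq_prod, Measure.prod_prod, Real.volume_Ico]
      simp
    have h2 : volume (Set.Ico (0 : ℝ) 1 ×ˢ Set.Ico (0 : ℝ) 1) ≤
        volume ((Set.Ico (0 : ℝ) 1 ×ˢ Set.Ico (0 : ℝ) 1) \ ⋃ j, gsB lam z j) + volume (⋃ j, gsB lam z j) := by
      refine (measure_mono ?_).trans (measure_union_le _ _)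
      intro y hy
      by_cases h : y ∈ ⋃ j, gsB lam z j
      · exact Or.inr h
      · exact Or.inl ⟨hy, h⟩
    rw [h0, zero_add, h1] at h2
    exact absurd (gs_total hlam hz) (not_lt.2 h2)
  · rintro y ⟨hy, hyn⟩ x hx j hj i hi s
    have hmem : ∀ w : ℝ × ℝ, w ∈ gsA lam z j i s ∪ {y : ℝ × ℝ | (y.2, y.1) ∈ gsA lam z.refl j i s} →
        w ∈ ⋃ j, gsB lam z j := by
      intro w hw
      obtain ⟨m, rfl⟩ : ∃ m, j = m + 1 := ⟨j - 1, by omega⟩
      refine Set.mem_iUnion.2 ⟨m, ?_⟩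
      refine Set.mem_iUnion₂.2 ⟨i, Finset.mem_range.2 hi, ?_⟩
      exact Set.mem_iUnion₂.2 ⟨s, Finset.mem_univ s, hw⟩
    constructor
    · intro hr
      exact hyn (hmem y (Or.inl ⟨hy, x, hx, hr⟩))
    · intro hr
      refine hyn (hmem y (Or.inr ?_))
      refine ⟨⟨hy.2, hy.1⟩, rf x, ?_, hr⟩
      have h := orb_rf hx
      rw [cod_rf] at h
      exact h

end Pool.Agent.MP31f1e8.AL
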