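import Pool.Agent.Lib.MP_31f1e8_mp.AL.LocA

/-!
# AL: finite volume eigenfunctions are localised

JOB AL-Loc. `X = 2 ^ (J1 + 5)`, `ρ = lam ^ (-1/5)`, `B = lam / 400`.

By `bar_exists` there is `i ≤ 16` with `Bar lam B i e`. For `j ≥ 1` put `t j = outer j i true` if
`j < J1` and `t J1 = outer J1 i false`; then `t j ≤ X - 1`, and `t j = bq j i + pad j` or
`t j = X - 1`. The right block of the scale `j` is *bad* if there is `eb` with
`Spec V (bp j i - pad j) (t j) eb` and `|e - eb| < dlt lam j`; the left block is bad if the right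
block of `rf V` is (use `eig_rf` for `ψ`: all the statements for the left side are those for the
right side of `rf V`, `rf ψ`). Let `J` be the largest `j ∈ [1, J1]` with a bad block (right or
left), `J = 0` if there is none or if `i = 16`.

(a) Let `w n = ρ ^ (hat n - 2 ^ (J + 5))` (truncated subtraction) and let `A` be the maximum of
`|ψ n| / w n` (finite support), attained at `n*`. Claim: for every `n` in the volume with
`hat n ≥ 2 ^ (J + 5)`, `|ψ n| ≤ A w n / 2`. Sites of type `≠ i` (`site_bar`):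
`B |ψ n| ≤ |ψ (n + 1)| + |ψ (n - 1)| ≤ 2 A w n / ρ`, and `4 ≤ B ρ` (`num_tau`). Sites of type `i`:
`typ_shell` gives `j` (with `2 ^ (j + 4) ≤ hat n < 2 ^ (j + 5)`, so `J < j ≤ J1`) and
`hat n ∈ [bp j i, bq j i]`; say `n ≥ 0` (otherwise reflect). The block is not bad, so `cross_good`
with `M = A w n / ρ ^ (4 * 2 ^ j)` (`|ψ (s - 1)| ≤ A w (s - 1) ≤ M` because
`n - (s - 1) ≤ 4 * 2 ^ j`, and `|ψ (t + 1)| ≤ A w (t + 1) ≤ A w n`) gives `|ψ n| ≤ A w n ρ / 2`. So
if `hat n* ≥ 2 ^ (J + 5)` then `A ≤ A / 2`, `A = 0`; otherwise `A = |ψ n*| ≤ 1`. In all cases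
`|ψ n| ≤ w n`.

(b) `J ≥ 1`: `inner_small` (for `V`, `ψ` if the right block is bad, for `rf V`, `rf ψ` otherwise).
-/

namespace Pool.Agent.MP31f1e8.AL

open Finset

/-- weights: truncated subtraction -/
private theorem loc_pow {ρ : ℝ} (h0 : 0 < ρ) (h1 : ρ ≤ 1) {a b c d : ℕ} (h : b ≤ a + d) :
    ρ ^ (a - c) * ρ ^ d ≤ ρ ^ (b - c) := by
  rw [← pow_add]
  exact pow_le_pow_of_le_one h0.le h1 (by omega)

private theorem loc_outer_le {i j J1 : ℕ} (hj : 1 ≤ j) (hi : i < 16) (hjJ : j ≤ J1) :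
    outer j i (decide (j < J1)) ≤ 2 ^ (J1 + 5) - 1 := by
  by_cases h : j < J1
  · obtain ⟨-, -, -, -, -, -, -, -, -, -, h1, -⟩ := block_facts hj hi (decide (j < J1))
    have h2 : (2 : ℤ) ^ (j + 6) ≤ 2 ^ (J1 + 5) := pow_le_pow_right₀ (by norm_num) (by omega)
    have h3 : (1 : ℤ) ≤ 2 ^ j := one_le_pow₀ (by norm_num)
    linarith
  · have e : j = J1 := by omega
    subst e
    simp only [outer, lt_self_iff_false, decide_false, Bool.false_eq_true, if_false]
    exact min_le_right _ _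

private theorem loc_outer_or {i j J1 : ℕ} (hjJ : j ≤ J1) :
    outer j i (decide (j < J1)) = bq j i + pad j ∨
      outer j i (decide (j < J1)) = 2 ^ (J1 + 5) - 1 := by
  by_cases h : j < J1
  · left
    simp [outer, h]
  · have e : j = J1 := by omega
    subst e
    simp only [outer, lt_self_iff_false, decide_false, Bool.false_eq_true, if_false]
    rcases min_choice (bq j i + pad j) (2 ^ (j + 5) - 1) with h1 | h1
    · left; exact h1
    · right; exact h1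

private theorem loc_right {lam : ℝ} (hlam : 10 ^ 60 ≤ lam) {V : ℤ → ℝ}
    (hV : ∀ n, n ≠ 0 → n ≠ -1 → V n ∈ Set.Icc (wlo lam (typ n)) (whi lam (typ n)))
    {J1 J : ℕ} {e : ℝ} {ψ : ℤ → ℝ} (hψ : EigF V (-2 ^ (J1 + 5)) (2 ^ (J1 + 5) - 1) e ψ)
    {i : ℕ} (he : Bar lam (lam / 400) i e)
    (hgood : ∀ j, 1 ≤ j → J < j → j ≤ J1 → i < 16 →
      ∀ eb, Spec V (bp j i - pad j) (outer j i (decide (j < J1))) eb → dlt lam j ≤ |e - eb|)
    {A : ℝ} (hA : 0 ≤ A) (hw : ∀ n, |ψ n| ≤ A * (lam ^ (-(1 / 5 : ℝ))) ^ (hat n - 2 ^ (J + 5)))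
    {n : ℤ} (hn : 0 ≤ n) (hnX : n ≤ 2 ^ (J1 + 5) - 1) (hn' : 2 ^ (J + 5) ≤ hat n)
    (ht : typ n = i) :
    |ψ n| ≤ A * (lam ^ (-(1 / 5 : ℝ))) ^ (hat n - 2 ^ (J + 5)) / 2 := by
  obtain ⟨hρ0, hρ1, -⟩ := num_tau hlam
  set ρ : ℝ := lam ^ (-(1 / 5 : ℝ)) with hρ
  have hρ1' : ρ ≤ 1 := by linarith
  have h32 : 32 ≤ hat n := by
    have : 2 ^ 5 ≤ 2 ^ (J + 5) := Nat.pow_le_pow_right (by norm_num) (by omega)
    omega
  obtain ⟨hi, j, hj, hb1, hb2, hs1, hs2⟩ := typ_shell h32 ht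
  have hJj : J < j := by
    have : 2 ^ (J + 5) < 2 ^ (j + 5) := lt_of_le_of_lt hn' hs2
    have := (Nat.pow_lt_pow_iff_right (by norm_num : 1 < 2)).1 this
    omega
  have hhat : (hat n : ℤ) = n := hat_of_nonneg hn
  have hjJ1 : j ≤ J1 := by
    have h1 : ((2 ^ (j + 4) : ℕ) : ℤ) < ((2 ^ (J1 + 5) : ℕ) : ℤ) := by
      have : ((2 ^ (j + 4) : ℕ) : ℤ) ≤ (hat n : ℤ) := by exact_mod_cast hs1
      push_cast at this ⊢
      linarith
    have h2 : 2 ^ (j + 4) < 2 ^ (J1 + 5) := by exact_mod_cast h1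
    have := (Nat.pow_lt_pow_iff_right (by norm_num : 1 < 2)).1 h2
    omega
  obtain ⟨f1, f2, f3, f4, f5, f6, f7, f8, f9, f10, f11, f12, f13, f14⟩ :=
    block_facts hj hi (decide (j < J1))
  have hpad : pad j = 3 * 2 ^ j := rfl
  have hL : (1 : ℤ) ≤ 2 ^ j := one_le_pow₀ (by norm_num)
  have hX : (1 : ℤ) ≤ 2 ^ (J1 + 5) := one_le_pow₀ (by norm_num)
  have hout := loc_outer_le hj hi hjJ1
  set t := outer j i (decide (j < J1)) with htdef
  have hb1' : bp j i ≤ n := by rw [← hhat]; exact hb1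
  have hb2' : n ≤ bq j i := by rw [← hhat]; exact hb2
  have hs0 : 0 ≤ bp j i - pad j - 1 := by linarith
  set W : ℝ := ρ ^ (hat n - 2 ^ (J + 5)) with hW
  have hW0 : 0 ≤ W := pow_nonneg hρ0.le _
  have hR0 : 0 < ρ ^ (4 * 2 ^ j) := pow_pos hρ0 _
  have hR1 : ρ ^ (4 * 2 ^ j) ≤ 1 := pow_le_one₀ hρ0.le hρ1'
  have key := cross_good hlam hV hj hi he (t := t) f7 f8 (ψ := ψ)
    (fun m h1 h2 => hψ.2 m (by linarith) (by linarith))
    (hgood j hj hJj hjJ1 hi) (M := A * W / ρ ^ (4 * 2 ^ j))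
    (by
      rw [le_div_iff₀ hR0]
      have h1 := hw (bp j i - pad j - 1)
      have h2 : (hat (bp j i - pad j - 1) : ℤ) = bp j i - pad j - 1 := hat_of_nonneg hs0
      have h3 : hat n ≤ hat (bp j i - pad j - 1) + 4 * 2 ^ j := by
        have : (hat n : ℤ) ≤ (hat (bp j i - pad j - 1) : ℤ) + 4 * 2 ^ j := by
          rw [h2, hhat]; linarith
        exact_mod_cast this
      have h4 := loc_pow hρ0 hρ1' (c := 2 ^ (J + 5)) h3
      calc |ψ (bp j i - pad j - 1)| * ρ ^ (4 * 2 ^ j)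
          ≤ (A * ρ ^ (hat (bp j i - pad j - 1) - 2 ^ (J + 5))) * ρ ^ (4 * 2 ^ j) :=
            mul_le_mul_of_nonneg_right h1 hR0.le
        _ = A * (ρ ^ (hat (bp j i - pad j - 1) - 2 ^ (J + 5)) * ρ ^ (4 * 2 ^ j)) := by ring
        _ ≤ A * W := mul_le_mul_of_nonneg_left h4 hA)
    (by
      have h1 := hw (t + 1)
      have h2 : (hat (t + 1) : ℤ) = t + 1 := hat_of_nonneg (by linarith)
      have h3 : hat n ≤ hat (t + 1) := by
        have : (hat n : ℤ) ≤ (hat (t + 1) : ℤ) := by rw [h2, hhat]; linarith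
        exact_mod_cast this
      have h4 : ρ ^ (hat (t + 1) - 2 ^ (J + 5)) ≤ W :=
        pow_le_pow_of_le_one hρ0.le hρ1' (by omega)
      have h5 : A * W ≤ A * W / ρ ^ (4 * 2 ^ j) := by
        rw [le_div_iff₀ hR0]
        exact mul_le_of_le_one_right (mul_nonneg hA hW0) hR1
      exact (h1.trans (mul_le_mul_of_nonneg_left h4 hA)).trans h5)
    (by
      rcases loc_outer_or (i := i) hjJ1 with h | h
      · left; exact h
      · right
        apply hψ.1
        right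
        rw [← htdef] at h
        rw [h]; linarith)
    n hb1' hb2'
  have e1 : A * W / ρ ^ (4 * 2 ^ j) * ρ ^ (4 * 2 ^ j + 1) / 2 = A * W * ρ / 2 := by
    rw [pow_succ]
    field_simp
  rw [e1] at key
  have h6 : A * W * ρ ≤ A * W := mul_le_of_le_one_right (mul_nonneg hA hW0) hρ1'
  linarith

theorem loc_fv {lam : ℝ} (hlam : 10 ^ 60 ≤ lam) {V : ℤ → ℝ}
    (hV : ∀ n, n ≠ 0 → n ≠ -1 → V n ∈ Set.Icc (wlo lam (typ n)) (whi lam (typ n)))
    (hNR : NR lam V) {J1 : ℕ} (hJ1 : 1 ≤ J1) {e : ℝ} {ψ : ℤ → ℝ}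
    (hψ : EigF V (-2 ^ (J1 + 5)) (2 ^ (J1 + 5) - 1) e ψ) (h1 : ∀ n, |ψ n| ≤ 1) :
    ∃ J ≤ J1, (∀ n, |ψ n| ≤ (lam ^ (-(1 / 5 : ℝ))) ^ (hat n - 2 ^ (J + 5))) ∧
      (1 ≤ J → ∀ n, hat n ≤ 8 * 2 ^ J → |ψ n| ≤ (1 / 4) ^ (2 ^ J)) := by
  classical
  obtain ⟨i, hi16, hbar⟩ := bar_exists hlam e
  have hVr : ∀ n, n ≠ 0 → n ≠ -1 → rf V n ∈ Set.Icc (wlo lam (typ n)) (whi lam (typ n)) := by
    intro n hn0 hn1
    have := hV (-1 - n) (by omega) (by omega)
    rw [typ_rf] at this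
    exact this
  have hψr : EigF (rf V) (-2 ^ (J1 + 5)) (2 ^ (J1 + 5) - 1) e (rf ψ) := by
    rw [eig_rf]
    have e1 : (-1 : ℤ) - (2 ^ (J1 + 5) - 1) = -2 ^ (J1 + 5) := by ring
    have e2 : (-1 : ℤ) - (-2 ^ (J1 + 5)) = 2 ^ (J1 + 5) - 1 := by ring
    rw [e1, e2]
    exact hψ
  let bad : (ℤ → ℝ) → ℕ → Prop := fun U j =>
    ∃ eb, Spec U (bp j i - pad j) (outer j i (decide (j < J1))) eb ∧ |e - eb| < dlt lam j
  let P : ℕ → Prop := fun j => i < 16 ∧ 1 ≤ j ∧ (bad V j ∨ bad (rf V) j)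
  set J := Nat.findGreatest P J1 with hJdef
  have hJle : J ≤ J1 := Nat.findGreatest_le _
  have hnotP : ∀ j, J < j → j ≤ J1 → ¬ P j := fun j h1 h2 =>
    Nat.findGreatest_is_greatest h1 h2
  have hgood : ∀ j, 1 ≤ j → J < j → j ≤ J1 → i < 16 →
      ∀ eb, Spec V (bp j i - pad j) (outer j i (decide (j < J1))) eb → dlt lam j ≤ |e - eb| := by
    intro j hj hJj hjJ1 hi eb hsp
    by_contra hcon
    push Not at hcon
    exact hnotP j hJj hjJ1 ⟨hi, hj, Or.inl ⟨eb, hsp, hcon⟩⟩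
  have hgoodr : ∀ j, 1 ≤ j → J < j → j ≤ J1 → i < 16 →
      ∀ eb, Spec (rf V) (bp j i - pad j) (outer j i (decide (j < J1))) eb →
        dlt lam j ≤ |e - eb| := by
    intro j hj hJj hjJ1 hi eb hsp
    by_contra hcon
    push Not at hcon
    exact hnotP j hJj hjJ1 ⟨hi, hj, Or.inr ⟨eb, hsp, hcon⟩⟩
  obtain ⟨hρ0, hρ1, hρB⟩ := num_tau hlam
  have hlam0 : (0 : ℝ) < lam := lt_of_lt_of_le (by norm_num) hlam
  have h4B := hρB (lam / 400) (by linarith)
  refine ⟨J, hJle, ?_, ?_⟩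
  · set ρ : ℝ := lam ^ (-(1 / 5 : ℝ)) with hρ
    have hρ1' : ρ ≤ 1 := by linarith
    have hX : (1 : ℤ) ≤ 2 ^ (J1 + 5) := one_le_pow₀ (by norm_num)
    have hwpos : ∀ n : ℤ, 0 < ρ ^ (hat n - 2 ^ (J + 5)) := fun n => pow_pos hρ0 _
    obtain ⟨m, hm, hmax⟩ := Finset.exists_max_image (Finset.Icc (-2 ^ (J1 + 5) : ℤ)
      (2 ^ (J1 + 5) - 1)) (fun n => |ψ n| / ρ ^ (hat n - 2 ^ (J + 5)))
      ⟨0, by rw [Finset.mem_Icc]; constructor <;> linarith⟩
    set A := |ψ m| / ρ ^ (hat m - 2 ^ (J + 5)) with hAdef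
    have hA0 : 0 ≤ A := div_nonneg (abs_nonneg _) (hwpos m).le
    have hall : ∀ n, |ψ n| ≤ A * ρ ^ (hat n - 2 ^ (J + 5)) := by
      intro n
      by_cases hn : n ∈ Finset.Icc (-2 ^ (J1 + 5) : ℤ) (2 ^ (J1 + 5) - 1)
      · have := hmax n hn
        rwa [div_le_iff₀ (hwpos n)] at this
      · have h0 : ψ n = 0 := by
          apply hψ.1
          rw [Finset.mem_Icc] at hn
          omega
        rw [h0, abs_zero]
        exact mul_nonneg hA0 (hwpos n).le
    have hallr : ∀ n, |rf ψ n| ≤ A * ρ ^ (hat n - 2 ^ (J + 5)) := by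
      intro n
      have := hall (-1 - n)
      rw [hat_rf] at this
      exact this
    have hhalf : ∀ n ∈ Finset.Icc (-2 ^ (J1 + 5) : ℤ) (2 ^ (J1 + 5) - 1), 2 ^ (J + 5) ≤ hat n →
        |ψ n| ≤ A * ρ ^ (hat n - 2 ^ (J + 5)) / 2 := by
      intro n hn hn'
      rw [Finset.mem_Icc] at hn
      by_cases ht : typ n = i
      · rcases le_or_gt 0 n with h0 | h0
        · exact loc_right hlam hV hψ hbar hgood hA0 hall h0 hn.2 hn' ht
        · have h2 := loc_right hlam hVr hψr hbar hgoodr hA0 hallr (n := -1 - n) (by omega)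
            (by omega) (by rw [hat_rf]; exact hn') (by rw [typ_rf]; exact ht)
          rw [hat_rf] at h2
          have e1 : rf ψ (-1 - n) = ψ n := by
            simp [rf]
          rwa [e1] at h2
      · have h32 : 1 ≤ hat n := by
          have : 1 ≤ 2 ^ (J + 5) := Nat.one_le_pow _ _ (by norm_num)
          omega
        have hsite := site_bar hV hbar h32 ht
        have heq := hψ.2 n hn.1 hn.2
        have heq' : (e - V n) * ψ n = ψ (n + 1) + ψ (n - 1) := by linarith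
        have hs1 := hat_succ_le n
        have hs2 := hat_succ_le (n - 1)
        rw [sub_add_cancel] at hs2
        have w1 := loc_pow hρ0 hρ1' (c := 2 ^ (J + 5)) (a := hat (n + 1)) (b := hat n) (d := 1)
          hs1.2
        have w2 := loc_pow hρ0 hρ1' (c := 2 ^ (J + 5)) (a := hat (n - 1)) (b := hat n) (d := 1)
          (by omega)
        rw [pow_one] at w1 w2
        have a1 := hall (n + 1)
        have a2 := hall (n - 1)
        have b1 : lam / 400 * |ψ n| ≤ |ψ (n + 1)| + |ψ (n - 1)| := by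
          calc lam / 400 * |ψ n| ≤ |e - V n| * |ψ n| :=
                mul_le_mul_of_nonneg_right hsite (abs_nonneg _)
            _ = |ψ (n + 1) + ψ (n - 1)| := by rw [← abs_mul, heq']
            _ ≤ |ψ (n + 1)| + |ψ (n - 1)| := abs_add_le _ _
        have b2 : |ψ (n + 1)| * ρ ≤ A * ρ ^ (hat n - 2 ^ (J + 5)) := by
          calc |ψ (n + 1)| * ρ ≤ (A * ρ ^ (hat (n + 1) - 2 ^ (J + 5))) * ρ :=
                mul_le_mul_of_nonneg_right a1 hρ0.le
            _ = A * (ρ ^ (hat (n + 1) - 2 ^ (J + 5)) * ρ) := by ring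
            _ ≤ _ := mul_le_mul_of_nonneg_left w1 hA0
        have b3 : |ψ (n - 1)| * ρ ≤ A * ρ ^ (hat n - 2 ^ (J + 5)) := by
          calc |ψ (n - 1)| * ρ ≤ (A * ρ ^ (hat (n - 1) - 2 ^ (J + 5))) * ρ :=
                mul_le_mul_of_nonneg_right a2 hρ0.le
            _ = A * (ρ ^ (hat (n - 1) - 2 ^ (J + 5)) * ρ) := by ring
            _ ≤ _ := mul_le_mul_of_nonneg_left w2 hA0
        have b4 : (lam / 400 * |ψ n|) * ρ ≤ (|ψ (n + 1)| + |ψ (n - 1)|) * ρ :=
          mul_le_mul_of_nonneg_right b1 hρ0.le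
        have b5 : 4 * |ψ n| ≤ (lam / 400 * ρ) * |ψ n| :=
          mul_le_mul_of_nonneg_right h4B (abs_nonneg _)
        have b6 : (lam / 400 * ρ) * |ψ n| = (lam / 400 * |ψ n|) * ρ := by ring
        rw [b6] at b5
        linarith
    have hA1 : A ≤ 1 := by
      by_cases hmm : 2 ^ (J + 5) ≤ hat m
      · have h2 := hhalf m hm hmm
        have h3 : A ≤ A / 2 := by
          have : A ≤ A * ρ ^ (hat m - 2 ^ (J + 5)) / 2 / ρ ^ (hat m - 2 ^ (J + 5)) := by
            rw [hAdef]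
            exact div_le_div_of_nonneg_right h2 (hwpos m).le
          have e3 : A * ρ ^ (hat m - 2 ^ (J + 5)) / 2 / ρ ^ (hat m - 2 ^ (J + 5)) = A / 2 := by
            have := (hwpos m).ne'
            field_simp
          rwa [e3] at this
        linarith
      · have e4 : hat m - 2 ^ (J + 5) = 0 := by omega
        rw [hAdef, e4, pow_zero, div_one]
        exact h1 m
    intro n
    calc |ψ n| ≤ A * ρ ^ (hat n - 2 ^ (J + 5)) := hall n
      _ ≤ 1 * ρ ^ (hat n - 2 ^ (J + 5)) := mul_le_mul_of_nonneg_right hA1 (hwpos n).le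
      _ = _ := one_mul _
  · intro hJ1' n hn
    have hPJ : P J := Nat.findGreatest_of_ne_zero hJdef.symm (by omega)
    obtain ⟨hi, -, hbad⟩ := hPJ
    obtain ⟨f1, f2, f3, f4, f5, f6, f7, f8, f9, f10, f11, f12, f13, f14⟩ :=
      block_facts hJ1' hi (decide (J < J1))
    have hpad : pad J = 3 * 2 ^ J := rfl
    have hL : (1 : ℤ) ≤ 2 ^ J := one_le_pow₀ (by norm_num)
    have hX : (1 : ℤ) ≤ 2 ^ (J1 + 5) := one_le_pow₀ (by norm_num)
    have hout := loc_outer_le hJ1' hi hJle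
    have hor : ∀ φ : ℤ → ℝ, (∀ n, n < -2 ^ (J1 + 5) ∨ 2 ^ (J1 + 5) - 1 < n → φ n = 0) →
        (outer J i (decide (J < J1)) = bq J i + pad J ∨
          φ (-2 - outer J i (decide (J < J1))) = 0) := by
      intro φ hφ
      rcases loc_outer_or (i := i) hJle with h | h
      · left; exact h
      · right
        apply hφ
        left
        rw [h]; linarith
    rcases hbad with ⟨eb, hsp, hlt⟩ | ⟨eb, hsp, hlt⟩
    · exact inner_small hlam hV hJ1' hi (decide (J < J1)) hbar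
        (hNR J hJ1' i hi (decide (J < J1))).1
        (fun m h2 h3 => hψ.2 m (by linarith) (by linarith)) hsp hlt h1 (hor ψ hψ.1) n hn
    · have h2 := inner_small hlam hVr hJ1' hi (decide (J < J1)) hbar
        (hNR J hJ1' i hi (decide (J < J1))).2
        (fun m h2 h3 => hψr.2 m (by linarith) (by linarith)) hsp hlt
        (fun m => h1 (-1 - m)) (hor (rf ψ) hψr.1) (-1 - n) (by rw [hat_rf]; exact hn)
      have e1 : rf ψ (-1 - n) = ψ n := by
        simp [rf]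
      rwa [e1] at h2

end Pool.Agent.MP31f1e8.AL
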