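import Pool.Agent.Lib.MP_31f1e8_mp.AL.Win
import Pool.Agent.Lib.MP_31f1e8_mp.AL.Core
import Pool.Agent.Lib.MP_31f1e8_mp.AL.Num

/-!
# AL: crossing a block; smallness inside

JOB AL-LocA. `B = lam / 400`, `θ = 1 / (B - 1)`, `δ = dlt lam j`.

* `eig_rf`, `spec_rf`: reflection (`rf V n = V (-1 - n)`).
* `site_bar`: `Bar` at a site.
* `cross_good`: `core_bound` with `s = bp j i - pad j`, `p = bp j i`, `q = bq j i`, `t`; the pads
  have type `≠ i` (`typ_inner`, `typ_outer`, `block_facts`, `hat_of_nonneg`). It gives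
  `δ |ψ n| ≤ θ ^ (3 * 2 ^ j) M + θ ^ (t - q) |ψ (t + 1)| ≤ 2 θ ^ (3 * 2 ^ j) M` (the last term is `0`
  or `t - q = 3 * 2 ^ j`), and `num_cross`.
* `inner_small`: `eb` with `Spec V (bp j i - pad j) t eb`, `|e - eb| < δ`. `Bar lam (B - 1) i eb`
  (`bar_mono`, `dlt_pos`). By `NR` (the right half, `t = outer j i s`) `2 δ ≤ |eY - eb|` for all `eY`
  with `Spec V (-1 - t) (bi j i + pad j) eY`, so `δ ≤ |e - eY|`. `core_bound` on
  `[-1 - t, bi j i + pad j]` with the core `[-1 - bq j i, bi j i]`: the pads are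
  `hat n ∈ (bq j i, t]` (left) and `n ∈ (bi j i, bi j i + pad j]` (right), of type `≠ i`. It gives
  `δ |ψ n| ≤ θ ^ (t - q) |ψ (-2 - t)| + θ ^ (3 * 2 ^ j) |ψ (bi + pad + 1)| ≤ 2 θ ^ (3 * 2 ^ j)`, and
  `num_small`; `hat n ≤ 8 * 2 ^ j ≤ bi j i` implies that `n` is in the core.
-/

namespace Pool.Agent.MP31f1e8.AL

open Finset

theorem eig_rf {V ψ : ℤ → ℝ} {a b : ℤ} {e : ℝ} :
    EigF (rf V) a b e (rf ψ) ↔ EigF V (-1 - b) (-1 - a) e ψ := by
  unfold EigF rf
  constructor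
  · rintro ⟨h1, h2⟩
    refine ⟨fun n hn => ?_, fun n hn hn' => ?_⟩
    · have h := h1 (-1 - n) (by omega)
      rwa [sub_sub_cancel] at h
    · have h := h2 (-1 - n) (by omega) (by omega)
      have e1 : -1 - (-1 - n + 1) = n - 1 := by ring
      have e2 : -1 - (-1 - n - 1) = n + 1 := by ring
      rw [sub_sub_cancel, e1, e2] at h
      linarith
  · rintro ⟨h1, h2⟩
    refine ⟨fun n hn => h1 (-1 - n) (by omega), fun n hn hn' => ?_⟩
    have h := h2 (-1 - n) (by omega) (by omega)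
    have e1 : -1 - (n + 1) = -1 - n - 1 := by ring
    have e2 : -1 - (n - 1) = -1 - n + 1 := by ring
    rw [e1, e2]
    linarith

private theorem locA_rf_rf {α : Type*} (V : ℤ → α) : rf (rf V) = V := by
  funext n
  unfold rf
  rw [sub_sub_cancel]

theorem spec_rf {V : ℤ → ℝ} {a b : ℤ} {e : ℝ} :
    Spec (rf V) a b e ↔ Spec V (-1 - b) (-1 - a) e := by
  unfold Spec
  constructor
  · rintro ⟨ψ, h, n, hn⟩
    refine ⟨rf ψ, ?_, -1 - n, ?_⟩
    · rw [← eig_rf, locA_rf_rf]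
      exact h
    · unfold rf
      rwa [sub_sub_cancel]
  · rintro ⟨ψ, h, n, hn⟩
    refine ⟨rf ψ, eig_rf.2 h, -1 - n, ?_⟩
    unfold rf
    rwa [sub_sub_cancel]

theorem site_bar {lam B : ℝ} {V : ℤ → ℝ}
    (hV : ∀ n, n ≠ 0 → n ≠ -1 → V n ∈ Set.Icc (wlo lam (typ n)) (whi lam (typ n))) {i : ℕ} {e : ℝ}
    (he : Bar lam B i e) {n : ℤ} (hn : 1 ≤ hat n) (hi : typ n ≠ i) : B ≤ |e - V n| := by
  refine he (typ n) (typ_le n) hi (V n) (hV n ?_ ?_)
  · rintro rfl
    simp [hat] at hn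
  · rintro rfl
    simp [hat] at hn

private theorem locA_pad (j : ℕ) : (pad j).toNat = 3 * 2 ^ j ∧ 0 < pad j := by
  have h1 : pad j = ((3 * 2 ^ j : ℕ) : ℤ) := by unfold pad; push_cast; ring
  have h2 : 0 < 3 * 2 ^ j := by positivity
  rw [h1]
  exact ⟨Int.toNat_natCast _, by exact_mod_cast h2⟩

theorem cross_good {lam : ℝ} (hlam : 10 ^ 60 ≤ lam) {V : ℤ → ℝ}
    (hV : ∀ n, n ≠ 0 → n ≠ -1 → V n ∈ Set.Icc (wlo lam (typ n)) (whi lam (typ n)))
    {j i : ℕ} (hj : 1 ≤ j) (hi : i < 16) {e : ℝ} (he : Bar lam (lam / 400) i e) {t : ℤ}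
    (ht : bq j i ≤ t) (ht' : t ≤ bq j i + pad j) {ψ : ℤ → ℝ}
    (hψ : ∀ n, bp j i - pad j ≤ n → n ≤ t → ψ (n + 1) + ψ (n - 1) + V n * ψ n = e * ψ n)
    (hb : ∀ eb, Spec V (bp j i - pad j) t eb → dlt lam j ≤ |e - eb|) {M : ℝ}
    (h1 : |ψ (bp j i - pad j - 1)| ≤ M) (h2 : |ψ (t + 1)| ≤ M)
    (h3 : t = bq j i + pad j ∨ ψ (t + 1) = 0) (n : ℤ) (hn : bp j i ≤ n) (hn' : n ≤ bq j i) :
    |ψ n| ≤ M * (lam ^ (-(1 / 5 : ℝ))) ^ (4 * 2 ^ j + 1) / 2 := by
  obtain ⟨hp1, hp2⟩ := locA_pad j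
  obtain ⟨-, -, b3, b4, b5, b6, b7, b8, b9, -, -, b12, -, -⟩ := block_facts hj hi true
  have hout : outer j i true = bq j i + pad j := by
    unfold outer
    rw [if_pos rfl]
  rw [hout] at b9
  have hpos := (dlt_pos hlam j).1
  have hl : (10000 : ℝ) ≤ lam := le_trans (by norm_num) hlam
  have hB : (3 : ℝ) ≤ lam / 400 := by linarith
  have hM : 0 ≤ M := le_trans (abs_nonneg _) h1
  have hθ : 0 ≤ 1 / (lam / 400 - 1) := by
    apply div_nonneg (by norm_num)
    linarith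
  have hcore := core_bound (V := V) (ψ := ψ) (s := bp j i - pad j) (p := bp j i) (q := bq j i)
    (t := t) (e := e) hB (by omega) (by omega) ht (by
      intro m hm hm'
      have hh := hat_of_nonneg (n := m) (by omega)
      refine site_bar hV he (by omega) (typ_inner hj hi ?_ ?_) <;> omega) (by
      intro m hm hm'
      have hh := hat_of_nonneg (n := m) (by omega)
      refine site_bar hV he (by omega) (typ_outer hj hi ?_ ?_) <;> omega)
    hpos hb hψ n hn hn'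
  have e1 : bp j i - (bp j i - pad j) = pad j := by ring
  rw [e1, hp1] at hcore
  have hA : (1 / (lam / 400 - 1)) ^ (3 * 2 ^ j) * |ψ (bp j i - pad j - 1)| ≤
      (1 / (lam / 400 - 1)) ^ (3 * 2 ^ j) * M := mul_le_mul_of_nonneg_left h1 (by positivity)
  have hC : (1 / (lam / 400 - 1)) ^ (t - bq j i).toNat * |ψ (t + 1)| ≤
      (1 / (lam / 400 - 1)) ^ (3 * 2 ^ j) * M := by
    rcases h3 with h3 | h3
    · have e2 : t - bq j i = pad j := by rw [h3]; ring
      rw [e2, hp1]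
      exact mul_le_mul_of_nonneg_left h2 (by positivity)
    · rw [h3, abs_zero, mul_zero]
      positivity
  have hnum := num_cross hlam (B := lam / 400) (by linarith) hj
  have hmul := mul_le_mul_of_nonneg_right hnum hM
  have hfin : dlt lam j * |ψ n| ≤
      dlt lam j * (M * (lam ^ (-(1 / 5 : ℝ))) ^ (4 * 2 ^ j + 1) / 2) := by
    calc dlt lam j * |ψ n| ≤ 2 * (1 / (lam / 400 - 1)) ^ (3 * 2 ^ j) * M := by linarith
      _ ≤ _ := hmul
      _ = _ := by ring
  exact le_of_mul_le_mul_left hfin hpos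

theorem inner_small {lam : ℝ} (hlam : 10 ^ 60 ≤ lam) {V : ℤ → ℝ}
    (hV : ∀ n, n ≠ 0 → n ≠ -1 → V n ∈ Set.Icc (wlo lam (typ n)) (whi lam (typ n)))
    {j i : ℕ} (hj : 1 ≤ j) (hi : i < 16) (s : Bool) {e : ℝ} (he : Bar lam (lam / 400) i e)
    (hNR : ¬ Reso lam V j i s (lam / 400 - 1) (2 * dlt lam j)) {ψ : ℤ → ℝ}
    (hψ : ∀ n, -1 - outer j i s ≤ n → n ≤ bi j i + pad j →
      ψ (n + 1) + ψ (n - 1) + V n * ψ n = e * ψ n)
    {eb : ℝ} (hb : Spec V (bp j i - pad j) (outer j i s) eb) (hb' : |e - eb| < dlt lam j)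
    (h1 : ∀ n, |ψ n| ≤ 1)
    (h3 : outer j i s = bq j i + pad j ∨ ψ (-2 - outer j i s) = 0) (n : ℤ)
    (hn : hat n ≤ 8 * 2 ^ j) : |ψ n| ≤ (1 / 4) ^ (2 ^ j) := by
  obtain ⟨hp1, hp2⟩ := locA_pad j
  obtain ⟨-, -, b3, b4, b5, b6, b7, b8, b9, -, -, b12, -, -⟩ := block_facts hj hi s
  obtain ⟨b1, -⟩ := block_facts hj hi s
  have h2j : (1 : ℤ) ≤ 2 ^ j := by exact_mod_cast Nat.one_le_two_pow
  obtain ⟨hpos, hdl⟩ := dlt_pos hlam j
  have hl : (10000 : ℝ) ≤ lam := le_trans (by norm_num) hlam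
  have hB : (3 : ℝ) ≤ lam / 400 := by linarith
  have hθ : 0 ≤ 1 / (lam / 400 - 1) := by
    apply div_nonneg (by norm_num)
    linarith
  have hbar : Bar lam (lam / 400 - 1) i eb := bar_mono he (by linarith)
  have hspec : ∀ e', Spec V (-1 - outer j i s) (bi j i + pad j) e' → dlt lam j ≤ |e - e'| := by
    intro e' he'
    by_contra hcon
    push Not at hcon
    apply hNR
    refine ⟨e', eb, he', hb, hbar, ?_⟩
    have h5 : e' - eb = (e - eb) - (e - e') := by ring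
    rw [h5]
    refine lt_of_le_of_lt (abs_sub _ _) ?_
    linarith
  have hmem : -1 - bq j i ≤ n ∧ n ≤ bi j i := by
    have hh : (hat n : ℤ) ≤ 8 * 2 ^ j := by exact_mod_cast hn
    have := hat_le_iff.1 hh
    constructor <;> omega
  have hcore := core_bound (V := V) (ψ := ψ) (s := -1 - outer j i s) (p := -1 - bq j i)
    (q := bi j i) (t := bi j i + pad j) (e := e) hB (by omega) (by omega) (by omega) (by
      intro m hm hm'
      have hh := hat_of_neg (n := m) (by omega)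
      refine site_bar hV he (by omega) (typ_outer hj hi ?_ ?_) <;> omega) (by
      intro m hm hm'
      have hh := hat_of_nonneg (n := m) (by omega)
      refine site_bar hV he (by omega) (typ_inner hj hi ?_ ?_) <;> omega)
    hpos hspec hψ n hmem.1 hmem.2
  have e1 : bi j i + pad j - bi j i = pad j := by ring
  have e2 : -1 - outer j i s - 1 = -2 - outer j i s := by ring
  have e3 : -1 - bq j i - (-1 - outer j i s) = outer j i s - bq j i := by ring
  rw [e1, e2, e3, hp1] at hcore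
  have hA : (1 / (lam / 400 - 1)) ^ (3 * 2 ^ j) * |ψ (bi j i + pad j + 1)| ≤
      (1 / (lam / 400 - 1)) ^ (3 * 2 ^ j) * 1 :=
    mul_le_mul_of_nonneg_left (h1 _) (by positivity)
  have hC : (1 / (lam / 400 - 1)) ^ (outer j i s - bq j i).toNat * |ψ (-2 - outer j i s)| ≤
      (1 / (lam / 400 - 1)) ^ (3 * 2 ^ j) * 1 := by
    rcases h3 with h3 | h3
    · have e4 : outer j i s - bq j i = pad j := by rw [h3]; ring
      rw [e4, hp1]
      exact mul_le_mul_of_nonneg_left (h1 _) (by positivity)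
    · rw [h3, abs_zero, mul_zero]
      positivity
  have hnum := num_small hlam (B := lam / 400) (by linarith) hj
  have hfin : dlt lam j * |ψ n| ≤ dlt lam j * (1 / 4) ^ (2 ^ j) := by linarith
  exact le_of_mul_le_mul_left hfin hpos

end Pool.Agent.MP31f1e8.AL
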