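import Pool.Agent.Lib.MP_31f1e8_mp.AL.GoodSet
import Pool.Agent.Lib.MP_31f1e8_mp.AL.Dimh
import Pool.Agent.Lib.MP_31f1e8_mp.AL.Dimn
import Pool.Agent.Lib.MP_31f1e8_mp.AL.Loc
import Pool.Agent.Lib.MP_31f1e8_mp.AL.Dense
import Pool.Agent.Lib.MP_31f1e8_mp.AL.Cent

/-!
# AL: the main theorem
-/

namespace Pool.Agent.MP31f1e8.AL

open MeasureTheory

theorem main {lam : ℝ} (hlam : 10 ^ 60 ≤ lam) (p : Real.Angle × Real.Angle) :
    ENNReal.ofReal (2 - 16 / Real.log lam) ≤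
      dimH {z ∈ Metric.closedBall p (9 / √lam) |
        (Submodule.span ℂ (expEig lam z)).topologicalClosure = ⊤} := by
  have hlam0 : 1600 ≤ lam := le_trans (by norm_num) hlam
  obtain ⟨a0, b0, k0, hb0, hd0⟩ := cen_exists hlam0 (Real.Angle.abs_toReal_le_pi p.1)
  obtain ⟨a1, b1, k1, hb1, hd1⟩ := cen_exists hlam0 (Real.Angle.abs_toReal_le_pi p.2)
  set z : Cen := ⟨a0, b0, k0, a1, b1, k1⟩ with hz
  have hg : z.Good lam := ⟨hb0, hb1⟩
  obtain ⟨G, hG, hpos, hGN⟩ := good_set hlam hg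
  have hN : 0 < NN lam := by
    have := (NN_le hlam).2.2.2
    omega
  have hex : ∀ y : ℝ × ℝ, ∃ x, Orb lam z (cod (NN lam) y.1 y.2) x := fun y =>
    orb_exists hlam hg fun n => cod_lt hN _ _ n
  choose x hx using hex
  refine (ENNReal.ofReal_le_ofReal (dim_num hlam)).trans
    ((dim_orb hlam hg hG hpos x fun y _ => hx y).trans (dimH_mono ?_))
  rintro _ ⟨y, hy, rfl⟩
  have hnorm : ∀ (v : ℝ) (t : Real.Angle), |v - t.toReal| ≤ 9 / √lam →
      dist (v : Real.Angle) t ≤ 9 / √lam := by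
    intro v t hv
    have e1 : dist (v : Real.Angle) t = ‖((v - t.toReal : ℝ) : Real.Angle)‖ := by
      rw [Real.Angle.coe_sub, Real.Angle.coe_toReal, dist_eq_norm]
    rw [e1]
    refine le_trans ?_ hv
    have e2 : ‖((v - t.toReal : ℝ) : AddCircle (2 * Real.pi))‖ ≤ ‖v - t.toReal‖ :=
      QuotientAddGroup.norm_mk_le_norm
    exact e2
  refine ⟨?_, ?_⟩
  · rw [Metric.mem_closedBall, Prod.dist_eq]
    exact max_le (hnorm _ _ (hd0 _ (hx y).cen0)) (hnorm _ _ (hd1 _ (hx y).cen1))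
  · have hNR := hGN y hy (x y) (hx y)
    have hwin : ∀ n, n ≠ 0 → n ≠ -1 →
        pot lam (x y) n ∈ Set.Icc (wlo lam (typ n)) (whi lam (typ n)) := fun n h0 h1 =>
      orb_window hlam hg (fun n => cod_lt hN _ _ n) (hx y) h0 h1
    refine dense_of_complete hlam (x := x y) (fun n => ?_) fun m ε hε => ?_
    · rw [stdMap_zpow (hx y).eq n, Real.Angle.cos_coe]
    · have hM : ∀ n, |pot lam (x y) n| ≤ lam := by
        intro n
        unfold pot
        rw [abs_mul, abs_of_nonneg (by linarith : (0 : ℝ) ≤ lam)]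
        exact mul_le_of_le_one_right (by linarith) (Real.abs_cos_le_one _)
      obtain ⟨t1, t2, -⟩ := num_tau hlam
      exact complete_seq hM t1 t2 (fun J1 hJ1 e ψ hψ h1 => loc_fv hlam hwin hNR hJ1 hψ h1) m hε

end Pool.Agent.MP31f1e8.AL
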