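import Pool.Agent.Lib.MP_31f1e8_mp.AL.Orbit

/-!
# AL: monotone dependence of the orbit on its digits

JOB AL-Mono. With `d n = x' n - x n`, `A n * d n = d (n + 1) + d (n - 1) + g n` (`orb_diff`), where
`g n = 2 π (mm c' n - mm c n)` vanishes where the digits agree (and at `n = 0, -1`).

`decay` (pure): if `|d n| ≤ R` for all `n`, and for `n < n0` one has `3 ≤ |A n|` and
`A n * d n = d (n + 1) + d (n - 1)`, then `|d n| ≤ |d (n + 1)| / 2` for `n < n0`. Proof: by induction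
on `k`, `|d n| ≤ |d (n + 1)| / 2 + R * 0.4 ^ k` for all `n < n0`: the induction hypothesis at `n - 1`
gives `3 |d n| ≤ |d (n + 1)| + |d n| / 2 + R * 0.4 ^ k`, so
`|d n| ≤ 0.4 |d (n + 1)| + R * 0.4 ^ (k + 1)`. Let `k → ∞`.
If moreover `0.57 lam ≤ A n` then `(0.57 lam - 1 / 2) |d n| ≤ |d (n + 1)|`, so
`|d n| ≤ (4 / lam) |d (n + 1)|`, and if `d (n + 1) > 0` then `d n > 0` and
`d (n + 1) ≤ (A n + 1 / 2) d n ≤ (lam + 3) d n`.

`agree_left`: digits that agree for `n < n0` (`n0 ≥ 1`). `mono_left`: moreover `c n0 < c' n0`; then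
`g n0 ≥ 2 π` and `A d n0 ≥ 2 π - 1 / 2 - |d n0| / 2`, so `d n0 > 0` and `(lam + 3) d n0 ≥ 5`.
`agree_both`: digits that agree for `1 ≤ hat n ≤ X`; for `1 ≤ hat n`
`|d n| ≤ (2 / (0.57 lam)) max (|d (n + 1)|, |d (n - 1)|)`, and for `n ∈ {0, -1}`
`max (|d 0|, |d (-1)|) ≤ max (|d 1|, |d (-2)|) / 2`; induction.
-/

namespace Pool.Agent.MP31f1e8.AL

theorem decay {A d : ℤ → ℝ} {R : ℝ} {n0 : ℤ} (hR : ∀ n, |d n| ≤ R)
    (hA : ∀ n < n0, 3 ≤ |A n|) (h : ∀ n < n0, A n * d n = d (n + 1) + d (n - 1)) :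
    ∀ n < n0, |d n| ≤ |d (n + 1)| / 2 := by
  have hR0 : 0 ≤ R := (abs_nonneg _).trans (hR 0)
  have key : ∀ k : ℕ, ∀ n < n0, |d n| ≤ |d (n + 1)| / 2 + R * 0.4 ^ k := by
    intro k
    induction k with
    | zero =>
      intro n _
      have h1 := hR n
      have h2 := abs_nonneg (d (n + 1))
      simp only [pow_zero, mul_one]
      linarith
    | succ k ih =>
      intro n hn
      have h1 := ih (n - 1) (by omega)
      rw [sub_add_cancel] at h1
      have h2 : |A n| * |d n| ≤ |d (n + 1)| + |d (n - 1)| := by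
        rw [← abs_mul, h n hn]
        exact abs_add_le _ _
      have h3 : 3 * |d n| ≤ |A n| * |d n| := mul_le_mul_of_nonneg_right (hA n hn) (abs_nonneg _)
      have h4 := abs_nonneg (d (n + 1))
      rw [pow_succ]
      linarith
  intro n hn
  have hlim : Filter.Tendsto (fun k : ℕ => |d (n + 1)| / 2 + R * 0.4 ^ k) Filter.atTop
      (nhds (|d (n + 1)| / 2 + R * 0)) := by
    apply Filter.Tendsto.const_add
    apply Filter.Tendsto.const_mul
    exact tendsto_pow_atTop_nhds_zero_of_lt_one (by norm_num) (by norm_num)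
  have := ge_of_tendsto' hlim (fun k => key k n hn)
  simpa using this

theorem decay_strong {lam : ℝ} (hlam : 10 ^ 60 ≤ lam) {A d : ℤ → ℝ} {R : ℝ} {n0 : ℤ}
    (hR : ∀ n, |d n| ≤ R) (hA : ∀ n < n0, 3 ≤ |A n|)
    (h : ∀ n < n0, A n * d n = d (n + 1) + d (n - 1)) {n : ℤ} (hn : n < n0)
    (hAn : 0.57 * lam ≤ A n) (hAn' : A n ≤ lam + 2) :
    |d n| ≤ 4 / lam * |d (n + 1)| ∧ (0 < d (n + 1) → 0 < d n ∧ d (n + 1) ≤ (lam + 3) * d n) := by
  have hl : (100 : ℝ) ≤ lam := le_trans (by norm_num) hlam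
  have h1 := decay hR hA h (n - 1) (by omega)
  rw [sub_add_cancel] at h1
  have h2 := h n hn
  have hA0 : 0 < A n := by linarith
  constructor
  · have h3 : A n * |d n| ≤ |d (n + 1)| + |d (n - 1)| := by
      rw [← abs_of_pos hA0, ← abs_mul, h2]
      exact abs_add_le _ _
    have h4 : (lam / 4) * |d n| ≤ (A n - 1 / 2) * |d n| :=
      mul_le_mul_of_nonneg_right (by linarith) (abs_nonneg _)
    have h5 : (lam / 4) * |d n| ≤ |d (n + 1)| := by linarith
    have h6 : 4 / lam * ((lam / 4) * |d n|) = |d n| := by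
      field_simp
    rw [← h6]
    exact mul_le_mul_of_nonneg_left h5 (by positivity)
  · intro hd
    have h3 := abs_le.1 h1
    have hpos : 0 < d n := by
      by_contra hneg
      push Not at hneg
      rw [abs_of_nonpos hneg] at h3
      have : (A n - 1 / 2) * d n ≤ 0 :=
        mul_nonpos_of_nonneg_of_nonpos (by linarith) hneg
      linarith [h3.1]
    refine ⟨hpos, ?_⟩
    rw [abs_of_pos hpos] at h3
    have : A n * d n ≤ (lam + 2) * d n := mul_le_mul_of_nonneg_right hAn' hpos.le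
    linarith [h3.1]

theorem Mono_mm_eq {lam : ℝ} {z : Cen} {c c' : ℤ → ℕ} {n : ℤ} (h : n ≠ 0 → n ≠ -1 → c n = c' n) :
    mm lam z c' n = mm lam z c n := by
  unfold mm
  split_ifs with h1 h2
  · rfl
  · rfl
  · rw [h h1 h2]

theorem Mono_setup {lam : ℝ} (hlam : 10 ^ 60 ≤ lam) {z : Cen} (hz : z.Good lam) {c c' : ℤ → ℕ}
    {x x' : ℤ → ℝ} (hx : Orb lam z c x) (hx' : Orb lam z c' x') {n0 : ℤ}
    (hc : ∀ n < n0, c n = c' n) :
    ∃ A : ℤ → ℝ, (∀ n, 3 ≤ |A n| ∧ |A n| ≤ lam + 2) ∧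
      (∀ n, n ≠ 0 → n ≠ -1 → 0.57 * lam ≤ A n) ∧
      (∀ n, A n * (x' n - x n) = (x' (n + 1) - x (n + 1)) + (x' (n - 1) - x (n - 1)) +
        2 * Real.pi * ((mm lam z c' n : ℝ) - mm lam z c n)) ∧
      (∀ n < n0, A n * (x' n - x n) = (x' (n + 1) - x (n + 1)) + (x' (n - 1) - x (n - 1))) ∧
      (∀ n < n0, |x' n - x n| ≤ |x' (n + 1) - x (n + 1)| / 2) ∧
      (∀ n < n0, 1 ≤ n → |x' n - x n| ≤ 4 / lam * |x' (n + 1) - x (n + 1)| ∧
        (0 < x' (n + 1) - x (n + 1) → 0 < x' n - x n ∧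
          x' (n + 1) - x (n + 1) ≤ (lam + 3) * (x' n - x n))) := by
  obtain ⟨A, hA1, hA2, hA3⟩ := orb_diff hlam hz hx hx'
  have h4 : ∀ n < n0, A n * (x' n - x n) =
      (x' (n + 1) - x (n + 1)) + (x' (n - 1) - x (n - 1)) := by
    intro n hn
    rw [hA3 n, Mono_mm_eq (fun _ _ => hc n hn)]
    ring
  have hR : ∀ n, |(fun n => x' n - x n) n| ≤ 7 := fun n => (diff_bdd hlam hz hx hx' n).1
  have h5 := decay (A := A) (d := fun n => x' n - x n) (n0 := n0) hR (fun n _ => (hA1 n).1) h4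
  refine ⟨A, hA1, hA2, hA3, h4, h5, ?_⟩
  intro n hn h1
  exact decay_strong hlam (A := A) (d := fun n => x' n - x n) (n0 := n0) hR
    (fun n _ => (hA1 n).1) h4 hn (hA2 n (by omega) (by omega))
    ((le_abs_self _).trans (hA1 n).2)

theorem agree_left {lam : ℝ} (hlam : 10 ^ 60 ≤ lam) {z : Cen} (hz : z.Good lam) {c c' : ℤ → ℕ}
    {x x' : ℤ → ℝ} (hx : Orb lam z c x) (hx' : Orb lam z c' x') {n0 : ℤ} (h0 : 1 ≤ n0)
    (hc : ∀ n < n0, c n = c' n) (n : ℤ) (hn : n ≤ n0) :
    |x' n - x n| ≤ (4 / lam) ^ (n0 - max n 1).toNat := by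
  have hl : (100 : ℝ) ≤ lam := le_trans (by norm_num) hlam
  obtain ⟨A, hA1, hA2, hA3, h4, h5, h6⟩ := Mono_setup hlam hz hx hx' hc
  -- the sites at or after one
  have key : ∀ k : ℕ, (k : ℤ) ≤ n0 - 1 → |x' (n0 - k) - x (n0 - k)| ≤ (4 / lam) ^ k := by
    intro k
    induction k with
    | zero =>
      intro _
      have := (diff_bdd hlam hz hx hx' n0).2 (by omega) (by omega)
      simp only [Nat.cast_zero, sub_zero, pow_zero]
      linarith
    | succ k ih =>
      intro hk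
      push_cast at hk
      have h7 := ih (by omega)
      have h8 := (h6 (n0 - ((k + 1 : ℕ) : ℤ)) (by push_cast; omega) (by push_cast; omega)).1
      have h9 : n0 - ((k + 1 : ℕ) : ℤ) + 1 = n0 - k := by push_cast; ring
      rw [h9] at h8
      calc |x' (n0 - ((k + 1 : ℕ) : ℤ)) - x (n0 - ((k + 1 : ℕ) : ℤ))|
          ≤ 4 / lam * |x' (n0 - k) - x (n0 - k)| := h8
        _ ≤ 4 / lam * (4 / lam) ^ k := mul_le_mul_of_nonneg_left h7 (by positivity)
        _ = (4 / lam) ^ (k + 1) := by ring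
  by_cases h1 : 1 ≤ n
  · rw [max_eq_left h1]
    have h7 := key (n0 - n).toNat (by omega)
    have h8 : n0 - (((n0 - n).toNat : ℕ) : ℤ) = n := by omega
    rwa [h8] at h7
  · rw [max_eq_right (by omega)]
    have h7 := key (n0 - 1).toNat (by omega)
    have h8 : n0 - (((n0 - 1).toNat : ℕ) : ℤ) = 1 := by omega
    rw [h8] at h7
    have h9 : ∀ k : ℕ, |x' (1 - k) - x (1 - k)| ≤ |x' 1 - x 1| := by
      intro k
      induction k with
      | zero => simp
      | succ k ih =>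
        have h10 := h5 (1 - ((k + 1 : ℕ) : ℤ)) (by push_cast; omega)
        have h11 : 1 - ((k + 1 : ℕ) : ℤ) + 1 = 1 - k := by push_cast; ring
        rw [h11] at h10
        have := abs_nonneg (x' (1 - (k : ℤ)) - x (1 - (k : ℤ)))
        linarith
    have h10 := h9 (1 - n).toNat
    have h11 : 1 - (((1 - n).toNat : ℕ) : ℤ) = n := by omega
    rw [h11] at h10
    exact h10.trans h7

theorem mono_left {lam : ℝ} (hlam : 10 ^ 60 ≤ lam) {z : Cen} (hz : z.Good lam) {c c' : ℤ → ℕ}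
    {x x' : ℤ → ℝ} (hx : Orb lam z c x) (hx' : Orb lam z c' x') {n0 : ℤ} (h0 : 1 ≤ n0)
    (hc : ∀ n < n0, c n = c' n) (hlt : c n0 < c' n0) :
    pot lam x' n0 + 1 ≤ pot lam x n0 ∧
      ∀ n, 1 ≤ n → n ≤ n0 → 2.4 * lam / (lam + 3) ^ (n0 - n + 1).toNat ≤
        pot lam x n - pot lam x' n := by
  have hl : (100 : ℝ) ≤ lam := le_trans (by norm_num) hlam
  obtain ⟨A, hA1, hA2, hA3, h4, h5, h6⟩ := Mono_setup hlam hz hx hx' hc
  have hmm : (1 : ℝ) ≤ (mm lam z c' n0 : ℝ) - mm lam z c n0 := by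
    have : mm lam z c n0 + 1 ≤ mm lam z c' n0 := by
      unfold mm
      rw [if_neg (by omega), if_neg (by omega), if_neg (by omega), if_neg (by omega)]
      push_cast
      omega
    have h2 : ((mm lam z c n0 + 1 : ℤ) : ℝ) ≤ (mm lam z c' n0 : ℝ) := by exact_mod_cast this
    push_cast at h2
    linarith
  have hA := hA3 n0
  have hAp : 0.57 * lam ≤ A n0 := hA2 n0 (by omega) (by omega)
  have hAu : A n0 ≤ lam + 2 := (le_abs_self _).trans (hA1 n0).2
  have h7 := (diff_bdd hlam hz hx hx' (n0 + 1)).2 (by omega) (by omega)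
  have h8 := h5 (n0 - 1) (by omega)
  rw [sub_add_cancel] at h8
  have hpi : 3.14 < Real.pi := Real.pi_gt_d2
  have h9 : 2 * Real.pi ≤ 2 * Real.pi * ((mm lam z c' n0 : ℝ) - mm lam z c n0) := by
    have : 0 ≤ 2 * Real.pi := by positivity
    nlinarith
  have h10 := (abs_le.1 h7).1
  have h11 := (abs_le.1 h8).1
  have hpos : 0 < x' n0 - x n0 := by
    by_contra hneg
    push Not at hneg
    rw [abs_of_nonpos hneg] at h11
    have : (A n0 - 1 / 2) * (x' n0 - x n0) ≤ 0 :=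
      mul_nonpos_of_nonneg_of_nonpos (by linarith) hneg
    linarith
  rw [abs_of_pos hpos] at h11
  have h12 : 5 ≤ (lam + 3) * (x' n0 - x n0) := by
    have : A n0 * (x' n0 - x n0) ≤ (lam + 2) * (x' n0 - x n0) :=
      mul_le_mul_of_nonneg_right hAu hpos.le
    linarith
  have hl3 : 0 < lam + 3 := by linarith
  have key : ∀ k : ℕ, (k : ℤ) ≤ n0 - 1 → 0 < x' (n0 - k) - x (n0 - k) ∧
      5 / (lam + 3) ^ (k + 1) ≤ x' (n0 - k) - x (n0 - k) := by
    intro k
    induction k with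
    | zero =>
      intro _
      simp only [Nat.cast_zero, sub_zero, zero_add, pow_one]
      refine ⟨hpos, ?_⟩
      rw [div_le_iff₀ hl3]
      linarith
    | succ k ih =>
      intro hk
      push_cast at hk
      obtain ⟨h13, h14⟩ := ih (by omega)
      have h15 := (h6 (n0 - ((k + 1 : ℕ) : ℤ)) (by push_cast; omega) (by push_cast; omega)).2
      have h16 : n0 - ((k + 1 : ℕ) : ℤ) + 1 = n0 - k := by push_cast; ring
      rw [h16] at h15
      obtain ⟨h17, h18⟩ := h15 h13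
      refine ⟨h17, ?_⟩
      have h19 : 5 / (lam + 3) ^ (k + 1 + 1) = 5 / (lam + 3) ^ (k + 1) / (lam + 3) := by
        rw [pow_succ (lam + 3) (k + 1), div_mul_eq_div_div]
      rw [h19, div_le_iff₀ hl3]
      linarith
  have main : ∀ n, 1 ≤ n → n ≤ n0 → 2.4 * lam / (lam + 3) ^ (n0 - n + 1).toNat ≤
        pot lam x n - pot lam x' n := by
    intro n hn1 hn2
    obtain ⟨h13, h14⟩ := key (n0 - n).toNat (by omega)
    have h15 : n0 - (((n0 - n).toNat : ℕ) : ℤ) = n := by omega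
    rw [h15] at h13 h14
    have h16 : (n0 - n + 1).toNat = (n0 - n).toNat + 1 := by omega
    rw [h16]
    have h17 := (pot_diff hlam hz hx hx' n).2 (by omega) (by omega) (by linarith)
    refine le_trans ?_ h17
    calc 2.4 * lam / (lam + 3) ^ ((n0 - n).toNat + 1)
        = 0.48 * lam * (5 / (lam + 3) ^ ((n0 - n).toNat + 1)) := by ring
      _ ≤ 0.48 * lam * (x' n - x n) := mul_le_mul_of_nonneg_left h14 (by positivity)
  refine ⟨?_, main⟩
  have h13 := main n0 h0 le_rfl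
  have h14 : (n0 - n0 + 1).toNat = 1 := by omega
  rw [h14, pow_one] at h13
  have h15 : 1 ≤ 2.4 * lam / (lam + 3) := by
    rw [le_div_iff₀ hl3]
    linarith
  linarith

theorem Mono_hat_zero {n : ℤ} (h : hat n = 0) : n = 0 ∨ n = -1 := by
  unfold hat at h
  split_ifs at h <;> omega

theorem Mono_hat_step (n : ℤ) : hat (n + 1) ≤ hat n + 1 ∧ hat (n - 1) ≤ hat n + 1 := by
  unfold hat
  constructor <;> split_ifs <;> omega

theorem agree_both {lam : ℝ} (hlam : 10 ^ 60 ≤ lam) {z : Cen} (hz : z.Good lam) {c c' : ℤ → ℕ}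
    {x x' : ℤ → ℝ} (hx : Orb lam z c x) (hx' : Orb lam z c' x') {X : ℕ}
    (hc : ∀ n, 1 ≤ hat n → hat n ≤ X → c n = c' n) (t : ℕ) (ht : 1 ≤ t) (ht' : t ≤ X + 1) (n : ℤ)
    (hn : hat n ≤ t) : |x' n - x n| ≤ (4 / lam) ^ (X + 1 - t) := by
  have hl : (100 : ℝ) ≤ lam := le_trans (by norm_num) hlam
  obtain ⟨A, hA1, hA2, hA3⟩ := orb_diff hlam hz hx hx'
  have hmm : ∀ n, hat n ≤ X → A n * (x' n - x n) =
      (x' (n + 1) - x (n + 1)) + (x' (n - 1) - x (n - 1)) := by
    intro n hn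
    have h1 : n ≠ 0 → n ≠ -1 → c n = c' n := by
      intro h1 h2
      refine hc n ?_ hn
      by_contra h3
      rcases Mono_hat_zero (show hat n = 0 by omega) with h | h
      · exact h1 h
      · exact h2 h
    rw [hA3 n, Mono_mm_eq h1]
    ring
  have hh0 : hat 0 = 0 := by simp [hat]
  have hh1 : hat (-1) = 0 := by simp [hat]
  -- the central sites
  have cen : ∀ B : ℝ, |x' 1 - x 1| ≤ B → |x' (-2) - x (-2)| ≤ B →
      |x' 0 - x 0| ≤ B ∧ |x' (-1) - x (-1)| ≤ B := by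
    intro B hB1 hB2
    have e0 := hmm 0 (by rw [hh0]; omega)
    have e1 := hmm (-1) (by rw [hh1]; omega)
    have f0 : 3 * |x' 0 - x 0| ≤ |x' 1 - x 1| + |x' (-1) - x (-1)| := by
      calc 3 * |x' 0 - x 0| ≤ |A 0| * |x' 0 - x 0| :=
            mul_le_mul_of_nonneg_right (hA1 0).1 (abs_nonneg _)
        _ = |(x' (0 + 1) - x (0 + 1)) + (x' (0 - 1) - x (0 - 1))| := by rw [← abs_mul, e0]
        _ ≤ |x' (0 + 1) - x (0 + 1)| + |x' (0 - 1) - x (0 - 1)| := abs_add_le _ _
        _ = |x' 1 - x 1| + |x' (-1) - x (-1)| := by norm_num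
    have f1 : 3 * |x' (-1) - x (-1)| ≤ |x' 0 - x 0| + |x' (-2) - x (-2)| := by
      calc 3 * |x' (-1) - x (-1)| ≤ |A (-1)| * |x' (-1) - x (-1)| :=
            mul_le_mul_of_nonneg_right (hA1 (-1)).1 (abs_nonneg _)
        _ = |(x' (-1 + 1) - x (-1 + 1)) + (x' (-1 - 1) - x (-1 - 1))| := by rw [← abs_mul, e1]
        _ ≤ |x' (-1 + 1) - x (-1 + 1)| + |x' (-1 - 1) - x (-1 - 1)| := abs_add_le _ _
        _ = |x' 0 - x 0| + |x' (-2) - x (-2)| := by norm_num
    have := abs_nonneg (x' 0 - x 0)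
    have := abs_nonneg (x' (-1) - x (-1))
    constructor <;> linarith
  have key : ∀ s : ℕ, s ≤ X → ∀ n, hat n ≤ X + 1 - s → |x' n - x n| ≤ (4 / lam) ^ s := by
    intro s
    induction s with
    | zero =>
      intro _ n _
      rw [pow_zero]
      have hnc : ∀ n, n ≠ 0 → n ≠ -1 → |x' n - x n| ≤ 1 := fun n h1 h2 =>
        ((diff_bdd hlam hz hx hx' n).2 h1 h2).trans (by norm_num)
      have h1 := cen 1 (hnc 1 (by norm_num) (by norm_num)) (hnc (-2) (by norm_num) (by norm_num))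
      by_cases h2 : n = 0
      · rw [h2]; exact h1.1
      · by_cases h3 : n = -1
        · rw [h3]; exact h1.2
        · exact hnc n h2 h3
    | succ s ih =>
      intro hs n hn
      have ih' := ih (by omega)
      have hnc : ∀ n, 1 ≤ hat n → hat n ≤ X + 1 - (s + 1) →
          |x' n - x n| ≤ (4 / lam) ^ (s + 1) := by
        intro n h1 h2
        have hn0 : n ≠ 0 := by rintro rfl; omega
        have hn1 : n ≠ -1 := by rintro rfl; omega
        have e := hmm n (by omega)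
        obtain ⟨s1, s2⟩ := Mono_hat_step n
        have b1 := ih' (n + 1) (by omega)
        have b2 := ih' (n - 1) (by omega)
        have hA := hA2 n hn0 hn1
        have hA0 : 0 < A n := by linarith
        have h3 : A n * |x' n - x n| ≤ (4 / lam) ^ s + (4 / lam) ^ s := by
          calc A n * |x' n - x n| = |A n * (x' n - x n)| := by rw [abs_mul, abs_of_pos hA0]
            _ = |(x' (n + 1) - x (n + 1)) + (x' (n - 1) - x (n - 1))| := by rw [e]
            _ ≤ |x' (n + 1) - x (n + 1)| + |x' (n - 1) - x (n - 1)| := abs_add_le _ _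
            _ ≤ _ := add_le_add b1 b2
        have h4 : lam / 2 * |x' n - x n| ≤ A n * |x' n - x n| :=
          mul_le_mul_of_nonneg_right (by linarith) (abs_nonneg _)
        have h5 : lam / 4 * |x' n - x n| ≤ (4 / lam) ^ s := by linarith
        calc |x' n - x n| = 4 / lam * (lam / 4 * |x' n - x n|) := by field_simp
          _ ≤ 4 / lam * (4 / lam) ^ s := mul_le_mul_of_nonneg_left h5 (by positivity)
          _ = (4 / lam) ^ (s + 1) := by ring
      have hp : hat 1 = 1 := by simp [hat]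
      have hm : hat (-2) = 1 := by simp [hat]
      have h1 := cen _ (hnc 1 (by omega) (by omega)) (hnc (-2) (by omega) (by omega))
      by_cases h2 : 1 ≤ hat n
      · exact hnc n h2 hn
      · rcases Mono_hat_zero (show hat n = 0 by omega) with h | h
        · rw [h]; exact h1.1
        · rw [h]; exact h1.2
  exact key (X + 1 - t) (by omega) n (by omega)

end Pool.Agent.MP31f1e8.AL
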