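import Pool.Agent.Lib.MP_31f1e8_mp.AL.Win

/-!
# AL: existence of the coded orbits, differences of two orbits

JOB AL-Orbit.

`orb_exists`: `exists_orbit` (file `Fix`) applied to the inverse branches `G n` of `F lam` given by
`exists_branch` (file `Fix`), with `r = 2 π` and `v = 2 π * mm lam z c n`, on the interval
`[a, b] = [xlo, xhi]` (`n ≠ 0, -1`), `[a0, b0]`, `[a1, b1]`. On `[xlo, xhi]` one has
`cos x ≥ 0.57` (`√(1 - 0.82²) = 0.572`), `F' = 2 + lam cos x ≥ 3`, and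
`F xlo = 2 xlo + 0.48 lam ≤ 2π m - 2π`, `2π m + 2π ≤ 2 xhi + 0.82 lam` because
`0.502 lam ≤ 2π · 80 N ≤ 2π m ≤ 2π · 129 N ≤ 0.811 lam`. All `|x n| ≤ π`, so
`|x (n + 1) + x (n - 1)| ≤ 2π` and `F (x n) = x (n + 1) + x (n - 1) + 2π m`. (`|x n| ≤ 4` for
`exists_orbit`. The theorem `F_mvt` of `Chain` gives the expansion `3 |x - y| ≤ |F x - F y|`.)

`orb_diff`: the mean value theorem `F_mvt` (file `Chain`) for `F (x' n) - F (x n)`.
-/

namespace Pool.Agent.MP31f1e8.AL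

open Pool.Agent.MP31f1e8

private theorem Orbit_sin_half : Real.sin 0.5 ≤ 0.48 := by
  have h1 := Real.sin_bound (x := 0.25) (by rw [abs_of_pos] <;> norm_num)
  have h2 := Real.cos_bound (x := 0.25) (by rw [abs_of_pos] <;> norm_num)
  rw [abs_of_pos (by norm_num : (0:ℝ) < 0.25)] at h1 h2
  rw [abs_le] at h1 h2
  have h3 : Real.sin 0.5 = 2 * Real.sin 0.25 * Real.cos 0.25 := by
    rw [← Real.sin_two_mul]
    norm_num
  have h4 : Real.sin 0.25 ≤ 0.2476 := by
    have := h1.2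
    norm_num at this ⊢
    linarith
  have h5 : Real.cos 0.25 ≤ 0.969 := by
    have := h2.2
    norm_num at this ⊢
    linarith
  have h6 : 0 ≤ Real.sin 0.25 := Real.sin_nonneg_of_nonneg_of_le_pi (by norm_num) (by linarith [Real.pi_gt_three])
  have h7 : 0 ≤ Real.cos 0.25 := by
    have := h2.1
    norm_num at this ⊢
    linarith
  rw [h3]
  nlinarith [mul_le_mul h4 h5 h7 (by norm_num)]

private theorem Orbit_sin_97 : 0.82 ≤ Real.sin 0.97 := by
  have h1 := Real.sin_bound (x := 0.2425) (by rw [abs_of_pos] <;> norm_num)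
  have h2 := Real.cos_bound (x := 0.2425) (by rw [abs_of_pos] <;> norm_num)
  rw [abs_of_pos (by norm_num : (0:ℝ) < 0.2425)] at h1 h2
  rw [abs_le] at h1 h2
  obtain ⟨s, hs⟩ : ∃ s, s = Real.sin 0.2425 := ⟨_, rfl⟩
  obtain ⟨c, hc⟩ : ∃ c, c = Real.cos 0.2425 := ⟨_, rfl⟩
  rw [← hs] at h1
  rw [← hc] at h2
  have s1 : 0.2399 ≤ s := by
    have := h1.1
    norm_num at this ⊢
    linarith
  have s2 : s ≤ 0.2404 := by
    have := h1.2
    norm_num at this ⊢
    linarith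
  have c1 : 0.9704 ≤ c := by
    have := h2.1
    norm_num at this ⊢
    linarith
  have e1 : Real.sin 0.485 = 2 * s * c := by
    rw [hs, hc, ← Real.sin_two_mul]
    norm_num
  have e2 : Real.cos 0.485 = 1 - 2 * s ^ 2 := by
    have h : Real.cos 0.485 = Real.cos (2 * 0.2425) := by norm_num
    rw [h, Real.cos_two_mul, hs]
    have := Real.sin_sq_add_cos_sq 0.2425
    linarith
  have e3 : Real.sin 0.97 = 2 * Real.sin 0.485 * Real.cos 0.485 := by
    rw [← Real.sin_two_mul]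
    norm_num
  have h3 : 0.4655 ≤ Real.sin 0.485 := by
    rw [e1]
    nlinarith [mul_le_mul s1 c1 (by norm_num) (by linarith)]
  have h4 : 0.884 ≤ Real.cos 0.485 := by
    rw [e2]
    nlinarith
  rw [e3]
  nlinarith [mul_le_mul h3 h4 (by norm_num) (by linarith)]

private theorem Orbit_sin_xlo : Real.sin xlo = 0.48 := by
  unfold xlo
  exact Real.sin_arcsin (by norm_num) (by norm_num)

private theorem Orbit_sin_xhi : Real.sin xhi = 0.82 := by
  unfold xhi
  exact Real.sin_arcsin (by norm_num) (by norm_num)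

private theorem Orbit_xlo_ge : 0.5 ≤ xlo := by
  unfold xlo
  have hpi := Real.pi_gt_three
  rw [Real.le_arcsin_iff_sin_le (by constructor <;> norm_num <;> linarith) (by constructor <;> norm_num)]
  exact Orbit_sin_half

private theorem Orbit_xhi_le : xhi ≤ 0.97 := by
  unfold xhi
  have hpi := Real.pi_gt_three
  rw [Real.arcsin_le_iff_le_sin (by constructor <;> norm_num) (by constructor <;> norm_num <;> linarith)]
  exact Orbit_sin_97

private theorem Orbit_win {x : ℝ} (hx : x ∈ Set.Icc xlo xhi) : 0.5 ≤ x ∧ x ≤ 0.97 ∧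
      0.57 ≤ Real.cos x ∧ 0.48 ≤ Real.sin x := by
  have hpi := Real.pi_gt_three
  have h1 : 0.5 ≤ x := Orbit_xlo_ge.trans hx.1
  have h2 : x ≤ 0.97 := hx.2.trans Orbit_xhi_le
  have h3 : 0.5 ≤ xhi := h1.trans hx.2
  have h4 : xlo ≤ 0.97 := hx.1.trans h2
  have s1 : 0.48 ≤ Real.sin x := by
    rw [← Orbit_sin_xlo]
    exact Real.sin_le_sin_of_le_of_le_pi_div_two (by linarith [Orbit_xlo_ge]) (by linarith) hx.1
  have s2 : Real.sin x ≤ 0.82 := by
    rw [← Orbit_sin_xhi]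
    exact Real.sin_le_sin_of_le_of_le_pi_div_two (by linarith) (by linarith [Orbit_xhi_le]) hx.2
  refine ⟨h1, h2, ?_, s1⟩
  have hc : 0 ≤ Real.cos x := Real.cos_nonneg_of_mem_Icc ⟨by linarith, by linarith⟩
  have hsq := Real.sin_sq_add_cos_sq x
  by_contra h
  push Not at h
  nlinarith

private theorem Orbit_sqrt {lam : ℝ} (hlam : 10 ^ 60 ≤ lam) : 4 / √lam ≤ 0.01 ∧ 0 ≤ 4 / √lam := by
  have h1 : (10 : ℝ) ^ 30 ≤ √lam := by
    apply Real.le_sqrt_of_sq_le
    refine le_trans (le_of_eq ?_) hlam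
    norm_num
  have h2 : (400 : ℝ) ≤ √lam := le_trans (by norm_num) h1
  have h3 : 0 < √lam := by linarith
  refine ⟨?_, by positivity⟩
  rw [div_le_iff₀ h3]
  linarith

/-- the lower ends of the branches -/
private noncomputable def Orbit_lo (z : Cen) (n : ℤ) : ℝ := if n = 0 then z.a0 else if n = -1 then z.a1 else xlo

/-- the upper ends of the branches -/
private noncomputable def Orbit_hi (z : Cen) (n : ℤ) : ℝ := if n = 0 then z.b0 else if n = -1 then z.b1 else xhi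

private theorem Orbit_mem {lam : ℝ} {z : Cen} {c : ℤ → ℕ} {x : ℤ → ℝ} (hx : Orb lam z c x) (n : ℤ) :
    x n ∈ Set.Icc (Orbit_lo z n) (Orbit_hi z n) := by
  unfold Orbit_lo Orbit_hi
  by_cases h0 : n = 0
  · subst h0
    rw [if_pos rfl, if_pos rfl]
    exact hx.cen0
  · by_cases h1 : n = -1
    · subst h1
      rw [if_neg h0, if_neg h0, if_pos rfl, if_pos rfl]
      exact hx.cen1
    · rw [if_neg h0, if_neg h0, if_neg h1, if_neg h1]
      exact hx.win n h0 h1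

private theorem Orbit_der {lam : ℝ} (hlam : 10 ^ 60 ≤ lam) {z : Cen} (hz : z.Good lam) (n : ℤ) {ξ : ℝ}
    (hξ : ξ ∈ Set.Icc (Orbit_lo z n) (Orbit_hi z n)) :
    (3 ≤ |2 + lam * Real.cos ξ| ∧ |2 + lam * Real.cos ξ| ≤ lam + 2) ∧
      (n ≠ 0 → n ≠ -1 → 0.57 * lam ≤ 2 + lam * Real.cos ξ) := by
  have hl1 : (100 : ℝ) ≤ lam := le_trans (by norm_num) hlam
  have hup : |2 + lam * Real.cos ξ| ≤ lam + 2 := by
    have h1 := Real.abs_cos_le_one ξ
    refine (abs_add_le _ _).trans ?_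
    rw [abs_mul, abs_of_pos (by linarith : 0 < lam), abs_of_pos (by norm_num : (0:ℝ) < 2)]
    nlinarith
  unfold Orbit_lo Orbit_hi at hξ
  by_cases h0 : n = 0
  · rw [if_pos h0, if_pos h0] at hξ
    exact ⟨⟨hz.1.2.2.2.1 ξ hξ, hup⟩, fun h => absurd h0 h⟩
  · by_cases h1 : n = -1
    · rw [if_neg h0, if_neg h0, if_pos h1, if_pos h1] at hξ
      exact ⟨⟨hz.2.2.2.2.1 ξ hξ, hup⟩, fun _ h => absurd h1 h⟩
    · rw [if_neg h0, if_neg h0, if_neg h1, if_neg h1] at hξ
      obtain ⟨-, -, hc, -⟩ := Orbit_win hξ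
      have h2 : 0.57 * lam ≤ 2 + lam * Real.cos ξ := by nlinarith
      refine ⟨⟨?_, hup⟩, fun _ _ => h2⟩
      rw [abs_of_pos (by linarith)]
      linarith

private theorem Orbit_bd {lam : ℝ} (hlam : 10 ^ 60 ≤ lam) {z : Cen} (hz : z.Good lam) (n : ℤ) {x : ℝ}
    (hx : x ∈ Set.Icc (Orbit_lo z n) (Orbit_hi z n)) : |x| ≤ Real.pi - 4 / √lam := by
  unfold Orbit_lo Orbit_hi at hx
  rw [abs_le]
  by_cases h0 : n = 0
  · rw [if_pos h0, if_pos h0] at hx
    exact ⟨hz.1.2.1.trans hx.1, hx.2.trans hz.1.2.2.1⟩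
  · by_cases h1 : n = -1
    · rw [if_neg h0, if_neg h0, if_pos h1, if_pos h1] at hx
      exact ⟨hz.2.2.1.trans hx.1, hx.2.trans hz.2.2.2.1⟩
    · rw [if_neg h0, if_neg h0, if_neg h1, if_neg h1] at hx
      obtain ⟨h2, h3, -, -⟩ := Orbit_win hx
      have hpi := Real.pi_gt_three
      have := Orbit_sqrt hlam
      constructor <;> linarith [this.1, this.2]

private theorem Orbit_le {lam : ℝ} {z : Cen} (hz : z.Good lam) (n : ℤ) :
    Orbit_lo z n ≤ Orbit_hi z n := by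
  unfold Orbit_lo Orbit_hi
  by_cases h0 : n = 0
  · rw [if_pos h0, if_pos h0]
    exact hz.1.1
  · by_cases h1 : n = -1
    · rw [if_neg h0, if_neg h0, if_pos h1, if_pos h1]
      exact hz.2.1
    · rw [if_neg h0, if_neg h0, if_neg h1, if_neg h1]
      unfold xlo xhi
      exact Real.monotone_arcsin (by norm_num)

private theorem Orbit_mm {lam : ℝ} (hlam : 10 ^ 60 ≤ lam) {z : Cen} {c : ℤ → ℕ}
    (hc : ∀ n, c n < NN lam) {n : ℤ} (h0 : n ≠ 0) (h1 : n ≠ -1) :
    0.502 * lam ≤ 2 * Real.pi * (mm lam z c n : ℝ) ∧ 2 * Real.pi * (mm lam z c n : ℝ) ≤ 0.811 * lam := by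
  have hl1 : (100 : ℝ) ≤ lam := le_trans (by norm_num) hlam
  obtain ⟨hN1, -, hN2, -⟩ := NN_le hlam
  have ht := typ_le n
  have hcn := hc n
  have e : mm lam z c n = (((80 + 3 * typ n) * NN lam + c n : ℕ) : ℤ) := by
    unfold mm
    rw [if_neg h0, if_neg h1]
  rw [e]
  have hpi1 := Real.pi_gt_d6
  have hpi2 := Real.pi_lt_d6
  have l1 : 80 * NN lam ≤ (80 + 3 * typ n) * NN lam + c n := by
    have : 80 * NN lam ≤ (80 + 3 * typ n) * NN lam := Nat.mul_le_mul_right _ (by omega)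
    omega
  have l2 : (80 + 3 * typ n) * NN lam + c n ≤ 129 * NN lam := by
    have : (80 + 3 * typ n) * NN lam ≤ 128 * NN lam := Nat.mul_le_mul_right _ (by omega)
    omega
  have l1' : (80 : ℝ) * NN lam ≤ (((80 + 3 * typ n) * NN lam + c n : ℕ) : ℝ) := by exact_mod_cast l1
  have l2' : (((80 + 3 * typ n) * NN lam + c n : ℕ) : ℝ) ≤ 129 * NN lam := by exact_mod_cast l2
  rw [Int.cast_natCast]
  obtain ⟨m, hm⟩ : ∃ m : ℝ, m = (((80 + 3 * typ n) * NN lam + c n : ℕ) : ℝ) := ⟨_, rfl⟩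
  rw [← hm] at l1' l2' ⊢
  have b1 : 80 / 1001 * lam ≤ m := by linarith
  have b2 : m ≤ 129 / 1000 * lam := by linarith
  have hm0 : 0 ≤ m := by nlinarith
  constructor
  · have : 2 * 3.141592 * (80 / 1001 * lam) ≤ 2 * Real.pi * m := by
      apply mul_le_mul _ b1 (by positivity) (by positivity)
      linarith
    norm_num at this ⊢
    linarith
  · have : 2 * Real.pi * m ≤ 2 * 3.141593 * (129 / 1000 * lam) := by
      apply mul_le_mul _ b2 hm0 (by norm_num)
      linarith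
    norm_num at this ⊢
    linarith

private theorem Orbit_cov {lam : ℝ} (hlam : 10 ^ 60 ≤ lam) {z : Cen} (hz : z.Good lam) {c : ℤ → ℕ}
    (hc : ∀ n, c n < NN lam) (n : ℤ) :
    (F lam (Orbit_lo z n) ≤ 2 * Real.pi * mm lam z c n - 2 * Real.pi ∧
      2 * Real.pi * mm lam z c n + 2 * Real.pi ≤ F lam (Orbit_hi z n)) ∨
    (F lam (Orbit_hi z n) ≤ 2 * Real.pi * mm lam z c n - 2 * Real.pi ∧
      2 * Real.pi * mm lam z c n + 2 * Real.pi ≤ F lam (Orbit_lo z n)) := by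
  by_cases h0 : n = 0
  · have e : mm lam z c n = z.k0 := by
      unfold mm
      rw [if_pos h0]
    unfold Orbit_lo Orbit_hi
    rw [e, if_pos h0, if_pos h0]
    exact hz.1.2.2.2.2
  · by_cases h1 : n = -1
    · have e : mm lam z c n = z.k1 := by
        unfold mm
        rw [if_neg h0, if_pos h1]
      unfold Orbit_lo Orbit_hi
      rw [e, if_neg h0, if_neg h0, if_pos h1, if_pos h1]
      exact hz.2.2.2.2.2
    · left
      obtain ⟨h2, h3⟩ := Orbit_mm hlam (z := z) hc h0 h1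
      have hl1 : (10000 : ℝ) ≤ lam := le_trans (by norm_num) hlam
      unfold Orbit_lo Orbit_hi F
      rw [if_neg h0, if_neg h0, if_neg h1, if_neg h1, Orbit_sin_xlo, Orbit_sin_xhi]
      have hpi := Real.pi_lt_four
      have hpi' := Real.pi_gt_three
      have a1 := Orbit_xlo_ge
      have a2 := Orbit_xhi_le
      have a3 : xlo ≤ xhi := by
        unfold xlo xhi
        exact Real.monotone_arcsin (by norm_num)
      constructor
      · nlinarith
      · nlinarith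

theorem orb_exists {lam : ℝ} (hlam : 10 ^ 60 ≤ lam) {z : Cen} (hz : z.Good lam) {c : ℤ → ℕ}
    (hc : ∀ n, c n < NN lam) : ∃ x, Orb lam z c x := by
  have hpi := Real.pi_pos
  have hbr : ∀ n : ℤ, ∃ G : ℝ → ℝ, (∀ s, G s ∈ Set.Icc (Orbit_lo z n) (Orbit_hi z n)) ∧
      (∀ s s', |G s - G s'| ≤ (1 / 3) * |s - s'|) ∧
      ∀ s, |s| ≤ 2 * Real.pi → F lam (G s) = s + 2 * Real.pi * mm lam z c n := by
    intro n
    refine exists_branch (F lam) (F_continuous lam) (Orbit_le hz n) (by positivity) ?_ (Orbit_cov hlam hz hc n)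
    intro x hx y hy
    obtain ⟨ξ, hξ, h⟩ := F_mvt lam hx hy
    rw [h, abs_mul]
    exact mul_le_mul_of_nonneg_right (Orbit_der hlam hz n hξ).1.1 (abs_nonneg _)
  choose G hG1 hG2 hG3 using hbr
  have hb : ∀ n s, |G n s| ≤ Real.pi := fun n s =>
    (Orbit_bd hlam hz n (hG1 n s)).trans (by linarith [(Orbit_sqrt hlam).2])
  obtain ⟨x, hx⟩ := exists_orbit G hG2 (fun n s => (hb n s).trans Real.pi_le_four)
  have hxb : ∀ n, |x n| ≤ Real.pi := fun n => by
    rw [hx n]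
    exact hb n _
  have hmem : ∀ n, x n ∈ Set.Icc (Orbit_lo z n) (Orbit_hi z n) := fun n => by
    rw [hx n]
    exact hG1 n _
  refine ⟨x, ⟨?_, ?_, ?_, ?_⟩⟩
  · intro n h0 h1
    have := hmem n
    unfold Orbit_lo Orbit_hi at this
    rwa [if_neg h0, if_neg h0, if_neg h1, if_neg h1] at this
  · have := hmem 0
    unfold Orbit_lo Orbit_hi at this
    rwa [if_pos rfl, if_pos rfl] at this
  · have := hmem (-1)
    unfold Orbit_lo Orbit_hi at this
    have h10 : ¬ ((-1 : ℤ) = 0) := by norm_num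
    rwa [if_neg h10, if_neg h10, if_pos rfl, if_pos rfl] at this
  · intro n
    have h1 : |x (n + 1) + x (n - 1)| ≤ 2 * Real.pi := by
      refine (abs_add_le _ _).trans ?_
      linarith [hxb (n + 1), hxb (n - 1)]
    have h2 := hG3 n _ h1
    rw [← hx n] at h2
    unfold F at h2
    linarith

theorem orb_abs {lam : ℝ} (hlam : 10 ^ 60 ≤ lam) {z : Cen} (hz : z.Good lam) {c : ℤ → ℕ}
    {x : ℤ → ℝ} (hx : Orb lam z c x) (n : ℤ) :
    |x n| ≤ Real.pi - 4 / √lam ∧ (n ≠ 0 → n ≠ -1 → 0.5 ≤ x n ∧ x n ≤ 0.97 ∧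
      0.57 ≤ Real.cos (x n) ∧ 0.48 ≤ Real.sin (x n)) :=
  ⟨Orbit_bd hlam hz n (Orbit_mem hx n), fun h0 h1 => Orbit_win (hx.win n h0 h1)⟩

private theorem Orbit_mm_rf (lam : ℝ) (z : Cen) (c : ℤ → ℕ) (n : ℤ) :
    mm lam z.refl (rf c) n = mm lam z c (-1 - n) := by
  unfold mm
  by_cases h0 : n = 0
  · subst h0
    rw [if_pos rfl, if_neg (by norm_num), if_pos (by norm_num)]
    rfl
  · by_cases h1 : n = -1
    · subst h1
      rw [if_neg (by norm_num), if_pos rfl, if_pos (by norm_num)]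
      rfl
    · rw [if_neg h0, if_neg h1, if_neg (by omega), if_neg (by omega), typ_rf]
      rfl

theorem orb_rf {lam : ℝ} {z : Cen} {c : ℤ → ℕ} {x : ℤ → ℝ} (hx : Orb lam z c x) :
    Orb lam z.refl (rf c) (rf x) := by
  refine ⟨?_, ?_, ?_, ?_⟩
  · intro n h0 h1
    exact hx.win (-1 - n) (by omega) (by omega)
  · have h := hx.cen1
    show x (-1 - 0) ∈ Set.Icc z.a1 z.b1
    rwa [sub_zero]
  · have h := hx.cen0
    show x (-1 - -1) ∈ Set.Icc z.a0 z.b0
    rwa [sub_self]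
  · intro n
    have h := hx.eq (-1 - n)
    rw [Orbit_mm_rf]
    show x (-1 - (n + 1)) + x (-1 - (n - 1)) = 2 * x (-1 - n) + lam * Real.sin (x (-1 - n)) - _
    have e1 : (-1 - (n + 1) : ℤ) = -1 - n - 1 := by ring
    have e2 : (-1 - (n - 1) : ℤ) = -1 - n + 1 := by ring
    rw [e1, e2, ← h]
    ring

theorem good_rf {lam : ℝ} {z : Cen} (hz : z.Good lam) : z.refl.Good lam := ⟨hz.2, hz.1⟩

theorem pot_rf {lam : ℝ} (x : ℤ → ℝ) : pot lam (rf x) = rf (pot lam x) := rfl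

theorem orb_diff {lam : ℝ} (hlam : 10 ^ 60 ≤ lam) {z : Cen} (hz : z.Good lam) {c c' : ℤ → ℕ}
    {x x' : ℤ → ℝ} (hx : Orb lam z c x) (hx' : Orb lam z c' x') :
    ∃ A : ℤ → ℝ, (∀ n, 3 ≤ |A n| ∧ |A n| ≤ lam + 2) ∧
      (∀ n, n ≠ 0 → n ≠ -1 → 0.57 * lam ≤ A n) ∧
      ∀ n, A n * (x' n - x n) = (x' (n + 1) - x (n + 1)) + (x' (n - 1) - x (n - 1)) +
        2 * Real.pi * ((mm lam z c' n : ℝ) - mm lam z c n) := by
  have h : ∀ n : ℤ, ∃ ξ ∈ Set.Icc (Orbit_lo z n) (Orbit_hi z n),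
      F lam (x' n) - F lam (x n) = (2 + lam * Real.cos ξ) * (x' n - x n) :=
    fun n => F_mvt lam (Orbit_mem hx' n) (Orbit_mem hx n)
  choose ξ hξ hF using h
  refine ⟨fun n => 2 + lam * Real.cos (ξ n), fun n => (Orbit_der hlam hz n (hξ n)).1,
    fun n => (Orbit_der hlam hz n (hξ n)).2, ?_⟩
  intro n
  have h1 := hF n
  have h2 := hx.eq n
  have h3 := hx'.eq n
  unfold F at h1
  show (2 + lam * Real.cos (ξ n)) * (x' n - x n) = _
  rw [← h1]
  linear_combination h2 - h3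

theorem diff_bdd {lam : ℝ} (hlam : 10 ^ 60 ≤ lam) {z : Cen} (hz : z.Good lam) {c c' : ℤ → ℕ}
    {x x' : ℤ → ℝ} (hx : Orb lam z c x) (hx' : Orb lam z c' x') (n : ℤ) :
    |x' n - x n| ≤ 7 ∧ (n ≠ 0 → n ≠ -1 → |x' n - x n| ≤ 1 / 2) := by
  obtain ⟨h1, h2⟩ := orb_abs hlam hz hx n
  obtain ⟨h1', h2'⟩ := orb_abs hlam hz hx' n
  have hs := Orbit_sqrt hlam
  have hpi := Real.pi_lt_d2
  constructor
  · refine (abs_sub _ _).trans ?_
    linarith [hs.2]
  · intro h0 h01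
    obtain ⟨a1, a2, -, -⟩ := h2 h0 h01
    obtain ⟨b1, b2, -, -⟩ := h2' h0 h01
    rw [abs_le]
    constructor <;> linarith

/-- differences of the potentials: `cos a - cos b = sin ξ * (b - a)` -/
theorem pot_diff {lam : ℝ} (hlam : 10 ^ 60 ≤ lam) {z : Cen} (hz : z.Good lam) {c c' : ℤ → ℕ}
    {x x' : ℤ → ℝ} (hx : Orb lam z c x) (hx' : Orb lam z c' x') (n : ℤ) :
    |pot lam x n - pot lam x' n| ≤ lam * |x' n - x n| ∧
      (n ≠ 0 → n ≠ -1 → x n ≤ x' n →
        0.48 * lam * (x' n - x n) ≤ pot lam x n - pot lam x' n) := by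
  have hl1 : (100 : ℝ) ≤ lam := le_trans (by norm_num) hlam
  have hl0 : 0 ≤ lam := by linarith
  unfold pot
  constructor
  · rw [← mul_sub, abs_mul, abs_of_nonneg hl0]
    refine mul_le_mul_of_nonneg_left ?_ hl0
    rw [abs_sub_comm (x' n)]
    have h := Real.lipschitzWith_cos.dist_le_mul (x n) (x' n)
    rw [Real.dist_eq, Real.dist_eq] at h
    simpa using h
  · intro h0 h1 hle
    rcases hle.lt_or_eq with h | h
    · obtain ⟨ξ, hξ, h2⟩ := exists_hasDerivAt_eq_slope Real.cos (fun y => -Real.sin y) h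
        Real.continuous_cos.continuousOn (fun y _ => Real.hasDerivAt_cos y)
      have h3 : x' n - x n ≠ 0 := by linarith
      have hmem : ξ ∈ Set.Icc xlo xhi := ⟨(hx.win n h0 h1).1.trans hξ.1.le, hξ.2.le.trans (hx'.win n h0 h1).2⟩
      obtain ⟨-, -, -, hs⟩ := Orbit_win hmem
      have h4 : Real.cos (x n) - Real.cos (x' n) = Real.sin ξ * (x' n - x n) := by
        rw [eq_div_iff h3] at h2
        linarith
      rw [← mul_sub, h4]
      have h5 : 0 < x' n - x n := by linarith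
      have h6 : 0.48 * (x' n - x n) ≤ Real.sin ξ * (x' n - x n) := mul_le_mul_of_nonneg_right hs h5.le
      nlinarith [mul_le_mul_of_nonneg_left h6 hl0]
    · rw [h, sub_self, sub_self, mul_zero]

end Pool.Agent.MP31f1e8.AL
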