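import Pool.Agent.Lib.MP_31f1e8_mp.AL.Defs

/-!
# AL: elimination of barrier pads (Schur complement)

JOB AL-Sc. `rL V e s k` is the ratio `ψ (s + k - 1) / ψ (s + k)` of the solution with
`ψ (s - 1) = 0`; `rR V e t k` the ratio `ψ (t - k + 1) / ψ (t - k)` of the solution with
`ψ (t + 1) = 0`.

* `rL_abs`, `rR_abs`: with `B ≤ |e - V|` on the pad and `B ≥ 10`, `|r| ≤ 1 / (B - 1) ≤ 1 / 9`.
* `rL_lip`: `|r_{k+1}(e) - r_{k+1}(e')| = |x - x'| / |x x'| ≤ (β + |r_k(e) - r_k(e')|) / 81 ≤ β / 40`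
  where `x = e - V - r_k`.
* `rL_mono`: if `V' ≤ V` on the pad and `e - V`, `e - V'` have the same sign at each site, then
  `rL V' ≤ rL V`: `x' = e - V' - r' ≥ x = e - V - r`, both of the same sign (the sign of `e - V`,
  because `|r| ≤ 1 / 9`), so `1 / x' ≤ 1 / x`.
* `appr_of_eig` (exact eigenfunction gives an approximate one of the effective operator at another
  energy): `f = ψ` on `[p, q]`, `0` outside. For `n ∈ [p, q]`
  `res = (e - e') ψ n + (if n = p then (rL e' - rL e) ψ p) + (if n = q then (rR e' - rR e) ψ q)`,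
  of absolute value `≤ 2 β |ψ n|`. `f ≠ 0`: if `ψ p = 0` then all `ψ` on the left pad vanish
  (`ψ (s + k - 1) = rL k * ψ (s + k)`, induction), similarly on the right, so `ψ = 0`.
* `veff_mono`: on the right pad the sites `n > n0` are not compared; at `n0`,
  `x' - x = (V n0 - V' n0) + (r - r') ≥ 1 - 2 / 9 > 0`, and then as in `rL_mono` down to `q`.
-/

namespace Pool.Agent.MP31f1e8.AL

open Finset

noncomputable def rL (V : ℤ → ℝ) (e : ℝ) (s : ℤ) : ℕ → ℝ
  | 0 => 0
  | k + 1 => 1 / (e - V (s + k) - rL V e s k)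

noncomputable def rR (V : ℤ → ℝ) (e : ℝ) (t : ℤ) : ℕ → ℝ
  | 0 => 0
  | k + 1 => 1 / (e - V (t - k) - rR V e t k)

/-- the effective potential on `[p, q]` at the energy `e` -/
noncomputable def veff (V : ℤ → ℝ) (e : ℝ) (s p q t : ℤ) (n : ℤ) : ℝ :=
  V n + (if n = p then rL V e s (p - s).toNat else 0) +
    (if n = q then rR V e t (t - q).toNat else 0)

private theorem rL_abs {V : ℤ → ℝ} {e B : ℝ} (hB : 10 ≤ B) (s : ℤ) :
    ∀ k : ℕ, (∀ j : ℕ, j < k → B ≤ |e - V (s + j)|) → |rL V e s k| ≤ 1 / 9 := by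
  intro k
  induction k with
  | zero => intro _; simp [rL]
  | succ k ih =>
    intro h
    have h1 := ih (fun j hj => h j (by omega))
    have h2 := h k (by omega)
    have h3 : 9 ≤ |e - V (s + k) - rL V e s k| := by
      have := abs_sub_abs_le_abs_sub (e - V (s+k)) (rL V e s k)
      linarith
    rw [rL, abs_div, abs_one]
    exact one_div_le_one_div_of_le (by norm_num) h3

private theorem rL_lip {V : ℤ → ℝ} {e e' B β : ℝ} (hB : 10 ≤ B) (s : ℤ) (hβ : |e - e'| ≤ β) :
    ∀ k : ℕ, (∀ j : ℕ, j < k → B ≤ |e - V (s + j)| ∧ B ≤ |e' - V (s + j)|) →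
      |rL V e s k - rL V e' s k| ≤ β / 40 := by
  have hβ0 : 0 ≤ β := le_trans (abs_nonneg _) hβ
  intro k
  induction k with
  | zero => intro _; simp [rL]; positivity
  | succ k ih =>
    intro h
    have h1 := ih (fun j hj => h j (by omega))
    have h2 := h k (by omega)
    have a1 := rL_abs hB s k (fun j hj => (h j (by omega)).1)
    have a2 := rL_abs hB s k (fun j hj => (h j (by omega)).2)
    have h3 : 9 ≤ |e - V (s + k) - rL V e s k| := by
      have := abs_sub_abs_le_abs_sub (e - V (s+k)) (rL V e s k)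
      linarith
    have h4 : 9 ≤ |e' - V (s + k) - rL V e' s k| := by
      have := abs_sub_abs_le_abs_sub (e' - V (s+k)) (rL V e' s k)
      linarith
    rw [rL, rL]
    set x := e - V (s + k) - rL V e s k with hx
    set x' := e' - V (s + k) - rL V e' s k with hx'
    have hx0 : x ≠ 0 := by intro h0; rw [h0] at h3; simp at h3; linarith
    have hx0' : x' ≠ 0 := by intro h0; rw [h0] at h4; simp at h4; linarith
    have e1 : 1 / x - 1 / x' = (x' - x) / (x * x') := by field_simp
    rw [e1, abs_div, abs_mul]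
    have h5 : |x' - x| ≤ β + β / 40 := by
      have : x' - x = -(e - e') + (rL V e s k - rL V e' s k) := by rw [hx, hx']; ring
      rw [this]
      calc |-(e - e') + (rL V e s k - rL V e' s k)| ≤ |-(e - e')| + |rL V e s k - rL V e' s k| :=
            abs_add_le _ _
        _ ≤ β + β / 40 := by rw [abs_neg]; linarith
    have h6 : 81 ≤ |x| * |x'| := by nlinarith
    rw [div_le_iff₀ (by linarith)]
    nlinarith

private theorem inv_mono {x x' : ℝ} (h : x ≤ x') (hs : 0 < x * x') : 1 / x' ≤ 1 / x := by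
  have hx : x ≠ 0 := by rintro rfl; simp at hs
  have hx' : x' ≠ 0 := by rintro rfl; simp at hs
  have h1 : 1 / x - 1 / x' = (x' - x) / (x * x') := by field_simp
  have h2 : 0 ≤ 1 / x - 1 / x' := by rw [h1]; exact div_nonneg (by linarith) hs.le
  linarith

private theorem sign_lem {a a' r r' B : ℝ} (hB : 10 ≤ B) (h1 : B ≤ |a|) (h2 : B ≤ |a'|)
    (h3 : 0 < a * a') (hr : |r| ≤ 1/9) (hr' : |r'| ≤ 1/9) : 0 < (a - r) * (a' - r') := by
  have hr1 := abs_le.1 hr
  have hr2 := abs_le.1 hr'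
  rcases pos_and_pos_or_neg_and_neg_of_mul_pos h3 with ⟨p, p'⟩ | ⟨p, p'⟩
  · rw [abs_of_pos p] at h1; rw [abs_of_pos p'] at h2
    exact mul_pos (by linarith) (by linarith)
  · rw [abs_of_neg p] at h1; rw [abs_of_neg p'] at h2
    exact mul_pos_of_neg_of_neg (by linarith) (by linarith)

private theorem rR_eq (V : ℤ → ℝ) (e : ℝ) (t : ℤ) :
    ∀ k : ℕ, rR V e t k = rL (fun n => V (-n)) e (-t) k := by
  intro k
  induction k with
  | zero => simp [rR, rL]
  | succ k ih =>
    rw [rR, rL, ih]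
    have : -(-t + (k : ℤ)) = t - k := by ring
    simp only [this]

private theorem rR_abs {V : ℤ → ℝ} {e B : ℝ} (hB : 10 ≤ B) (t : ℤ) (k : ℕ)
    (h : ∀ j : ℕ, j < k → B ≤ |e - V (t - j)|) : |rR V e t k| ≤ 1 / 9 := by
  rw [rR_eq]
  refine rL_abs hB (-t) k (fun j hj => ?_)
  have : -(-t + (j : ℤ)) = t - j := by ring
  simp only [this]
  exact h j hj

private theorem rR_lip {V : ℤ → ℝ} {e e' B β : ℝ} (hB : 10 ≤ B) (t : ℤ) (hβ : |e - e'| ≤ β)
    (k : ℕ) (h : ∀ j : ℕ, j < k → B ≤ |e - V (t - j)| ∧ B ≤ |e' - V (t - j)|) :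
      |rR V e t k - rR V e' t k| ≤ β / 40 := by
  rw [rR_eq, rR_eq]
  refine rL_lip hB (-t) hβ k (fun j hj => ?_)
  have : -(-t + (j : ℤ)) = t - j := by ring
  simp only [this]
  exact h j hj

private theorem psiL {V ψ : ℤ → ℝ} {s t : ℤ} {e B : ℝ} (hB : 10 ≤ B) (hψ : EigF V s t e ψ) :
    ∀ k : ℕ, (s + k ≤ t + 1) → (∀ j : ℕ, j < k → B ≤ |e - V (s + j)|) →
      ψ (s + k - 1) = rL V e s k * ψ (s + k) := by
  intro k
  induction k with
  | zero =>
    intro _ _
    simp [rL]
    exact hψ.1 _ (Or.inl (by omega))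
  | succ k ih =>
    intro hk h
    push_cast at hk
    have h1 := ih (by omega) (fun j hj => h j (by omega))
    have h2 := h k (by omega)
    have a1 := rL_abs hB s k (fun j hj => h j (by omega))
    have h3 : 9 ≤ |e - V (s + k) - rL V e s k| := by
      have := abs_sub_abs_le_abs_sub (e - V (s+k)) (rL V e s k)
      linarith
    have h4 := hψ.2 (s + k) (by omega) (by omega)
    rw [rL]
    have e1 : s + ((k + 1 : ℕ) : ℤ) - 1 = s + k := by push_cast; ring
    have e2 : s + ((k + 1 : ℕ) : ℤ) = s + k + 1 := by push_cast; ring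
    rw [e1, e2]
    set x := e - V (s + k) - rL V e s k with hx
    have hx0 : x ≠ 0 := by intro h0; rw [h0] at h3; simp at h3; linarith
    have h5 : ψ (s + k + 1) = x * ψ (s + k) := by
      rw [h1] at h4
      rw [hx]
      linarith
    rw [h5]
    field_simp

private theorem EigF_neg {V ψ : ℤ → ℝ} {s t : ℤ} {e : ℝ} (hψ : EigF V s t e ψ) :
    EigF (fun n => V (-n)) (-t) (-s) e (fun n => ψ (-n)) := by
  constructor
  · intro n hn
    exact hψ.1 (-n) (by omega)
  · intro n h1 h2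
    have h := hψ.2 (-n) (by omega) (by omega)
    have e1 : -(n + 1) = -n - 1 := by ring
    have e2 : -(n - 1) = -n + 1 := by ring
    simp only [e1, e2]
    linarith

private theorem psiR {V ψ : ℤ → ℝ} {s t : ℤ} {e B : ℝ} (hB : 10 ≤ B) (hψ : EigF V s t e ψ)
    (k : ℕ) (hk : s ≤ t + 1 - k) (h : ∀ j : ℕ, j < k → B ≤ |e - V (t - j)|) :
      ψ (t - k + 1) = rR V e t k * ψ (t - k) := by
  rw [rR_eq]
  have h1 := psiL hB (EigF_neg hψ) k (by omega) (fun j hj => by
    have : -(-t + (j : ℤ)) = t - j := by ring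
    simp only [this]
    exact h j hj)
  have e1 : -(-t + (k : ℤ) - 1) = t - k + 1 := by ring
  have e2 : -(-t + (k : ℤ)) = t - k := by ring
  simp only [e1, e2] at h1
  exact h1

private theorem zeroL {V ψ : ℤ → ℝ} {s p t : ℤ} {e B : ℝ} (hB : 10 ≤ B) (hψ : EigF V s t e ψ)
    (hp : p ≤ t) (h : ∀ n, s ≤ n → n < p → B ≤ |e - V n|) (h0 : ψ p = 0) :
    ∀ k : ℕ, ψ (p - k) = 0 := by
  intro k
  induction k with
  | zero => simpa using h0
  | succ k ih =>
    by_cases hs : p - (k + 1 : ℕ) < s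
    · exact hψ.1 _ (Or.inl hs)
    · push_cast at hs
      obtain ⟨m, hm⟩ : ∃ m : ℕ, (m : ℤ) = p - k - s := ⟨(p - k - s).toNat, by
        rw [Int.toNat_of_nonneg (by omega)]⟩
      have h1 := psiL hB hψ m (by omega) (fun j hj => h _ (by omega) (by omega))
      have e1 : s + (m : ℤ) = p - k := by omega
      rw [e1, ih, mul_zero] at h1
      have e2 : p - ((k + 1 : ℕ) : ℤ) = p - k - 1 := by push_cast; ring
      rw [e2]
      exact h1

private theorem zeroR {V ψ : ℤ → ℝ} {s q t : ℤ} {e B : ℝ} (hB : 10 ≤ B) (hψ : EigF V s t e ψ)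
    (hq : s ≤ q) (h : ∀ n, n ≤ t → q < n → B ≤ |e - V n|) (h0 : ψ q = 0) :
    ∀ k : ℕ, ψ (q + k) = 0 := by
  intro k
  have h1 := zeroL (p := -q) hB (EigF_neg hψ) (by omega) (fun n hn1 hn2 => h (-n) (by omega)
    (by omega)) (by simpa using h0) k
  have e1 : -(-q - (k : ℤ)) = q + k := by ring
  simp only [e1] at h1
  exact h1

theorem appr_of_eig {V ψ : ℤ → ℝ} {s p q t : ℤ} {e e' B β : ℝ} (hB : 10 ≤ B) (hsp : s ≤ p)
    (hpq : p ≤ q) (hqt : q ≤ t)
    (hpad : ∀ n, s ≤ n → n ≤ t → n < p ∨ q < n → B ≤ |e - V n| ∧ B ≤ |e' - V n|)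
    (hβ : |e - e'| ≤ β) (hψ : EigF V s t e ψ) (h0 : ∃ n, ψ n ≠ 0) :
    Appr (veff V e' s p q t) p q e' (2 * β) := by
  have hβ0 : 0 ≤ β := le_trans (abs_nonneg _) hβ
  obtain ⟨kL, hkL⟩ : ∃ m : ℕ, (m : ℤ) = p - s := ⟨(p - s).toNat, by
    rw [Int.toNat_of_nonneg (by omega)]⟩
  obtain ⟨kR, hkR⟩ : ∃ m : ℕ, (m : ℤ) = t - q := ⟨(t - q).toNat, by
    rw [Int.toNat_of_nonneg (by omega)]⟩
  have tL : (p - s).toNat = kL := by omega
  have tR : (t - q).toNat = kR := by omega
  have hL := psiL hB hψ kL (by omega) (fun j hj => (hpad _ (by omega) (by omega)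
    (Or.inl (by omega))).1)
  have hR := psiR hB hψ kR (by omega) (fun j hj => (hpad _ (by omega) (by omega)
    (Or.inr (by omega))).1)
  have eL : s + (kL : ℤ) = p := by omega
  have eR : t - (kR : ℤ) = q := by omega
  rw [eL] at hL
  rw [eR] at hR
  have lL := rL_lip (V := V) hB s hβ kL (fun j hj => (hpad _ (by omega) (by omega)
    (Or.inl (by omega))))
  have lR := rR_lip (V := V) hB t hβ kR (fun j hj => (hpad _ (by omega) (by omega)
    (Or.inr (by omega))))
  set f : ℤ → ℝ := fun n => if p ≤ n ∧ n ≤ q then ψ n else 0 with hf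
  have fin : ∀ n, p ≤ n → n ≤ q → f n = ψ n := fun n h1 h2 => by simp [hf, h1, h2]
  have fout : ∀ n, n < p ∨ q < n → f n = 0 := fun n h => by
    simp only [hf]
    rw [if_neg (by omega)]
  refine ⟨f, fout, ?_, ?_⟩
  · by_contra hcon
    push Not at hcon
    have hp0 : ψ p = 0 := by rw [← fin p le_rfl hpq]; exact hcon p
    have hq0 : ψ q = 0 := by rw [← fin q hpq le_rfl]; exact hcon q
    obtain ⟨n, hn⟩ := h0
    apply hn
    by_cases h1 : n < p
    · have := zeroL hB hψ (by omega) (fun n h1 h2 => (hpad n h1 (by omega) (Or.inl h2)).1) hp0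
        (p - n).toNat
      have e1 : p - ((p - n).toNat : ℤ) = n := by omega
      rwa [e1] at this
    · by_cases h2 : q < n
      · have := zeroR hB hψ (by omega) (fun n h1 h2 => (hpad n (by omega) h1 (Or.inr h2)).1) hq0
          (n - q).toNat
        have e1 : q + ((n - q).toNat : ℤ) = n := by omega
        rwa [e1] at this
      · rw [← fin n (by omega) (by omega)]
        exact hcon n
  · rw [Finset.mul_sum]
    apply Finset.sum_le_sum
    intro n hn
    rw [Finset.mem_Icc] at hn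
    obtain ⟨n1, n2⟩ := hn
    have hEq := hψ.2 n (by omega) (by omega)
    have key : res (veff V e' s p q t) e' f n = (e - e') * ψ n +
        (if n = p then (rL V e' s kL - rL V e s kL) * ψ n else 0) +
        (if n = q then (rR V e' t kR - rR V e t kR) * ψ n else 0) := by
      unfold res veff
      rw [tL, tR, fin n n1 n2]
      have hup : f (n + 1) = ψ (n + 1) - (if n = q then rR V e t kR * ψ n else 0) := by
        split_ifs with h
        · subst h
          rw [fout _ (Or.inr (by omega)), hR]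
          ring
        · rw [fin _ (by omega) (by omega)]
          ring
      have hdn : f (n - 1) = ψ (n - 1) - (if n = p then rL V e s kL * ψ n else 0) := by
        split_ifs with h
        · subst h
          rw [fout _ (Or.inl (by omega)), hL]
          ring
        · rw [fin _ (by omega) (by omega)]
          ring
      rw [hup, hdn]
      split_ifs <;> linarith
    have hb : |res (veff V e' s p q t) e' f n| ≤ 2 * β * |ψ n| := by
      rw [key]
      have b1 : |(e - e') * ψ n| ≤ β * |ψ n| := by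
        rw [abs_mul]; exact mul_le_mul_of_nonneg_right hβ (abs_nonneg _)
      have b2 : |(if n = p then (rL V e' s kL - rL V e s kL) * ψ n else 0)| ≤
          β / 40 * |ψ n| := by
        split_ifs
        · rw [abs_mul, abs_sub_comm]; exact mul_le_mul_of_nonneg_right lL (abs_nonneg _)
        · rw [abs_zero]; positivity
      have b3 : |(if n = q then (rR V e' t kR - rR V e t kR) * ψ n else 0)| ≤
          β / 40 * |ψ n| := by
        split_ifs
        · rw [abs_mul, abs_sub_comm]; exact mul_le_mul_of_nonneg_right lR (abs_nonneg _)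
        · rw [abs_zero]; positivity
      have b4 := abs_add_three ((e - e') * ψ n)
        (if n = p then (rL V e' s kL - rL V e s kL) * ψ n else 0)
        (if n = q then (rR V e' t kR - rR V e t kR) * ψ n else 0)
      have b5 : 0 ≤ β * |ψ n| := by positivity
      nlinarith
    rw [fin n n1 n2]
    have h1 : res (veff V e' s p q t) e' f n ^ 2 ≤ (2 * β * |ψ n|) ^ 2 := by
      rw [← sq_abs]
      exact pow_le_pow_left₀ (abs_nonneg _) hb 2
    calc res (veff V e' s p q t) e' f n ^ 2 ≤ (2 * β * |ψ n|) ^ 2 := h1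
      _ = (2 * β) ^ 2 * ψ n ^ 2 := by rw [mul_pow, sq_abs]

private theorem rL_mono {V V' : ℤ → ℝ} {e B : ℝ} (hB : 10 ≤ B) (s : ℤ) :
    ∀ k : ℕ, (∀ j : ℕ, j < k → B ≤ |e - V (s + j)| ∧ B ≤ |e - V' (s + j)| ∧
      0 < (e - V (s + j)) * (e - V' (s + j)) ∧ V' (s + j) ≤ V (s + j)) →
      rL V' e s k ≤ rL V e s k := by
  intro k
  induction k with
  | zero => intro _; simp [rL]
  | succ k ih =>
    intro h
    have h1 := ih (fun j hj => h j (by omega))
    obtain ⟨h2, h3, h4, h5⟩ := h k (by omega)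
    have a1 := rL_abs (V := V) hB s k (fun j hj => (h j (by omega)).1)
    have a2 := rL_abs (V := V') hB s k (fun j hj => (h j (by omega)).2.1)
    rw [rL, rL]
    exact inv_mono (by linarith) (sign_lem hB h2 h3 h4 a1 a2)

private theorem rR_mono {V V' : ℤ → ℝ} {e B : ℝ} {n0 : ℤ} (hB : 10 ≤ B) (t : ℤ) :
    ∀ k : ℕ, (∀ j : ℕ, j < k → B ≤ |e - V (t - j)| ∧ B ≤ |e - V' (t - j)| ∧
      0 < (e - V (t - j)) * (e - V' (t - j)) ∧ (t - j < n0 → V' (t - j) ≤ V (t - j)) ∧
      (t - j = n0 → V' (t - j) + 1 ≤ V (t - j))) → t - k < n0 →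
      rR V' e t k ≤ rR V e t k := by
  intro k
  induction k with
  | zero => intro _ _; simp [rR]
  | succ k ih =>
    intro h hk
    push_cast at hk
    obtain ⟨h2, h3, h4, h5, h6⟩ := h k (by omega)
    have a1 := rR_abs (V := V) hB t k (fun j hj => (h j (by omega)).1)
    have a2 := rR_abs (V := V') hB t k (fun j hj => (h j (by omega)).2.1)
    rw [rR, rR]
    refine inv_mono ?_ (sign_lem hB h2 h3 h4 a1 a2)
    by_cases hlt : t - k < n0
    · have h1 := ih (fun j hj => h j (by omega)) hlt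
      have := h5 hlt
      linarith
    · have := h6 (by omega)
      have b1 := abs_le.1 a1
      have b2 := abs_le.1 a2
      linarith

theorem veff_mono {V V' : ℤ → ℝ} {s p q t : ℤ} {e B ε : ℝ} (hB : 10 ≤ B) (hsp : s ≤ p)
    (hpq : p ≤ q) (hqt : q ≤ t)
    (hpad : ∀ n, s ≤ n → n ≤ t → n < p ∨ q < n →
      B ≤ |e - V n| ∧ B ≤ |e - V' n| ∧ 0 < (e - V n) * (e - V' n))
    (hcore : ∀ n, p ≤ n → n ≤ q → V' n + ε ≤ V n) (hleft : ∀ n, s ≤ n → n < p → V' n ≤ V n)
    (hright : ∃ n0, q < n0 ∧ (∀ n, q < n → n < n0 → n ≤ t → V' n ≤ V n) ∧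
      (n0 ≤ t → V' n0 + 1 ≤ V n0)) :
    ∀ n, p ≤ n → n ≤ q → veff V' e s p q t n + ε ≤ veff V e s p q t n := by
  intro n n1 n2
  obtain ⟨kL, hkL⟩ : ∃ m : ℕ, (m : ℤ) = p - s := ⟨(p - s).toNat, by
    rw [Int.toNat_of_nonneg (by omega)]⟩
  obtain ⟨kR, hkR⟩ : ∃ m : ℕ, (m : ℤ) = t - q := ⟨(t - q).toNat, by
    rw [Int.toNat_of_nonneg (by omega)]⟩
  have tL : (p - s).toNat = kL := by omega
  have tR : (t - q).toNat = kR := by omega
  obtain ⟨n0, hn0, hn1, hn2⟩ := hright
  have mL := rL_mono (V := V) (V' := V') hB s kL (fun j hj => by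
    obtain ⟨c1, c2, c3⟩ := hpad (s + j) (by omega) (by omega) (Or.inl (by omega))
    exact ⟨c1, c2, c3, hleft _ (by omega) (by omega)⟩)
  have mR := rR_mono (V := V) (V' := V') (n0 := n0) hB t kR (fun j hj => by
    obtain ⟨c1, c2, c3⟩ := hpad (t - j) (by omega) (by omega) (Or.inr (by omega))
    refine ⟨c1, c2, c3, fun hlt => hn1 _ (by omega) hlt (by omega), fun heq => ?_⟩
    rw [heq]
    exact hn2 (by omega)) (by omega)
  have hc := hcore n n1 n2
  unfold veff
  rw [tL, tR]
  split_ifs <;> linarith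

end Pool.Agent.MP31f1e8.AL
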