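import Pool.Agent.Lib.MP_31f1e8_mp.AL.Orbit

/-!
# AL: orbits with different codes are separated

JOB AL-Sep. Two orbits (same central branches) with codes that agree for `1 ≤ n < n0` and differ at
`n0 ≥ 1`: `d n = x' n - x n`, `D = max |d 0| |d (-1)|`, `A` from `orb_diff`. For `0 ≤ n < n0` the
forcing `mm c' n - mm c n` vanishes, so `|d (n + 1)| ≤ |A n| |d n| + |d (n - 1)|`, and
`|d n| ≤ D (lam + 3) ^ n` for `0 ≤ n ≤ n0` (`|A n| ≤ lam + 2`). At `n0` (`|mm c' n0 - mm c n0| ≥ 1`,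
`|d (n0 + 1)| ≤ 1 / 2` by `diff_bdd`):
`2π ≤ |A n0 d n0 - d (n0 + 1) - d (n0 - 1)| ≤ (lam + 3) ^ (n0 + 1) D + 1 / 2`.
-/

namespace Pool.Agent.MP31f1e8.AL

theorem sep {lam : ℝ} (hlam : 10 ^ 60 ≤ lam) {z : Cen} (hz : z.Good lam) {c c' : ℤ → ℕ}
    {x x' : ℤ → ℝ} (hx : Orb lam z c x) (hx' : Orb lam z c' x') {n0 : ℤ} (h0 : 1 ≤ n0)
    (hc : ∀ n, 1 ≤ n → n < n0 → c n = c' n) (hne : c n0 ≠ c' n0) :
    5 ≤ max |x' 0 - x 0| |x' (-1) - x (-1)| * (lam + 3) ^ (n0 + 1).toNat := by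
  obtain ⟨A, hA, -, hd⟩ := orb_diff hlam hz hx hx'
  have hl0 : (0 : ℝ) < lam := lt_of_lt_of_le (by norm_num) hlam
  obtain ⟨D, hD⟩ : ∃ D : ℝ, D = max |x' 0 - x 0| |x' (-1) - x (-1)| := ⟨_, rfl⟩
  rw [← hD]
  have hD0 : 0 ≤ D := by
    rw [hD]
    exact le_max_of_le_left (abs_nonneg _)
  have hL1 : 1 ≤ lam + 3 := by linarith
  -- the forcing vanishes before `n0`
  have hmm : ∀ k : ℕ, (k : ℤ) < n0 → mm lam z c' k = mm lam z c k := by
    intro k hk
    unfold mm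
    by_cases h1 : (k : ℤ) = 0
    · rw [if_pos h1, if_pos h1]
    · rw [if_neg h1, if_neg h1, if_neg (by omega), if_neg (by omega), hc k (by omega) hk]
  have key : ∀ k : ℕ, (k : ℤ) ≤ n0 → |x' k - x k| ≤ D * (lam + 3) ^ k ∧
      |x' ((k : ℤ) - 1) - x ((k : ℤ) - 1)| ≤ D * (lam + 3) ^ k := by
    intro k
    induction k with
    | zero =>
      intro _
      rw [pow_zero, mul_one, hD]
      exact ⟨le_max_left _ _, le_max_right _ _⟩
    | succ k ih =>
      intro hk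
      push_cast at hk ⊢
      obtain ⟨h1, h2⟩ := ih (by omega)
      have h3 := hd k
      rw [hmm k (by omega), sub_self, mul_zero, add_zero] at h3
      have h4 : x' ((k : ℤ) + 1) - x ((k : ℤ) + 1)
          = A k * (x' k - x k) - (x' ((k : ℤ) - 1) - x ((k : ℤ) - 1)) := by linarith
      have hp : 0 ≤ D * (lam + 3) ^ k := mul_nonneg hD0 (pow_nonneg (by linarith) _)
      constructor
      · rw [h4]
        refine (abs_sub _ _).trans ?_
        rw [abs_mul]
        have h5 : |A k| * |x' k - x k| ≤ (lam + 2) * (D * (lam + 3) ^ k) :=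
          mul_le_mul (hA k).2 h1 (abs_nonneg _) (by linarith)
        have h6 : D * (lam + 3) ^ (k + 1)
            = (lam + 2) * (D * (lam + 3) ^ k) + D * (lam + 3) ^ k := by ring
        rw [h6]
        exact add_le_add h5 h2
      · have h7 : ((k : ℤ) + 1 - 1) = k := by ring
        rw [h7]
        refine h1.trans ?_
        have h6 : D * (lam + 3) ^ (k + 1) = (lam + 3) * (D * (lam + 3) ^ k) := by ring
        rw [h6]
        nlinarith
  obtain ⟨N, hN⟩ : ∃ N : ℕ, (N : ℤ) = n0 := ⟨n0.toNat, by omega⟩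
  have hN1 : (n0 + 1).toNat = N + 1 := by omega
  rw [hN1]
  obtain ⟨k1, k2⟩ := key N (by omega)
  rw [hN] at k1 k2
  have hbd := (diff_bdd hlam hz hx hx' (n0 + 1)).2 (by omega) (by omega)
  have hn := hd n0
  -- the forcing at `n0`
  have hne' : (1 : ℝ) ≤ |(mm lam z c' n0 : ℝ) - mm lam z c n0| := by
    have h1 : mm lam z c' n0 - mm lam z c n0 ≠ 0 := by
      unfold mm
      rw [if_neg (by omega), if_neg (by omega), if_neg (by omega), if_neg (by omega)]
      intro h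
      apply hne
      push_cast at h
      have h2 : (c' n0 : ℤ) = c n0 := by linarith
      exact_mod_cast h2.symm
    have h2 : (1 : ℤ) ≤ |mm lam z c' n0 - mm lam z c n0| := Int.one_le_abs h1
    have h3 : ((1 : ℤ) : ℝ) ≤ ((|mm lam z c' n0 - mm lam z c n0| : ℤ) : ℝ) := by exact_mod_cast h2
    rw [Int.cast_abs, Int.cast_sub, Int.cast_one] at h3
    exact h3
  have h8 : 2 * Real.pi * |(mm lam z c' n0 : ℝ) - mm lam z c n0|
      = |A n0 * (x' n0 - x n0) - (x' (n0 + 1) - x (n0 + 1)) - (x' (n0 - 1) - x (n0 - 1))| := by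
    have h9 : A n0 * (x' n0 - x n0) - (x' (n0 + 1) - x (n0 + 1)) - (x' (n0 - 1) - x (n0 - 1))
        = 2 * Real.pi * ((mm lam z c' n0 : ℝ) - mm lam z c n0) := by linarith
    rw [h9, abs_mul, abs_of_pos (by positivity : 0 < 2 * Real.pi)]
  have h10 : |A n0 * (x' n0 - x n0) - (x' (n0 + 1) - x (n0 + 1)) - (x' (n0 - 1) - x (n0 - 1))|
      ≤ (lam + 2) * (D * (lam + 3) ^ N) + 1 / 2 + D * (lam + 3) ^ N := by
    refine (abs_sub _ _).trans (add_le_add ((abs_sub _ _).trans (add_le_add ?_ hbd)) k2)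
    rw [abs_mul]
    exact mul_le_mul (hA n0).2 k1 (abs_nonneg _) (by linarith)
  have hpi := Real.pi_gt_three
  have h11 : 2 * Real.pi * 1 ≤ 2 * Real.pi * |(mm lam z c' n0 : ℝ) - mm lam z c n0| :=
    mul_le_mul_of_nonneg_left hne' (by positivity)
  have h12 : D * (lam + 3) ^ (N + 1) = (lam + 2) * (D * (lam + 3) ^ N) + D * (lam + 3) ^ N := by
    ring
  rw [h12]
  linarith

end Pool.Agent.MP31f1e8.AL
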