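import Pool.Agent.Lib.MP_31f1e8_mp.AL.Words
import Pool.Agent.Lib.MP_31f1e8_mp.AL.Dig

/-!
# AL: the measure of the resonant codes

JOB AL-Vol. `X = 2 ^ (j + 6)`, `t = outer j i s`.

`reso_volume`: let `y` be in the set, `x`, `eY`, `eb` the data. Let `u k = dg y.1 k`,
`v k = dg y.2 k` (`k < X`), `c' = cw u v`; `c'` and `c = cod y.1 y.2` agree for `1 ≤ hat n ≤ X`. Let
`x'` be an orbit with the code `c'` (`orb_exists`). `agree_both` with `t` (as a natural number) and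
`pot_diff` give `|V n - V' n| ≤ lam (4 / lam) ^ (X + 1 - t) ≤ dlt / 2` for `hat n ≤ t` (`num_cut`,
`block_facts`: `t + 29 * 2 ^ j ≤ X`), that is for `-1 - t ≤ n ≤ t`. Both intervals are inside.
`spec_perturb` (file `Fw`) gives `eY'`, `eb'` within `dlt / 2` of `eY`, `eb`, so
`|eY' - eb'| < 3 dlt`, and `bar_mono`. So `(u, v) ∈ badWords`, and `vol_words`, `badWords_card` give
the bound.
-/

namespace Pool.Agent.MP31f1e8.AL

open Finset MeasureTheory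

/-- the code of the first digits agrees with the code near the centre -/
private theorem cw_agree {N X : ℕ} (hN : 0 < N) (y1 y2 : ℝ) {n : ℤ} (h1 : 1 ≤ hat n)
    (h2 : hat n ≤ X) :
    cod N y1 y2 n = cw (fun k : Fin X => (⟨dg N y1 k, dg_lt hN y1 k⟩ : Fin N))
      (fun k : Fin X => (⟨dg N y2 k, dg_lt hN y2 k⟩ : Fin N)) n := by
  by_cases hn : 0 ≤ n
  · have h3 : (hat n : ℤ) = n := hat_of_nonneg hn
    have h4 : 1 ≤ n ∧ n ≤ X := by omega
    unfold cod cw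
    rw [if_pos h4.1, dif_pos h4]
  · have h3 : (hat n : ℤ) = -1 - n := hat_of_neg (by omega)
    have h4 : -1 - (X : ℤ) ≤ n ∧ n ≤ -2 := by omega
    have h5 : ¬ (1 ≤ n) := by omega
    have h6 : ¬ (1 ≤ n ∧ n ≤ X) := by omega
    unfold cod cw
    rw [if_neg h5, if_pos h4.2, dif_neg h6, dif_pos h4]

theorem reso_volume {lam : ℝ} (hlam : 10 ^ 60 ≤ lam) {z : Cen} (hz : z.Good lam) {j i : ℕ}
    (hj : 1 ≤ j) (hi : i < 16) (s : Bool) :
    volume {y : ℝ × ℝ | y ∈ Set.Ico (0 : ℝ) 1 ×ˢ Set.Ico (0 : ℝ) 1 ∧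
      ∃ x, Orb lam z (cod (NN lam) y.1 y.2) x ∧
        Reso lam (pot lam x) j i s (lam / 400 - 1) (2 * dlt lam j)} ≤
      ENNReal.ofReal (64 * 2 ^ j * (2 ^ j + 1) / (NN lam : ℝ) ^ (2 ^ j)) := by
  classical
  have hlam0 : (0 : ℝ) < lam := lt_of_lt_of_le (by positivity) hlam
  have hN1 : 1000 ≤ NN lam := (NN_le hlam).2.2.2
  have hN : 0 < NN lam := by omega
  obtain ⟨hdp, hds⟩ := dlt_pos hlam j
  obtain ⟨b1, b2, b3, b4, b5, b6, b7, b8, b9, b10, b11, b12, b13, b14⟩ := block_facts hj hi s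
  have hpw : (0 : ℤ) < 2 ^ j := by positivity
  have hpad : pad j = 3 * 2 ^ j := rfl
  obtain ⟨t, ht⟩ : ∃ t : ℕ, (t : ℤ) = outer j i s :=
    ⟨(outer j i s).toNat, Int.toNat_of_nonneg (by linarith)⟩
  have hX : (2 : ℤ) ^ (j + 6) = ((2 ^ (j + 6) : ℕ) : ℤ) := by push_cast; ring
  have ht1 : 1 ≤ t := by
    have : (1 : ℤ) ≤ t := by rw [ht]; linarith
    exact_mod_cast this
  have htX : t + 29 * 2 ^ j ≤ 2 ^ (j + 6) := by
    have : (t : ℤ) + 29 * 2 ^ j ≤ 2 ^ (j + 6) := by rw [ht]; exact b11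
    exact_mod_cast this
  have key : {y : ℝ × ℝ | y ∈ Set.Ico (0 : ℝ) 1 ×ˢ Set.Ico (0 : ℝ) 1 ∧
      ∃ x, Orb lam z (cod (NN lam) y.1 y.2) x ∧
        Reso lam (pot lam x) j i s (lam / 400 - 1) (2 * dlt lam j)} ⊆
      {y : ℝ × ℝ | y ∈ Set.Ico (0 : ℝ) 1 ×ˢ Set.Ico (0 : ℝ) 1 ∧
      ∃ p ∈ badWords lam z j i s, ∀ k : Fin (2 ^ (j + 6)),
        (p.1 k : ℕ) = dg (NN lam) y.1 k ∧ (p.2 k : ℕ) = dg (NN lam) y.2 k} := by
    rintro y ⟨hy, x, hx, eY, eb, hY, hb, hbar, hlt⟩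
    refine ⟨hy, (fun k => ⟨dg (NN lam) y.1 k, dg_lt hN y.1 k⟩,
      fun k => ⟨dg (NN lam) y.2 k, dg_lt hN y.2 k⟩), ?_, fun k => ⟨rfl, rfl⟩⟩
    have hcwlt : ∀ n, cw (fun k : Fin (2 ^ (j + 6)) => (⟨dg (NN lam) y.1 k, dg_lt hN y.1 k⟩ :
        Fin (NN lam))) (fun k : Fin (2 ^ (j + 6)) => (⟨dg (NN lam) y.2 k, dg_lt hN y.2 k⟩ :
        Fin (NN lam))) n < NN lam := by
      intro n
      unfold cw
      split_ifs
      · exact dg_lt hN _ _
      · exact dg_lt hN _ _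
      · exact hN
    obtain ⟨x', hx'⟩ := orb_exists hlam hz hcwlt
    have hV : ∀ n, hat n ≤ t → |pot lam x' n - pot lam x n| ≤ dlt lam j / 2 := by
      intro n hn
      have h1 := agree_both hlam hz hx hx' (X := 2 ^ (j + 6))
        (fun n h1 h2 => cw_agree hN y.1 y.2 h1 h2) t ht1 (by omega) n hn
      have h2 := (pot_diff hlam hz hx hx' n).1
      have h3 : lam * |x' n - x n| ≤ lam * (4 / lam) ^ (2 ^ (j + 6) + 1 - t) :=
        mul_le_mul_of_nonneg_left h1 hlam0.le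
      have h4 := num_cut hlam (j := j) (k := 2 ^ (j + 6) + 1 - t) (by omega)
      rw [abs_sub_comm]
      linarith
    have hle : ∀ n : ℤ, -1 - outer j i s ≤ n → n ≤ outer j i s → hat n ≤ t := by
      intro n h1 h2
      have : (hat n : ℤ) ≤ t := by
        rw [ht]
        exact hat_le_iff.2 ⟨h1, h2⟩
      exact_mod_cast this
    obtain ⟨eY', hY', hYd⟩ := spec_perturb (V := pot lam x') (by linarith)
      (fun n h1 h2 => hV n (hle n h1 (by linarith))) hY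
    obtain ⟨eb', hb', hbd⟩ := spec_perturb (V := pot lam x') (by linarith)
      (fun n h1 h2 => hV n (hle n (by linarith) h2)) hb
    unfold badWords
    refine Finset.mem_filter.2 ⟨mem_univ _, x', hx', eY', eb', hY', hb', bar_mono hbar ?_, ?_⟩
    · linarith
    · rw [abs_lt] at hlt ⊢
      rw [abs_le] at hYd hbd
      constructor <;> linarith
  refine (measure_mono key).trans ((vol_words hN (badWords lam z j i s)).trans ?_)
  apply ENNReal.ofReal_le_ofReal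
  have hc := badWords_card hlam hz hj hi s
  have hNr : (0 : ℝ) < (NN lam : ℝ) := by exact_mod_cast hN
  have hc' : ((badWords lam z j i s).card : ℝ) ≤
      (NN lam : ℝ) ^ (2 * 2 ^ (j + 6) - 2 ^ j) * (64 * 2 ^ j * (2 ^ j + 1)) := by
    exact_mod_cast hc
  have hle : 2 ^ j ≤ 2 * 2 ^ (j + 6) := by
    rw [pow_add]
    have : 0 < 2 ^ j := by positivity
    omega
  have hsplit : (NN lam : ℝ) ^ (2 * 2 ^ (j + 6)) =
      (NN lam : ℝ) ^ (2 * 2 ^ (j + 6) - 2 ^ j) * (NN lam : ℝ) ^ (2 ^ j) := by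
    rw [← pow_add, Nat.sub_add_cancel hle]
  rw [hsplit, div_le_div_iff₀ (by positivity) (by positivity)]
  calc ((badWords lam z j i s).card : ℝ) * (NN lam : ℝ) ^ (2 ^ j) ≤
      ((NN lam : ℝ) ^ (2 * 2 ^ (j + 6) - 2 ^ j) * (64 * 2 ^ j * (2 ^ j + 1))) *
        (NN lam : ℝ) ^ (2 ^ j) := mul_le_mul_of_nonneg_right hc' (by positivity)
    _ = 64 * 2 ^ j * (2 ^ j + 1) *
      ((NN lam : ℝ) ^ (2 * 2 ^ (j + 6) - 2 ^ j) * (NN lam : ℝ) ^ (2 ^ j)) := by ring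

end Pool.Agent.MP31f1e8.AL
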