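import Pool.Agent.Lib.MP_31f1e8_mp.AL.Win
import Pool.Agent.Lib.MP_31f1e8_mp.AL.Fw
import Pool.Agent.Lib.MP_31f1e8_mp.AL.Sc
import Pool.Agent.Lib.MP_31f1e8_mp.AL.Num

/-!
# AL: a resonance gives an approximate eigenfunction of the effective operator

JOB AL-WegA. `p = bp j i`, `q = bq j i`, `t = outer j i s`, `y = bi j i + pad j`,
`δ = dlt lam j`. Take `eY`, `eb` from `Reso`. `spec_perturb` (for `V0`, `V` on `[-1 - t, y]`) gives
`E` with `Spec V0 (-1 - t) y E`, `|eY - E| ≤ δ`, so `|eb - E| ≤ 4 δ` and `Bar lam (lam / 400 - 3) i E`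
(`bar_mono`, `dlt_pos`). The sites `n` of `[p - pad j, p)` and `(q, t]` are `≥ 1` and have type
`≠ i` (`typ_inner` since `bi j i < p - pad j`, `typ_outer` since `t < 2 p`; `block_facts`,
`hat_of_nonneg`), so `V n` is in the window of `typ n ≤ 16` and `10 ≤ lam / 450 ≤ |eb - V n|`,
`|E - V n|`. `appr_of_eig` with `e = eb`, `e' = E`, `β = 4 δ`.
-/

namespace Pool.Agent.MP31f1e8.AL

theorem weg_appr {lam : ℝ} (hlam : 10 ^ 60 ≤ lam) {j i : ℕ} (hj : 1 ≤ j) (hi : i < 16) (s : Bool)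
    {V V0 : ℤ → ℝ} (hV : ∀ n, n ≠ 0 → n ≠ -1 → V n ∈ Set.Icc (wlo lam (typ n)) (whi lam (typ n)))
    (hV0 : ∀ n ≤ bi j i + pad j, |V0 n - V n| ≤ dlt lam j)
    (h : Reso lam V j i s (lam / 400 - 2) (3 * dlt lam j)) :
    ∃ E, Spec V0 (-1 - outer j i s) (bi j i + pad j) E ∧ Bar lam (lam / 400 - 3) i E ∧
      Appr (veff V E (bp j i - pad j) (bp j i) (bq j i) (outer j i s)) (bp j i) (bq j i) E
        (8 * dlt lam j) := by
  obtain ⟨eY, eb, hY, hb, hbar, hlt⟩ := h
  obtain ⟨b1, b2, b3, b4, b5, b6, b7, b8, b9, b10, b11, b12, b13, b14⟩ := block_facts hj hi s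
  obtain ⟨d1, d2⟩ := dlt_pos hlam j
  have h2j : (1 : ℤ) ≤ 2 ^ j := one_le_pow₀ (by norm_num)
  have hpad : (0 : ℤ) ≤ pad j := by
    unfold pad
    positivity
  have hlam' : (10 : ℝ) ^ 6 ≤ lam := le_trans (by norm_num) hlam
  obtain ⟨E, hE, hEd⟩ := spec_perturb (V := V0) (V' := V) (a := -1 - outer j i s)
    (b := bi j i + pad j) (by linarith) (fun n _ hn => hV0 n hn) hY
  have hbE : |eb - E| ≤ 4 * dlt lam j := by
    calc |eb - E| = |-(eY - eb) + (eY - E)| := by ring_nf
      _ ≤ |-(eY - eb)| + |eY - E| := abs_add_le _ _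
      _ ≤ 4 * dlt lam j := by
        rw [abs_neg]
        linarith
  have hbarE : Bar lam (lam / 400 - 3) i E := by
    refine bar_mono hbar ?_
    linarith
  refine ⟨E, hE, hbarE, ?_⟩
  obtain ⟨ψ, hψ, h0⟩ := hb
  have key := appr_of_eig (V := V) (ψ := ψ) (s := bp j i - pad j) (p := bp j i) (q := bq j i)
    (t := outer j i s) (e := eb) (e' := E) (B := lam / 450) (β := 4 * dlt lam j) (by linarith)
    (by linarith) (by linarith) b7 ?_ hbE hψ h0
  · have e8 : 2 * (4 * dlt lam j) = 8 * dlt lam j := by ring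
    rwa [e8] at key
  · intro n hn1 hn2 hn3
    have hn0 : 0 < n := by linarith
    have hhat : (hat n : ℤ) = n := hat_of_nonneg hn0.le
    have hw := hV n (by omega) (by omega)
    have hne : typ n ≠ i := by
      rcases hn3 with h | h
      · refine typ_inner hj hi ?_ ?_
        · rw [hhat]
          linarith
        · rw [hhat]
          exact h
      · refine typ_outer hj hi ?_ ?_
        · rw [hhat]
          exact h
        · rw [hhat]
          linarith
    have hle : typ n ≤ 16 := by exact_mod_cast typ_le n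
    have g1 := hbar (typ n) hle hne (V n) hw
    have g2 := hbarE (typ n) hle hne (V n) hw
    constructor <;> linarith

end Pool.Agent.MP31f1e8.AL
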