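import Pool.Agent.Lib.MP_31f1e8_mp.AL.Mono
import Pool.Agent.Lib.MP_31f1e8_mp.AL.Sc
import Pool.Agent.Lib.MP_31f1e8_mp.AL.Num

/-!
# AL: the effective potential decreases with the word

`p = bp j i`, `q = bq j i`, `t = outer j i s`. `V = pot lam x`, `V' = pot lam x'`.
`mono_left` gives `V' n0 + 1 ≤ V n0` and, for `1 ≤ n ≤ n0`,
`2.4 lam / (lam + 3) ^ (n0 - n + 1) ≤ V n - V' n`, in particular `V' n ≤ V n`, and for
`n ∈ [p, q]` (where `n0 - n + 1 ≤ q + 2 ^ j - p + 1 = 2 * 2 ^ j`) `V' n + 20 δ ≤ V n` (`num_gap`).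
The pad sites have type `≠ i` (`typ_inner`, `typ_outer`, `block_facts`), and `V n`, `V' n` are both
in the window of `typ n` (`orb_window`), so `lam / 450 ≤ |E - V n|`, `|E - V' n|` and the signs agree
(`bar_sign`). `veff_mono` with this `n0`.
-/

namespace Pool.Agent.MP31f1e8.AL

theorem weg_mono {lam : ℝ} (hlam : 10 ^ 60 ≤ lam) {z : Cen} (hz : z.Good lam) {j i : ℕ}
    (hj : 1 ≤ j) (hi : i < 16) (s : Bool) {c c' : ℤ → ℕ} (hcN : ∀ n, c n < NN lam)
    (hcN' : ∀ n, c' n < NN lam) {x x' : ℤ → ℝ} (hx : Orb lam z c x) (hx' : Orb lam z c' x')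
    {n0 : ℤ} (h0 : bq j i < n0) (h0' : n0 ≤ bq j i + 2 ^ j) (hc : ∀ n < n0, c n = c' n)
    (hlt : c n0 < c' n0) {E : ℝ} (hE : Bar lam (lam / 400 - 3) i E) :
    ∀ n, bp j i ≤ n → n ≤ bq j i →
      veff (pot lam x') E (bp j i - pad j) (bp j i) (bq j i) (outer j i s) n + 20 * dlt lam j ≤
        veff (pot lam x) E (bp j i - pad j) (bp j i) (bq j i) (outer j i s) n := by
  have hf := block_facts hj hi s
  have hlp : (0 : ℝ) < lam := lt_of_lt_of_le (by norm_num) hlam
  have hl12 : (10 : ℝ) ^ 12 ≤ lam := le_trans (by norm_num) hlam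
  have hB : (10 : ℝ) ≤ lam / 400 - 3 := by
    have h1 : (10 : ℝ) ^ 12 / 400 ≤ lam / 400 := by linarith
    norm_num at h1
    linarith
  obtain ⟨f1, f2, f3, f4, f5, f6, f7, f8, f9, f10, f11, f12, f13, f14⟩ := hf
  have hpad0 : 0 ≤ pad j := by unfold pad; positivity
  have h2j : (0 : ℤ) < 2 ^ j := by positivity
  obtain ⟨m1, m2⟩ := mono_left hlam hz hx hx' (n0 := n0) (by omega) hc hlt
  have hle : ∀ n, 1 ≤ n → n ≤ n0 → pot lam x' n ≤ pot lam x n := by
    intro n h1 h2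
    have h3 := m2 n h1 h2
    have h4 : 0 ≤ 2.4 * lam / (lam + 3) ^ (n0 - n + 1).toNat := by positivity
    linarith
  have hty : ∀ n, bp j i - pad j ≤ n → n ≤ outer j i s → n < bp j i ∨ bq j i < n → typ n ≠ i := by
    intro n h1 h2 h3
    have h4 : (hat n : ℤ) = n := hat_of_nonneg (by omega)
    rcases h3 with h3 | h3
    · exact typ_inner hj hi (by omega) (by omega)
    · exact typ_outer hj hi (by omega) (by omega)
  refine veff_mono hB (by omega) (by omega) f7 ?_ ?_ ?_ ⟨n0, h0, ?_, fun _ => m1⟩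
  · intro n h1 h2 h3
    have ht := hty n h1 h2 h3
    have hw := orb_window hlam hz hcN hx (n := n) (by omega) (by omega)
    have hw' := orb_window hlam hz hcN' hx' (n := n) (by omega) (by omega)
    exact ⟨hE _ (typ_le n) ht _ hw, hE _ (typ_le n) ht _ hw',
      bar_sign (by linarith) hE (typ_le n) ht hw hw'⟩
  · intro n h1 h2
    have h3 := m2 n (by omega) (by omega)
    have h5 : (n0 - n + 1).toNat ≤ 2 * 2 ^ j := by
      have h6 : n0 - n + 1 ≤ ((2 * 2 ^ j : ℕ) : ℤ) := by push_cast; omega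
      omega
    have h4 := num_gap hlam h5
    linarith
  · intro n h1 h2
    exact hle n (by omega) (by omega)
  · intro n h1 h2 h3
    exact hle n (by omega) (by omega)

end Pool.Agent.MP31f1e8.AL
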