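import Pool.Agent.Lib.MP_31f1e8_mp.AL.WegA
import Pool.Agent.Lib.MP_31f1e8_mp.AL.WegB
import Pool.Agent.Lib.MP_31f1e8_mp.AL.Cnt

/-!
# AL: few words make the block resonant

JOB AL-Wegner. Put `p = bp j i`, `q = bq j i`, `t = outer j i s`, `y = bi j i + pad j`,
`L = 2 ^ j`, `δ = dlt lam j`. The words `w : Fin L → Fin N` are inserted at the sites
`q + 1, ..., q + L`.

Let `Bd` be the set of the bad words. For `w ∈ Bd` choose the orbit `x_w`, `V_w = pot lam x_w`. Fix
one `w0 ∈ Bd` (if `Bd` is empty there is nothing to prove), and let `S` be the finite set of the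
eigenvalues of `V_{w0}` on `[-1 - t, y]` (`spec_finite`), `#S ≤ y + t + 2 ≤ 64 L`
(`block_facts`; `bi`, `bq`, `pad` unfolded: `y + t + 2 ≤ 19 L + 35 L`).

(1) The codes of `w`, `w0` agree for `n < q + 1`, so `agree_left` and `pot_diff` give
`|V_{w0} n - V_w n| ≤ lam (4 / lam) ^ (q + 1 - max n 1) ≤ δ` for `n ≤ y` (`q + 1 - y ≥ 5 L`,
`num_far`). `orb_window` and `weg_appr` give `E w ∈ S` with `Bar lam (lam / 400 - 3) i (E w)` and
`Appr (veff V_w (E w) ..) p q (E w) (8 δ)`.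

(2) For each `E ∈ S` take `cnt E` from `exists_cnt` (on `[p, q]`, `η = 8 δ`, `ε = 20 δ`,
`dlt_pos`). The map `w ↦ (E w, cnt (E w) (veff V_w (E w) ..))` from `Bd` to `S × {0, ..., L}` is
injective: let `w ≠ w'` have the same image, `n0 ∈ [q + 1, q + L]` the first site where the codes
differ; by symmetry the digit of `w` at `n0` is smaller. `weg_mono` and `exists_cnt` give
`cnt (..w) < cnt (..w')`, a contradiction.

So `#Bd ≤ 64 L (L + 1)`.
-/

namespace Pool.Agent.MP31f1e8.AL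

open Finset Classical

/-- insert the word `w` at the sites `q + 1, ..., q + R` -/
noncomputable def ins {N R : ℕ} (q : ℤ) (c : ℤ → ℕ) (w : Fin R → Fin N) (n : ℤ) : ℕ :=
  if h : q < n ∧ n ≤ q + R then (w ⟨(n - q - 1).toNat, by omega⟩ : ℕ) else c n

private theorem ins_lt {lam : ℝ} {R : ℕ} {q : ℤ} {c : ℤ → ℕ} (hc : ∀ n, c n < NN lam)
    (w : Fin R → Fin (NN lam)) (n : ℤ) : ins q c w n < NN lam := by
  unfold ins
  split_ifs with h
  · exact (w _).2
  · exact hc n

private theorem ins_le {N R : ℕ} {q : ℤ} {c : ℤ → ℕ} (w w' : Fin R → Fin N) {n : ℤ} (hn : n ≤ q) :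
    ins q c w n = ins q c w' n := by
  have h : ¬ (q < n ∧ n ≤ q + R) := by omega
  unfold ins
  rw [dif_neg h, dif_neg h]

private theorem ins_at {N R : ℕ} {q : ℤ} {c : ℤ → ℕ} (w : Fin R → Fin N) (k : Fin R) :
    ins q c w (q + 1 + (k : ℕ)) = (w k : ℕ) := by
  have hk := k.2
  have h : q < q + 1 + ((k : ℕ) : ℤ) ∧ q + 1 + ((k : ℕ) : ℤ) ≤ q + R := by
    constructor <;> omega
  unfold ins
  rw [dif_pos h]
  have e : (⟨(q + 1 + ((k : ℕ) : ℤ) - q - 1).toNat, by omega⟩ : Fin R) = k := by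
    apply Fin.ext
    show (q + 1 + ((k : ℕ) : ℤ) - q - 1).toNat = (k : ℕ)
    omega
  rw [e]

private theorem ins_agree {N R : ℕ} {q : ℤ} {c : ℤ → ℕ} (w w' : Fin R → Fin N) (k : Fin R)
    (h : ∀ l : Fin R, l < k → w l = w' l) {n : ℤ} (hn : n < q + 1 + (k : ℕ)) :
    ins q c w n = ins q c w' n := by
  by_cases hq : n ≤ q
  · exact ins_le w w' hq
  · have hk := k.2
    obtain ⟨l, hl⟩ : ∃ l : ℕ, n = q + 1 + (l : ℤ) := ⟨(n - q - 1).toNat, by omega⟩
    have hlk : l < (k : ℕ) := by omega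
    have e1 := ins_at (q := q) (c := c) w ⟨l, by omega⟩
    have e2 := ins_at (q := q) (c := c) w' ⟨l, by omega⟩
    simp only at e1 e2
    rw [hl, e1, e2, h ⟨l, by omega⟩ (by rw [Fin.lt_def]; exact hlk)]

private theorem first_diff {R : ℕ} {α : Type*} {w w' : Fin R → α} (h : w ≠ w') :
    ∃ k : Fin R, w k ≠ w' k ∧ ∀ l : Fin R, l < k → w l = w' l := by
  obtain ⟨k0, hk0⟩ := Function.ne_iff.1 h
  have hne : (univ.filter fun k : Fin R => w k ≠ w' k).Nonempty := ⟨k0, by simp [hk0]⟩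
  refine ⟨(univ.filter fun k : Fin R => w k ≠ w' k).min' hne, ?_, ?_⟩
  · exact (mem_filter.1 (min'_mem _ hne)).2
  · intro l hl
    by_contra hc
    exact absurd (min'_le _ l (by simp [hc])) (not_le.2 hl)

theorem wegner {lam : ℝ} (hlam : 10 ^ 60 ≤ lam) {z : Cen} (hz : z.Good lam) {j i : ℕ}
    (hj : 1 ≤ j) (hi : i < 16) (s : Bool) {c : ℤ → ℕ} (hc : ∀ n, c n < NN lam) :
    (univ.filter fun w : Fin (2 ^ j) → Fin (NN lam) =>
      ∃ x, Orb lam z (ins (bq j i) c w) x ∧
        Reso lam (pot lam x) j i s (lam / 400 - 2) (3 * dlt lam j)).card ≤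
      64 * 2 ^ j * (2 ^ j + 1) := by
  have hbf := block_facts hj hi s
  have hδ := dlt_pos hlam j
  have hpad : pad j = 3 * 2 ^ j := rfl
  have hbp : bp j i = (16 + (i : ℤ)) * 2 ^ j := rfl
  have h2j : (2 : ℤ) ≤ 2 ^ j := by
    calc (2 : ℤ) = 2 ^ 1 := by norm_num
      _ ≤ 2 ^ j := pow_le_pow_right₀ (by norm_num) hj
  have hbp' : bp j i ≤ 31 * 2 ^ j := by
    rw [hbp]
    have : (16 + (i : ℤ)) ≤ 31 := by omega
    exact mul_le_mul_of_nonneg_right this (by positivity)
  set Bd := (univ.filter fun w : Fin (2 ^ j) → Fin (NN lam) =>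
      ∃ x, Orb lam z (ins (bq j i) c w) x ∧
        Reso lam (pot lam x) j i s (lam / 400 - 2) (3 * dlt lam j)) with hBd
  rcases Bd.eq_empty_or_nonempty with he | ⟨w0, hw0⟩
  · rw [he]; simp
  have hmem : ∀ w ∈ Bd, ∃ x, Orb lam z (ins (bq j i) c w) x ∧
      Reso lam (pot lam x) j i s (lam / 400 - 2) (3 * dlt lam j) := fun w hw => (mem_filter.1 hw).2
  choose! x hx hr using hmem
  have hdiff : ∀ w ∈ Bd, ∀ n ≤ bi j i + pad j,
      |pot lam (x w0) n - pot lam (x w) n| ≤ dlt lam j := by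
    intro w hw n hn
    refine le_trans (pot_diff hlam hz (hx w0 hw0) (hx w hw) n).1 ?_
    have h1 := agree_left hlam hz (hx w0 hw0) (hx w hw) (n0 := bq j i + 1) (by omega)
      (fun m hm => ins_le w0 w (by omega)) n (by omega)
    refine le_trans (mul_le_mul_of_nonneg_left h1 (by linarith)) ?_
    apply num_far hlam
    have h3 : (5 * 2 ^ j : ℤ) ≤ bq j i + 1 - max n 1 := by
      have : max n 1 ≤ bi j i + pad j := max_le hn (by omega)
      omega
    have h4 : (((5 * 2 ^ j : ℕ) : ℤ)) ≤ ((bq j i + 1 - max n 1).toNat : ℤ) := by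
      rw [Int.toNat_of_nonneg (by omega)]
      push_cast
      exact h3
    exact_mod_cast h4
  have happ : ∀ w ∈ Bd, ∃ E, Spec (pot lam (x w0)) (-1 - outer j i s) (bi j i + pad j) E ∧
      Bar lam (lam / 400 - 3) i E ∧
      Appr (veff (pot lam (x w)) E (bp j i - pad j) (bp j i) (bq j i) (outer j i s)) (bp j i)
        (bq j i) E (8 * dlt lam j) := by
    intro w hw
    exact weg_appr hlam hj hi s (fun n h0 h1 => orb_window hlam hz (ins_lt hc w) (hx w hw) h0 h1)
      (hdiff w hw) (hr w hw)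
  choose! E hE1 hE2 hE3 using happ
  obtain ⟨S, hS, hS'⟩ := spec_finite (pot lam (x w0)) (a := -1 - outer j i s)
    (b := bi j i + pad j) (by omega)
  have hScard : S.card ≤ 64 * 2 ^ j := by
    refine le_trans hS ?_
    have : bi j i + pad j + 1 - (-1 - outer j i s) ≤ 64 * 2 ^ j := by omega
    have h5 : ((bi j i + pad j + 1 - (-1 - outer j i s)).toNat : ℤ) ≤ ((64 * 2 ^ j : ℕ) : ℤ) := by
      rw [Int.toNat_of_nonneg (by omega)]
      push_cast
      exact this
    exact_mod_cast h5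
  have hcnt : ∀ e : ℝ, ∃ cnt : (ℤ → ℝ) → ℕ, (∀ V, cnt V ≤ (bq j i + 1 - bp j i).toNat) ∧
      ∀ V V' : ℤ → ℝ, (∀ n, bp j i ≤ n → n ≤ bq j i → V' n + 20 * dlt lam j ≤ V n) →
        Appr V (bp j i) (bq j i) e (8 * dlt lam j) →
        Appr V' (bp j i) (bq j i) e (8 * dlt lam j) → cnt V < cnt V' := fun e =>
    exists_cnt (by omega) (by linarith [hδ.1]) (by linarith [hδ.1])
  choose cnt hcnt1 hcnt2 using hcnt
  have hinj : Set.InjOn (fun w => ((E w, cnt (E w) (veff (pot lam (x w)) (E w) (bp j i - pad j)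
      (bp j i) (bq j i) (outer j i s))) : ℝ × ℕ)) Bd := by
    intro w hw w' hw' heq
    simp only [Prod.mk.injEq] at heq
    obtain ⟨he1, he2⟩ := heq
    by_contra hne
    obtain ⟨k, hk1, hk2⟩ := first_diff hne
    have hk3 : ((k : ℕ) : ℤ) < 2 ^ j := by exact_mod_cast k.2
    have main : ∀ u u' : Fin (2 ^ j) → Fin (NN lam), u ∈ Bd → u' ∈ Bd → E u = E u' →
        (∀ l : Fin (2 ^ j), l < k → u l = u' l) → u k < u' k →
        cnt (E u) (veff (pot lam (x u)) (E u) (bp j i - pad j)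
          (bp j i) (bq j i) (outer j i s)) <
        cnt (E u') (veff (pot lam (x u')) (E u') (bp j i - pad j)
          (bp j i) (bq j i) (outer j i s)) := by
      intro u u' hu hu' hEE hag hlt
      have hm := weg_mono hlam hz hj hi s (ins_lt hc u) (ins_lt hc u') (hx u hu) (hx u' hu')
        (n0 := bq j i + 1 + ((k : ℕ) : ℤ)) (by omega) (by omega)
        (fun n hn => ins_agree u u' k hag hn)
        (by rw [ins_at, ins_at]; exact_mod_cast hlt) (hE2 u hu)
      have ha := hE3 u hu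
      have hb := hE3 u' hu'
      rw [← hEE] at hb ⊢
      exact hcnt2 (E u) _ _ hm ha hb
    rcases lt_or_gt_of_ne hk1 with hlt | hlt
    · have := main w w' hw hw' he1 hk2 hlt
      omega
    · have := main w' w hw' hw he1.symm (fun l hl => (hk2 l hl).symm) hlt
      omega
  have hmaps : Set.MapsTo (fun w => ((E w, cnt (E w) (veff (pot lam (x w)) (E w) (bp j i - pad j)
      (bp j i) (bq j i) (outer j i s))) : ℝ × ℕ)) Bd (S ×ˢ range (2 ^ j + 1) : Finset (ℝ × ℕ)) := by
    intro w hw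
    have h6 : (bq j i + 1 - bp j i).toNat ≤ 2 ^ j := by
      have h7 : ((bq j i + 1 - bp j i).toNat : ℤ) ≤ ((2 ^ j : ℕ) : ℤ) := by
        rw [Int.toNat_of_nonneg (by omega)]
        push_cast
        omega
      exact_mod_cast h7
    have h8 := hcnt1 (E w) (veff (pot lam (x w)) (E w) (bp j i - pad j)
      (bp j i) (bq j i) (outer j i s))
    simp only [coe_product, Set.mem_prod, mem_coe, mem_range]
    exact ⟨(hS' _).1 (hE1 w hw), by omega⟩
  have hfin := card_le_card_of_injOn _ hmaps hinj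
  rw [card_product, card_range] at hfin
  exact le_trans hfin (Nat.mul_le_mul_right _ hScard)

end Pool.Agent.MP31f1e8.AL
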