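import Pool.Agent.Lib.MP_31f1e8_mp.AL.Ty

/-!
# AL: the energy windows

JOB AL-Win. Let `N = NN lam = ⌊lam / 1000⌋₊`, so `lam / 1000 - 1 ≤ N ≤ lam / 1000`. For `i ≤ 16`
`slo lam i ≥ 2π · 80 N - 8 ≥ 0.5 lam` and `shi lam i ≤ 2π · 129 N + 8 ≤ 0.811 lam`. For `i < i'`
`slo i' - shi i ≥ 4π N - 16 ≥ 0.0125 lam - 29`, and
`wlo i - whi i' = ((slo i')² - (shi i)²) / (lam (√ + √)) ≥ (slo i' - shi i) · 1 / (2 · 0.867)
≥ 0.006 lam`. So the windows are decreasing in `i` and `0.006 lam` apart; an energy is within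
`lam / 400` of at most one window (`bar_exists`).
-/

namespace Pool.Agent.MP31f1e8.AL

theorem NN_le {lam : ℝ} (hlam : 10 ^ 60 ≤ lam) : (NN lam : ℝ) ≤ lam / 1000 ∧
    lam / 1000 - 1 ≤ NN lam ∧ lam / 1001 ≤ NN lam ∧ 1000 ≤ NN lam := by
  have h0 : (0 : ℝ) ≤ lam / 1000 := by linarith
  have h1 : (NN lam : ℝ) ≤ lam / 1000 := Nat.floor_le h0
  have h2 : lam / 1000 - 1 ≤ NN lam := (Nat.sub_one_lt_floor _).le
  refine ⟨h1, h2, by linarith, ?_⟩
  exact Nat.le_floor (by push_cast; linarith)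

theorem slo_shi {lam : ℝ} (hlam : 10 ^ 60 ≤ lam) {i : ℕ} (hi : i ≤ 16) :
    0.5 * lam ≤ slo lam i ∧ slo lam i ≤ shi lam i ∧ shi lam i ≤ 0.811 * lam := by
  obtain ⟨h1, h2, _, _⟩ := NN_le hlam
  have hp1 := Real.pi_gt_d4
  have hp2 := Real.pi_lt_d4
  have hi' : (i : ℝ) ≤ 16 := by exact_mod_cast hi
  have hi0 : (0 : ℝ) ≤ i := Nat.cast_nonneg i
  have hN : (0 : ℝ) ≤ NN lam := Nat.cast_nonneg _
  unfold slo shi
  refine ⟨?_, ?_, ?_⟩
  · have a1 : 80 * (NN lam : ℝ) ≤ (80 + 3 * i) * NN lam := mul_le_mul_of_nonneg_right (by linarith) hN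
    have a2 : 2 * Real.pi * (80 * (NN lam : ℝ)) ≤ 2 * Real.pi * ((80 + 3 * i) * NN lam) :=
      mul_le_mul_of_nonneg_left a1 (by linarith)
    have a3 : 2 * 3.1415 * (80 * (NN lam : ℝ)) ≤ 2 * Real.pi * (80 * (NN lam : ℝ)) :=
      mul_le_mul_of_nonneg_right (by linarith) (by linarith)
    linarith
  · have a1 : (80 + 3 * i) * (NN lam : ℝ) ≤ (81 + 3 * i) * NN lam := mul_le_mul_of_nonneg_right (by linarith) hN
    have a2 : 2 * Real.pi * ((80 + 3 * i) * (NN lam : ℝ)) ≤ 2 * Real.pi * ((81 + 3 * i) * NN lam) :=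
      mul_le_mul_of_nonneg_left a1 (by linarith)
    linarith
  · have a1 : (81 + 3 * i) * (NN lam : ℝ) ≤ 129 * NN lam := mul_le_mul_of_nonneg_right (by linarith) hN
    have a2 : 2 * Real.pi * ((81 + 3 * i) * (NN lam : ℝ)) ≤ 2 * Real.pi * (129 * NN lam) :=
      mul_le_mul_of_nonneg_left a1 (by linarith)
    have a3 : 2 * Real.pi * (129 * (NN lam : ℝ)) ≤ 2 * 3.1416 * (129 * (NN lam : ℝ)) :=
      mul_le_mul_of_nonneg_right (by linarith) (by linarith)
    linarith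

private theorem win_sqrt {a b : ℝ} (ha : 0.5 ≤ a) (hb : 0.5 ≤ b) (hb2 : b ≤ 0.811) (hab : 0.0125 ≤ b - a) :
    √(1 - b ^ 2) + 0.006 ≤ √(1 - a ^ 2) := by
  have h0 : 0 ≤ √(1 - b ^ 2) := Real.sqrt_nonneg _
  have h1 : √(1 - b ^ 2) ≤ 1 := Real.sqrt_le_one.2 (by nlinarith)
  have h2 : √(1 - b ^ 2) ^ 2 = 1 - b ^ 2 := Real.sq_sqrt (by nlinarith)
  apply Real.le_sqrt_of_sq_le
  have h3 : 0.0125 * 1 ≤ (b - a) * (b + a) := mul_le_mul hab (by linarith) (by norm_num) (by linarith)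
  nlinarith

theorem window_gap {lam : ℝ} (hlam : 10 ^ 60 ≤ lam) {i i' : ℕ} (h : i < i') (hi' : i' ≤ 16) :
    whi lam i' + 0.006 * lam ≤ wlo lam i := by
  have hl : 0 < lam := by linarith
  have hii : i ≤ 16 := by omega
  obtain ⟨s1, s2, s3⟩ := slo_shi hlam hii
  obtain ⟨t1, t2, t3⟩ := slo_shi hlam hi'
  have gap : 0.0125 * lam ≤ slo lam i' - shi lam i := by
    obtain ⟨h1, h2, _, _⟩ := NN_le hlam
    have hp1 := Real.pi_gt_d4
    have hN : (0 : ℝ) ≤ NN lam := Nat.cast_nonneg _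
    have hi1 : (i : ℝ) + 1 ≤ i' := by exact_mod_cast h
    have a1 : (83 + 3 * i) * (NN lam : ℝ) ≤ (80 + 3 * i') * NN lam := mul_le_mul_of_nonneg_right (by linarith) hN
    have a2 : 2 * Real.pi * ((83 + 3 * i) * (NN lam : ℝ)) ≤ 2 * Real.pi * ((80 + 3 * i') * NN lam) :=
      mul_le_mul_of_nonneg_left a1 (by linarith)
    have a3 : 4 * 3.1415 * (NN lam : ℝ) ≤ 4 * Real.pi * (NN lam : ℝ) :=
      mul_le_mul_of_nonneg_right (by linarith) hN
    have a4 : 2 * Real.pi * ((83 + 3 * i) * (NN lam : ℝ)) - 2 * Real.pi * ((81 + 3 * i) * (NN lam : ℝ)) =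
        4 * Real.pi * (NN lam : ℝ) := by ring
    unfold slo shi
    linarith
  have ha1 : 0.5 ≤ shi lam i / lam := by rw [le_div_iff₀ hl]; linarith
  have hb1 : 0.5 ≤ slo lam i' / lam := by rw [le_div_iff₀ hl]; linarith
  have hb2 : slo lam i' / lam ≤ 0.811 := by rw [div_le_iff₀ hl]; linarith
  have hab : 0.0125 ≤ slo lam i' / lam - shi lam i / lam := by
    rw [← sub_div, le_div_iff₀ hl]; linarith
  have key := win_sqrt ha1 hb1 hb2 hab
  unfold whi wlo
  have := mul_le_mul_of_nonneg_left key hl.le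
  linarith

theorem window_nonempty {lam : ℝ} (hlam : 10 ^ 60 ≤ lam) {i : ℕ} (hi : i ≤ 16) :
    wlo lam i ≤ whi lam i ∧ 0.5 * lam ≤ wlo lam i ∧ whi lam i ≤ lam := by
  have hl : 0 < lam := by linarith
  obtain ⟨s1, s2, s3⟩ := slo_shi hlam hi
  have ha1 : 0.5 ≤ slo lam i / lam := by rw [le_div_iff₀ hl]; linarith
  have hb1 : slo lam i / lam ≤ shi lam i / lam := by gcongr
  have hb2 : shi lam i / lam ≤ 0.811 := by rw [div_le_iff₀ hl]; linarith
  have k1 : √(1 - (shi lam i / lam) ^ 2) ≤ √(1 - (slo lam i / lam) ^ 2) := Real.sqrt_le_sqrt (by nlinarith)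
  have k2 : 0.5 ≤ √(1 - (shi lam i / lam) ^ 2) := Real.le_sqrt_of_sq_le (by nlinarith)
  have k3 : √(1 - (slo lam i / lam) ^ 2) ≤ 1 := Real.sqrt_le_one.2 (by nlinarith)
  unfold wlo whi
  refine ⟨mul_le_mul_of_nonneg_left k1 hl.le, ?_, ?_⟩
  · have := mul_le_mul_of_nonneg_left k2 hl.le; linarith
  · have := mul_le_mul_of_nonneg_left k3 hl.le; linarith

theorem bar_exists {lam : ℝ} (hlam : 10 ^ 60 ≤ lam) (e : ℝ) : ∃ i ≤ 16, Bar lam (lam / 400) i e := by
  have hl : 0 < lam := by linarith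
  by_cases hex : ∃ i ≤ 16, ∃ v ∈ Set.Icc (wlo lam i) (whi lam i), |e - v| < lam / 400
  · obtain ⟨i, hi, v, hv, hev⟩ := hex
    refine ⟨i, hi, fun i' hi' hne v' hv' => ?_⟩
    have hd : 0.006 * lam ≤ |v - v'| := by
      rcases lt_or_gt_of_ne hne with h | h
      · have := window_gap hlam h hi
        have h2 : v - v' ≤ - (0.006 * lam) := by linarith [hv.2, hv'.1]
        calc 0.006 * lam ≤ - (v - v') := by linarith
          _ ≤ |v - v'| := neg_le_abs _
      · have := window_gap hlam h hi'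
        have h2 : 0.006 * lam ≤ v - v' := by linarith [hv.1, hv'.2]
        exact h2.trans (le_abs_self _)
    have htri : |v - v'| ≤ |e - v| + |e - v'| := by
      have := abs_sub_le v e v'
      rwa [abs_sub_comm v e] at this
    linarith
  · push Not at hex
    exact ⟨0, by norm_num, fun i' hi' _ v hv => hex i' hi' v hv⟩

theorem bar_mono {lam B B' : ℝ} {i : ℕ} {e e' : ℝ} (h : Bar lam B i e)
    (hB : B' + |e - e'| ≤ B) : Bar lam B' i e' := by
  intro i' hi' hne v hv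
  have h1 := h i' hi' hne v hv
  have htri : |e - v| ≤ |e - e'| + |e' - v| := abs_sub_le e e' v
  linarith

/-- the sign of `e - v` is constant on a window of a barrier -/
theorem bar_sign {lam B : ℝ} (hB : 0 < B) {i i' : ℕ} {e : ℝ} (h : Bar lam B i e) (hi' : i' ≤ 16)
    (hne : i' ≠ i) {v v' : ℝ} (hv : v ∈ Set.Icc (wlo lam i') (whi lam i'))
    (hv' : v' ∈ Set.Icc (wlo lam i') (whi lam i')) : 0 < (e - v) * (e - v') := by
  by_contra hcon
  have hcon' := not_lt.1 hcon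
  have hmem : e ∈ Set.Icc (wlo lam i') (whi lam i') := by
    rcases mul_nonpos_iff.1 hcon' with ⟨h1, h2⟩ | ⟨h1, h2⟩
    · exact ⟨by linarith [hv.1], by linarith [hv'.2]⟩
    · exact ⟨by linarith [hv'.1], by linarith [hv.2]⟩
  have := h i' hi' hne e hmem
  simp at this
  linarith

/-- the potential of an orbit lies in the windows -/
theorem orb_window {lam : ℝ} (hlam : 10 ^ 60 ≤ lam) {z : Cen} (hz : z.Good lam) {c : ℤ → ℕ}
    (hc : ∀ n, c n < NN lam) {x : ℤ → ℝ} (hx : Orb lam z c x) {n : ℤ} (h0 : n ≠ 0)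
    (h1 : n ≠ -1) : pot lam x n ∈ Set.Icc (wlo lam (typ n)) (whi lam (typ n)) := by
  have hl : 0 < lam := by linarith
  obtain ⟨⟨_, p1, p2, _⟩, ⟨_, p3, p4, _⟩⟩ := hz
  have hq : 0 ≤ 4 / √lam := by positivity
  have hp1 := Real.pi_gt_d4
  have hp2 := Real.pi_lt_d4
  have xl0 : 0 ≤ xlo := Real.arcsin_nonneg.2 (by norm_num)
  have xh1 : xhi ≤ Real.pi / 2 := Real.arcsin_le_pi_div_two _
  have hall : ∀ m, -Real.pi ≤ x m ∧ x m ≤ Real.pi := by
    intro m
    by_cases m0 : m = 0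
    · subst m0; exact ⟨by linarith [hx.cen0.1], by linarith [hx.cen0.2]⟩
    by_cases m1 : m = -1
    · subst m1; exact ⟨by linarith [hx.cen1.1], by linarith [hx.cen1.2]⟩
    have := hx.win m m0 m1
    exact ⟨by linarith [this.1], by linarith [this.2]⟩
  have hn := hx.win n h0 h1
  have hx0 : 0 ≤ x n := by linarith [hn.1]
  have hx1 : x n ≤ Real.pi / 2 := by linarith [hn.2]
  have hone : -Real.pi ≤ x (n + 1) + x (n - 1) := by
    by_cases hc0 : n + 1 = 0 ∨ n + 1 = -1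
    · have := hx.win (n - 1) (by omega) (by omega)
      linarith [this.1, (hall (n + 1)).1]
    · have := hx.win (n + 1) (by omega) (by omega)
      linarith [this.1, (hall (n - 1)).1]
  have heq := hx.eq n
  have hmm : (mm lam z c n : ℝ) = (80 + 3 * typ n) * NN lam + c n := by
    unfold mm; rw [if_neg h0, if_neg h1]; push_cast; ring
  rw [hmm] at heq
  have hc0 : (0 : ℝ) ≤ c n := Nat.cast_nonneg _
  have hc1 : (c n : ℝ) ≤ NN lam := by exact_mod_cast (hc n).le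
  have e1 : 0 ≤ 2 * Real.pi * c n := by positivity
  have e2 : 2 * Real.pi * c n ≤ 2 * Real.pi * NN lam := mul_le_mul_of_nonneg_left hc1 (by linarith)
  have b1 : slo lam (typ n) ≤ lam * Real.sin (x n) := by
    unfold slo
    linarith [(hall (n + 1)).1]
  have b2 : lam * Real.sin (x n) ≤ shi lam (typ n) := by
    unfold shi
    linarith [(hall (n + 1)).2, (hall (n - 1)).2]
  obtain ⟨s1, s2, s3⟩ := slo_shi hlam (typ_le n)
  have ha1 : 0.5 ≤ slo lam (typ n) / lam := by rw [le_div_iff₀ hl]; linarith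
  have c1 : slo lam (typ n) / lam ≤ Real.sin (x n) := by rw [div_le_iff₀ hl]; linarith
  have c2 : Real.sin (x n) ≤ shi lam (typ n) / lam := by rw [le_div_iff₀ hl]; linarith
  have hcos : Real.cos (x n) = √(1 - Real.sin (x n) ^ 2) :=
    Real.cos_eq_sqrt_one_sub_sin_sq (by linarith) hx1
  unfold pot wlo whi
  rw [hcos]
  constructor
  · exact mul_le_mul_of_nonneg_left (Real.sqrt_le_sqrt (by nlinarith)) hl.le
  · exact mul_le_mul_of_nonneg_left (Real.sqrt_le_sqrt (by nlinarith)) hl.le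

end Pool.Agent.MP31f1e8.AL
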