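import Pool.Agent.Lib.MP_31f1e8_mp.AL.Wegner

/-!
# AL: the bad words of a window

JOB AL-Words. `X = 2 ^ (j + 6)`. Fix `v`. Split the indices `k : Fin X` of `u` into
`T = {k | bq j i ≤ k ∧ k < bq j i + 2 ^ j}` (the site of the index `k` is `n = k + 1`, so these are
the sites `bq j i + 1, ..., bq j i + 2 ^ j`; `block_facts`: `bq j i + 2 ^ j < 2 ^ (j + 6)`) and the
others (`Equiv.piEquivPiSubtypeProd`). `T` has `2 ^ j` elements. For fixed values on the complement
the bad choices on `T` inject into the bad words of `wegner` (with `c` = the code `cw u v`, with the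
entries of `u` on the complement of `T`, zero on `T`), so there are at most
`64 * 2 ^ j * (2 ^ j + 1)`. Sum over the `N ^ (X - 2 ^ j)` choices on the complement and over the
`N ^ X` words `v`.
-/

namespace Pool.Agent.MP31f1e8.AL

open Finset Classical

/-- the code with the digits `u` at the sites `1, ..., X` and `v` at the sites `-2, ..., -1 - X` -/
noncomputable def cw {N X : ℕ} (u v : Fin X → Fin N) (n : ℤ) : ℕ :=
  if h : 1 ≤ n ∧ n ≤ X then (u ⟨(n - 1).toNat, by omega⟩ : ℕ)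
  else if h : -1 - (X : ℤ) ≤ n ∧ n ≤ -2 then (v ⟨(-2 - n).toNat, by omega⟩ : ℕ) else 0

/-- the bad pairs of words -/
noncomputable def badWords (lam : ℝ) (z : Cen) (j i : ℕ) (s : Bool) :
    Finset ((Fin (2 ^ (j + 6)) → Fin (NN lam)) × (Fin (2 ^ (j + 6)) → Fin (NN lam))) :=
  univ.filter fun p => ∃ x, Orb lam z (cw p.1 p.2) x ∧
    Reso lam (pot lam x) j i s (lam / 400 - 2) (3 * dlt lam j)

/-- the part of the word `u` at the sites `q + 1, ..., q + R` -/
private def sub {N X R : ℕ} (q : ℕ) (h : q + R ≤ X) (u : Fin X → Fin N) (k : Fin R) : Fin N :=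
  u ⟨q + k, by have := k.2; omega⟩

private theorem cw_ins {N X R : ℕ} {q : ℕ} (h : q + R ≤ X) {u u0 v : Fin X → Fin N}
    (hu : ∀ k : Fin X, ¬ (q ≤ (k : ℕ) ∧ (k : ℕ) < q + R) → u k = u0 k) :
    cw u v = ins (q : ℤ) (cw u0 v) (sub q h u) := by
  funext n
  by_cases h1 : (q : ℤ) < n ∧ n ≤ q + R
  · have e1 : ins (q : ℤ) (cw u0 v) (sub q h u) n
        = (sub q h u ⟨(n - q - 1).toNat, by omega⟩ : ℕ) := by
      unfold ins
      rw [dif_pos h1]
    have h2 : 1 ≤ n ∧ n ≤ (X : ℤ) := by omega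
    have e2 : cw u v n = (u ⟨(n - 1).toNat, by omega⟩ : ℕ) := by
      unfold cw
      rw [dif_pos h2]
    rw [e1, e2]
    unfold sub
    congr 2
    apply Fin.ext
    show (n - 1).toNat = q + (n - q - 1).toNat
    omega
  · have e1 : ins (q : ℤ) (cw u0 v) (sub q h u) n = cw u0 v n := by
      unfold ins
      rw [dif_neg h1]
    rw [e1]
    by_cases h2 : 1 ≤ n ∧ n ≤ (X : ℤ)
    · have e2 : ∀ w : Fin X → Fin N, cw w v n = (w ⟨(n - 1).toNat, by omega⟩ : ℕ) := by
        intro w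
        unfold cw
        rw [dif_pos h2]
      rw [e2, e2, hu]
      show ¬ (q ≤ (n - 1).toNat ∧ (n - 1).toNat < q + R)
      omega
    · unfold cw
      rw [dif_neg h2, dif_neg h2]

private theorem cw_lt {N X : ℕ} (hN : 0 < N) (u v : Fin X → Fin N) (n : ℤ) : cw u v n < N := by
  unfold cw
  split_ifs
  · exact (u _).2
  · exact (v _).2
  · exact hN

private theorem sub_inj {N X R : ℕ} {q : ℕ} (h : q + R ≤ X) {u u' : Fin X → Fin N}
    (hu : ∀ k : Fin X, ¬ (q ≤ (k : ℕ) ∧ (k : ℕ) < q + R) → u k = u' k)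
    (hs : sub q h u = sub q h u') : u = u' := by
  funext k
  by_cases hk : q ≤ (k : ℕ) ∧ (k : ℕ) < q + R
  · have h1 := congrFun hs ⟨(k : ℕ) - q, by omega⟩
    unfold sub at h1
    have e : (⟨q + ((k : ℕ) - q), by have := k.2; omega⟩ : Fin X) = k := by
      apply Fin.ext
      show q + ((k : ℕ) - q) = (k : ℕ)
      omega
    simp only at h1
    rw [e] at h1
    exact h1
  · exact hu k hk

private theorem card_compl {X R q : ℕ} (h : q + R ≤ X) :
    Fintype.card {k : Fin X // ¬ (q ≤ (k : ℕ) ∧ (k : ℕ) < q + R)} = X - R := by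
  rw [Fintype.card_subtype_compl, Fintype.card_fin]
  congr 1
  have e : Fintype.card {k : Fin X // q ≤ (k : ℕ) ∧ (k : ℕ) < q + R} = Fintype.card (Fin R) := by
    apply Fintype.card_congr
    refine ⟨fun k => ⟨(k.1 : ℕ) - q, by have := k.2; omega⟩,
      fun k => ⟨⟨q + (k : ℕ), by have := k.2; omega⟩, ?_, ?_⟩, ?_, ?_⟩
    · show q ≤ q + (k : ℕ)
      omega
    · have := k.2
      show q + (k : ℕ) < q + R
      omega
    · rintro ⟨k, h1, h2⟩
      apply Subtype.ext
      apply Fin.ext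
      show q + ((k : ℕ) - q) = (k : ℕ)
      omega
    · intro k
      apply Fin.ext
      show q + (k : ℕ) - q = (k : ℕ)
      omega
  rw [e, Fintype.card_fin]

theorem badWords_card {lam : ℝ} (hlam : 10 ^ 60 ≤ lam) {z : Cen} (hz : z.Good lam) {j i : ℕ}
    (hj : 1 ≤ j) (hi : i < 16) (s : Bool) :
    (badWords lam z j i s).card ≤
      NN lam ^ (2 * 2 ^ (j + 6) - 2 ^ j) * (64 * 2 ^ j * (2 ^ j + 1)) := by
  have hN : 0 < NN lam := by
    unfold NN
    apply Nat.floor_pos.2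
    rw [le_div_iff₀ (by norm_num)]
    linarith
  obtain ⟨q, hq⟩ : ∃ q : ℕ, (q : ℤ) = bq j i := by
    refine ⟨(17 + i) * 2 ^ j - 1, ?_⟩
    have h1 : 1 ≤ (17 + i) * 2 ^ j := Nat.mul_pos (by omega) (by positivity)
    unfold bq bp
    push_cast [h1]
    ring
  have hX : q + 2 ^ j ≤ 2 ^ (j + 6) := by
    have h1 : (q : ℤ) = (16 + i) * 2 ^ j + 2 ^ j - 1 := hq
    have h2 : ((16 + i : ℤ)) * 2 ^ j ≤ 31 * 2 ^ j := by
      apply mul_le_mul_of_nonneg_right _ (by positivity)
      omega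
    have h3 : (0 : ℤ) < 2 ^ j := by positivity
    have h4 : ((q + 2 ^ j : ℕ) : ℤ) ≤ ((2 ^ (j + 6) : ℕ) : ℤ) := by
      push_cast
      rw [pow_add]
      linarith
    exact_mod_cast h4
  set X := 2 ^ (j + 6) with hXd
  let f : ((Fin X → Fin (NN lam)) × (Fin X → Fin (NN lam))) →
      (({k : Fin X // ¬ (q ≤ (k : ℕ) ∧ (k : ℕ) < q + 2 ^ j)} → Fin (NN lam)) ×
        (Fin X → Fin (NN lam))) := fun p => (fun k => p.1 k.1, p.2)
  have hfib : ∀ a ∈ (badWords lam z j i s).image f,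
      ((badWords lam z j i s).filter fun p => f p = a).card ≤ 64 * 2 ^ j * (2 ^ j + 1) := by
    intro a ha
    obtain ⟨p0, hp0, rfl⟩ := mem_image.1 ha
    refine le_trans ?_ (wegner hlam hz hj hi s (c := cw p0.1 p0.2) (cw_lt hN p0.1 p0.2))
    have hfe : ∀ p, f p = f p0 → p.2 = p0.2 ∧
        ∀ k : Fin X, ¬ (q ≤ (k : ℕ) ∧ (k : ℕ) < q + 2 ^ j) → p.1 k = p0.1 k := by
      intro p hp
      have h1 : (f p).1 = (f p0).1 := congrArg Prod.fst hp
      have h2 : (f p).2 = (f p0).2 := congrArg Prod.snd hp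
      exact ⟨h2, fun k hk => congrFun h1 ⟨k, hk⟩⟩
    apply card_le_card_of_injOn (fun p => sub q hX p.1)
    · intro p hp
      have hp1 := (mem_filter.1 hp).1
      have hp2 := hfe p (mem_filter.1 hp).2
      obtain ⟨x, hx1, hx2⟩ := (mem_filter.1 hp1).2
      simp only [coe_filter, mem_univ, true_and, Set.mem_setOf_eq]
      refine ⟨x, ?_, hx2⟩
      rw [← hq, ← cw_ins hX hp2.2, ← hp2.1]
      exact hx1
    · intro p hp p' hp' he
      have h1 := hfe p (mem_filter.1 hp).2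
      have h2 := hfe p' (mem_filter.1 hp').2
      have h3 : p.1 = p'.1 := sub_inj hX (fun k hk => (h1.2 k hk).trans (h2.2 k hk).symm) he
      exact Prod.ext h3 (h1.1.trans h2.1.symm)
  have h5 := card_le_mul_card_image (badWords lam z j i s) _ hfib
  have h6 : ((badWords lam z j i s).image f).card ≤ NN lam ^ (2 * X - 2 ^ j) := by
    refine le_trans (card_le_univ _) ?_
    rw [Fintype.card_prod, Fintype.card_fun, Fintype.card_fun, Fintype.card_fin, Fintype.card_fin,
      card_compl hX, ← pow_add]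
    apply le_of_eq
    congr 1
    omega
  calc (badWords lam z j i s).card ≤ 64 * 2 ^ j * (2 ^ j + 1) *
        ((badWords lam z j i s).image f).card := h5
    _ ≤ 64 * 2 ^ j * (2 ^ j + 1) * NN lam ^ (2 * X - 2 ^ j) := Nat.mul_le_mul_left _ h6
    _ = NN lam ^ (2 * X - 2 ^ j) * (64 * 2 ^ j * (2 ^ j + 1)) := Nat.mul_comm _ _

end Pool.Agent.MP31f1e8.AL
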